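import Mathlib

/-! Nested windows for the shooting argument. -/

open Set

namespace Pool.Agent.Lib.MP_9cc147_pr.Cx

theorem f_last {f : ℝ → ℝ} {a b c : ℝ} (hab : a ≤ b) (hf : ContinuousOn f (Icc a b))
    (ha : c ≤ f a) (hb : f b ≤ c) :
    ∃ a', a ≤ a' ∧ a' ≤ b ∧ f a' = c ∧ ∀ x ∈ Icc a' b, f x ≤ c := by
  have hK : IsCompact (Icc a b ∩ f ⁻¹' {c}) :=
    isCompact_Icc.of_isClosed_subset
      (hf.preimage_isClosed_of_isClosed isClosed_Icc isClosed_singleton) inter_subset_left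
  have hne : (Icc a b ∩ f ⁻¹' {c}).Nonempty := by
    obtain ⟨x, hx, e⟩ := intermediate_value_Icc' hab hf ⟨hb, ha⟩
    exact ⟨x, hx, e⟩
  obtain ⟨a', ⟨h1, h2⟩, h3⟩ := hK.exists_isGreatest hne
  refine ⟨a', h1.1, h1.2, h2, fun x hx => ?_⟩
  by_contra hc
  push Not at hc
  obtain ⟨y, hy, e⟩ := intermediate_value_Icc' hx.2
    (hf.mono (Icc_subset_Icc (h1.1.trans hx.1) le_rfl)) ⟨hb, hc.le⟩
  have h4 : y ≤ a' := h3 ⟨⟨h1.1.trans (hx.1.trans hy.1), hy.2⟩, e⟩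
  have h5 : x = a' := le_antisymm (hy.1.trans h4) hx.1
  have h6 : f a' = c := h2
  rw [h5, h6] at hc
  exact lt_irrefl _ hc

theorem f_first {f : ℝ → ℝ} {a b c : ℝ} (hab : a ≤ b) (hf : ContinuousOn f (Icc a b))
    (ha : c ≤ f a) (hb : f b ≤ c) :
    ∃ b', a ≤ b' ∧ b' ≤ b ∧ f b' = c ∧ ∀ x ∈ Icc a b', c ≤ f x := by
  have hK : IsCompact (Icc a b ∩ f ⁻¹' {c}) :=
    isCompact_Icc.of_isClosed_subset
      (hf.preimage_isClosed_of_isClosed isClosed_Icc isClosed_singleton) inter_subset_left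
  have hne : (Icc a b ∩ f ⁻¹' {c}).Nonempty := by
    obtain ⟨x, hx, e⟩ := intermediate_value_Icc' hab hf ⟨hb, ha⟩
    exact ⟨x, hx, e⟩
  obtain ⟨b', ⟨h1, h2⟩, h3⟩ := hK.exists_isLeast hne
  refine ⟨b', h1.1, h1.2, h2, fun x hx => ?_⟩
  by_contra hc
  push Not at hc
  obtain ⟨y, hy, e⟩ := intermediate_value_Icc' hx.1
    (hf.mono (Icc_subset_Icc le_rfl (hx.2.trans h1.2))) ⟨hc.le, ha⟩
  have h4 : b' ≤ y := h3 ⟨⟨hy.1, hy.2.trans (hx.2.trans h1.2)⟩, e⟩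
  have h5 : x = b' := le_antisymm hx.2 (h4.trans hy.2)
  have h6 : f b' = c := h2
  rw [h5, h6] at hc
  exact lt_irrefl _ hc

/-- a smaller window that is mapped into and onto `[-c, c]` -/
theorem f_window {f : ℝ → ℝ} {a b c : ℝ} (hab : a ≤ b) (hc : 0 ≤ c)
    (hf : ContinuousOn f (Icc a b)) (ha : c ≤ f a) (hb : f b ≤ -c) :
    ∃ a' b', a ≤ a' ∧ a' ≤ b' ∧ b' ≤ b ∧ f a' = c ∧ f b' = -c ∧ ∀ x ∈ Icc a' b', |f x| ≤ c := by
  obtain ⟨a', h1, h2, h3, h4⟩ := f_last hab hf ha (by linarith)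
  obtain ⟨b', g1, g2, g3, g4⟩ := f_first h2 (hf.mono (Icc_subset_Icc h1 le_rfl))
    (show -c ≤ f a' by linarith) hb
  exact ⟨a', b', h1, g1, g2, h3, g3, fun x hx =>
    abs_le.2 ⟨g4 x hx, h4 x ⟨hx.1, hx.2.trans g2⟩⟩⟩

/-- a point at which all bounds hold -/
theorem f_nested {u : ℕ → ℝ → ℝ} {c : ℕ → ℝ} {a b : ℝ} (hu : ∀ j, ContinuousOn (u j) (Icc a b))
    (h : ∀ j, ∃ x ∈ Icc a b, ∀ i ≤ j, |u i x| ≤ c i) : ∃ x ∈ Icc a b, ∀ i, |u i x| ≤ c i := by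
  let S : ℕ → Set ℝ := fun j => Icc a b ∩ ⋂ i ∈ Iic j, (Icc a b ∩ (u i) ⁻¹' Icc (-c i) (c i))
  have hcl : ∀ j, IsClosed (S j) := fun j => isClosed_Icc.inter
    (isClosed_biInter fun i _ => (hu i).preimage_isClosed_of_isClosed isClosed_Icc isClosed_Icc)
  have := IsCompact.nonempty_iInter_of_sequence_nonempty_isCompact_isClosed S
    (fun j x hx => ⟨hx.1, mem_iInter₂.2 fun i hi =>
      mem_iInter₂.1 hx.2 i (le_trans hi (Nat.le_succ j))⟩)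
    (fun j => by
      obtain ⟨x, hx, h1⟩ := h j
      exact ⟨x, hx, mem_iInter₂.2 fun i hi => ⟨hx, abs_le.1 (h1 i hi)⟩⟩)
    (isCompact_Icc.of_isClosed_subset (hcl 0) inter_subset_left) hcl
  obtain ⟨x, hx⟩ := this
  refine ⟨x, (mem_iInter.1 hx 0).1, fun i => ?_⟩
  exact abs_le.2 (mem_iInter₂.1 (mem_iInter.1 hx i).2 i (mem_Iic.2 le_rfl)).2

end Pool.Agent.Lib.MP_9cc147_pr.Cx
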