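import Pool.Agent.Lib.MP_9cc147_pr.Cx.F.S
import Pool.Agent.Lib.MP_9cc147_pr.Cx.F.Ivt

/-! The abstract shooting lemma. -/

open Set

namespace Pool.Agent.Lib.MP_9cc147_pr.Cx

theorem t_f_abs : S_f_abs := by
  intro G Δ a b w hw hab hc h0 hs hstep hG
  have key : ∀ j, (∀ i ≤ j, G i) ∧ ∀ s, ∃ a' b', a s ≤ a' ∧ a' ≤ b' ∧ b' ≤ b s ∧
      Δ s j a' = w / 4 ^ j ∧ Δ s j b' = -(w / 4 ^ j) ∧
      ∀ x ∈ Icc a' b', ∀ i ≤ j, |Δ s i x| ≤ w / 4 ^ i := by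
    intro j
    induction j with
    | zero =>
      refine ⟨fun i hi => by rwa [Nat.le_zero.1 hi], fun s => ⟨a s, b s, le_rfl, hab s, le_rfl, ?_, ?_, ?_⟩⟩
      · simpa using (hs s).1
      · simpa using (hs s).2.1
      · intro x hx i hi
        rw [Nat.le_zero.1 hi]; simpa using (hs s).2.2 x hx
    | succ j ih =>
      obtain ⟨g, hw'⟩ := ih
      have g1 : G (j + 1) := hG j g fun s => by
        obtain ⟨a', b', h1, h2, h3, -, -, h6⟩ := hw' s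
        exact ⟨a', ⟨h1, h2.trans h3⟩, h6 a' ⟨le_rfl, h2⟩⟩
      refine ⟨fun i hi => ?_, fun s => ?_⟩
      · rcases Nat.le_succ_iff.1 hi with h | h
        · exact g i h
        · rwa [h]
      obtain ⟨a', b', h1, h2, h3, h4, h5, h6⟩ := hw' s
      have p : 0 < w / 4 ^ j := by positivity
      have e : w / 4 ^ (j + 1) = w / 4 ^ j / 4 := by rw [pow_succ, div_div]
      have s1 := abs_le.1 (hstep s j a' ⟨h1, h2.trans h3⟩
        fun i hi => ⟨g i hi, h6 a' ⟨le_rfl, h2⟩ i hi⟩)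
      have s2 := abs_le.1 (hstep s j b' ⟨h1.trans h2, h3⟩
        fun i hi => ⟨g i hi, h6 b' ⟨h2, le_rfl⟩ i hi⟩)
      obtain ⟨a2, b2, k1, k2, k3, k4, k5, k6⟩ := f_window (f := Δ s (j + 1))
        (c := w / 4 ^ (j + 1)) h2 (by positivity) ((hc s (j + 1)).mono (Icc_subset_Icc h1 h3))
        (by rw [e]; linarith [s1.1]) (by rw [e]; linarith [s2.2])
      refine ⟨a2, b2, h1.trans k1, k2, k3.trans h3, k4, k5, fun x hx i hi => ?_⟩
      rcases Nat.le_succ_iff.1 hi with h | h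
      · exact h6 x ⟨k1.trans hx.1, hx.2.trans k3⟩ i h
      · rw [h]; exact k6 x hx
  refine ⟨fun j => (key j).1 j le_rfl, fun s => ?_⟩
  refine f_nested (u := Δ s) (c := fun i => w / 4 ^ i) (hc s) fun j => ?_
  obtain ⟨a', b', h1, h2, h3, -, -, h6⟩ := (key j).2 s
  exact ⟨a', ⟨h1, h2.trans h3⟩, h6 a' ⟨le_rfl, h2⟩⟩

end Pool.Agent.Lib.MP_9cc147_pr.Cx
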