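import Pool.Agent.Lib.MP_9cc147_pr.Cx.F.S
import Pool.Agent.Lib.MP_997161_gt.Degree

/-! Two facts of pure analysis: a zero in the rectangle, and vanishing of a quadratic form. -/

open scoped Classical Topology RealInnerProductSpace
open Filter

noncomputable section
namespace Pool.Agent.Lib.MP_9cc147_pr.Cx

theorem t_f_poly : S_f_poly := by
  intro L α β c1 c2 hL h
  have hL1 : (1 : ℝ) < L := by exact_mod_cast (by omega : 1 < L)
  have hL0 : (0 : ℝ) < L := by linarith
  have hx : Tendsto (fun J : ℕ => (L : ℝ) ^ (J + 2)) atTop atTop :=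
    (tendsto_pow_atTop_atTop_of_one_lt hL1).comp (tendsto_add_atTop_nat 2)
  have h1 : Tendsto (fun J : ℕ => (c1 + c2 * J) / (L : ℝ) ^ (J + 2)) atTop (𝓝 0) := by
    have a0 := (tendsto_pow_const_div_const_pow_of_one_lt 0 hL1).const_mul (c1 / (L : ℝ) ^ 2)
    have a1 := (tendsto_pow_const_div_const_pow_of_one_lt 1 hL1).const_mul (c2 / (L : ℝ) ^ 2)
    have a2 := a0.add a1
    rw [mul_zero, mul_zero, add_zero] at a2
    refine a2.congr fun J => ?_
    field_simp
    ring
  have h2 : Tendsto (fun J : ℕ => α * (L : ℝ) ^ (J + 2) + β) atTop (𝓝 0) := by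
    refine squeeze_zero_norm' ?_ h1
    filter_upwards [eventually_ge_atTop 1] with J hJ
    have hp : (0 : ℝ) < (L : ℝ) ^ (J + 2) := by positivity
    have h3 := h J hJ
    rw [Real.norm_eq_abs, le_div_iff₀ hp]
    have e : α * ((L : ℝ) ^ (J + 2)) ^ 2 + β * (L : ℝ) ^ (J + 2) =
        (α * (L : ℝ) ^ (J + 2) + β) * (L : ℝ) ^ (J + 2) := by ring
    rw [e, abs_mul, abs_of_pos hp] at h3
    exact h3
  have h3 : Tendsto (fun J : ℕ => α + β / (L : ℝ) ^ (J + 2)) atTop (𝓝 0) := by
    refine (h2.div_atTop hx).congr fun J => ?_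
    field_simp
  have h4 : Tendsto (fun J : ℕ => α + β / (L : ℝ) ^ (J + 2)) atTop (𝓝 (α + 0)) :=
    tendsto_const_nhds.add (tendsto_const_nhds.div_atTop hx)
  have hα : α = 0 := by
    have := tendsto_nhds_unique h4 h3
    rwa [add_zero] at this
  refine ⟨hα, ?_⟩
  simp only [hα, zero_mul, zero_add] at h2
  exact tendsto_nhds_unique tendsto_const_nhds h2

/-- clamp to an interval -/
def fana_cl (a b x : ℝ) : ℝ := max a (min b x)

lemma fana_mem {a b : ℝ} (h : a ≤ b) (x : ℝ) : fana_cl a b x ∈ Set.Icc a b :=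
  ⟨le_max_left _ _, max_le h (min_le_left _ _)⟩

lemma fana_cont (a b : ℝ) : Continuous (fana_cl a b) :=
  continuous_const.max (continuous_const.min continuous_id)

lemma fana_zero {a b x y : ℝ} (h : a ≤ b) (e : x - fana_cl a b x - y = 0)
    (ha : fana_cl a b x = a → 0 < y) (hb : fana_cl a b x = b → y < 0) : y = 0 := by
  rcases lt_or_ge x a with h1 | h1
  · have e1 : fana_cl a b x = a := by
      unfold fana_cl
      exact max_eq_left ((min_le_right _ _).trans h1.le)
    have := ha e1
    rw [e1] at e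
    linarith
  · rcases lt_or_ge b x with h2 | h2
    · have e1 : fana_cl a b x = b := by
        unfold fana_cl
        rw [min_eq_left h2.le, max_eq_right h]
      have := hb e1
      rw [e1] at e
      linarith
    · have e1 : fana_cl a b x = x := by
        unfold fana_cl
        rw [min_eq_right h2, max_eq_right h1]
      rw [e1] at e
      linarith

/-- clamp to the rectangle -/
def fana_pi (w : EuclideanSpace ℝ (Fin 2)) : rect :=
  ⟨(fana_cl (-(1 / 100)) (1 / 100) (w 0), fana_cl (1 / 10) (9 / 10) (w 1)),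
    fana_mem (by norm_num) _, fana_mem (by norm_num) _⟩

lemma fana_pi_cont : Continuous fana_pi := by
  refine Continuous.subtype_mk (Continuous.prodMk ?_ ?_) _
  · exact (fana_cont _ _).comp (by fun_prop)
  · exact (fana_cont _ _).comp (by fun_prop)

theorem t_f_mir : S_f_mir := by
  intro f g hf hg h1 h2 h3 h4
  have : CompactSpace rect := isCompact_iff_compactSpace.1 (isCompact_Icc.prod isCompact_Icc)
  let u : rect → EuclideanSpace ℝ (Fin 2) := fun τ => WithLp.toLp 2 ![τ.1.1 + f τ, τ.1.2 + g τ]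
  have hu : Continuous u := by
    refine (PiLp.continuous_toLp 2 _).comp (continuous_pi fun i => ?_)
    fin_cases i
    · exact (continuous_fst.comp continuous_subtype_val).add hf
    · exact (continuous_snd.comp continuous_subtype_val).add hg
  obtain ⟨K, hK⟩ := (isCompact_range hu).isBounded.exists_norm_le
  obtain ⟨w, hw⟩ := MP_997161_gt.exists_zero (n := 2) (F := fun w => w - u (fana_pi w))
    (continuous_id.sub (hu.comp fana_pi_cont)) (R := |K| + 1) fun w hw => by
      have a1 := hK _ ⟨fana_pi w, rfl⟩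
      have a2 := real_inner_le_norm (u (fana_pi w)) w
      have a3 := le_abs_self K
      have a4 := abs_nonneg K
      rw [inner_sub_left, real_inner_self_eq_norm_sq]
      nlinarith [norm_nonneg w, norm_nonneg (u (fana_pi w))]
  have e0 : w 0 - (fana_cl (-(1 / 100)) (1 / 100) (w 0) + f (fana_pi w)) = 0 :=
    congrArg (fun v : EuclideanSpace ℝ (Fin 2) => v 0) hw
  have e1 : w 1 - (fana_cl (1 / 10) (9 / 10) (w 1) + g (fana_pi w)) = 0 :=
    congrArg (fun v : EuclideanSpace ℝ (Fin 2) => v 1) hw
  refine ⟨fana_pi w, ?_, ?_⟩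
  · exact fana_zero (a := -(1 / 100)) (b := 1 / 100) (x := w 0) (by norm_num) (by linarith)
      (h1 (fana_pi w)) (h2 (fana_pi w))
  · exact fana_zero (a := 1 / 10) (b := 9 / 10) (x := w 1) (by norm_num) (by linarith)
      (h3 (fana_pi w)) (h4 (fana_pi w))

end Pool.Agent.Lib.MP_9cc147_pr.Cx
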