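import Pool.Agent.Lib.MP_9cc147_pr.Cx.F.S
import Pool.Agent.Lib.MP_9cc147_pr.Cx.I.Geo

/-! Canonical positions of a block, and counts of sites. -/

open scoped Classical Topology ComplexConjugate
open Finset MeasureTheory ProbabilityTheory Filter

noncomputable section
namespace Pool.Agent.Lib.MP_9cc147_pr.Cx

theorem fcanon_box {m : ℕ} {B : P} : B ∈ box m ↔ (0 ≤ B.1 ∧ B.1 < m) ∧ 0 ≤ B.2 ∧ B.2 < m := by
  simp [box]

theorem fcanon_sds {m : ℕ} {X : Finset P} (i : Fin 4) (h : ∀ B ∈ X, (B.1 = 0 → i = 0) ∧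
    (B.2 = m - 1 → i = 1) ∧ (B.2 = 0 → i = 2) ∧ (B.1 = m - 1 → i = 3)) : (sds m X).card ≤ 1 := by
  refine (card_le_card (t := {i}) fun k hk => ?_).trans (card_singleton i).le
  obtain ⟨B, hB, hk⟩ := (mem_filter.1 hk).2
  obtain ⟨h0, h1, h2, h3⟩ := h B hB
  rw [mem_singleton]
  fin_cases k
  · exact (h0 hk).symm
  · exact (h1 hk).symm
  · exact (h2 hk).symm
  · exact (h3 hk).symm

theorem fcanon_pm (g : Sy) (c B : P) (s : Lab) : pm g c s = cls (cls s B) (fm g c B) := by
  have h : Even ((fm g c 0).1 + (fm g c 0).2) ↔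
      (Even (B.1 + B.2) ↔ Even ((fm g c B).1 + (fm g c B).2)) := by
    obtain ⟨a, b, d⟩ := g
    cases a <;> cases b <;> cases d <;> simp [fm, vm, Int.even_iff] <;> omega
  simp only [pm, cls, h]
  by_cases h1 : Even (B.1 + B.2) <;> by_cases h2 : Even ((fm g c B).1 + (fm g c B).2) <;>
    simp [h1, h2]

theorem fcanon_nr (g : Sy) (c : P) {k : ℕ} {a b : P} (h : nr k a b) : nr k (fm g c a) (fm g c b) := by
  obtain ⟨x, y, d⟩ := g
  simp only [nr, abs_le] at h ⊢
  cases x <;> cases y <;> cases d <;> simp [fm, vm] <;> omega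

theorem fcanon_mv {m m0 d : ℕ} (hm : 30 ≤ m0) (hd : d ≤ 6) (g : Sy) (c B : P) (i : Fin 4)
    (h0 : fm g c B = rf d) (h1 : ∀ B', nr 5 B B' → (B' ∈ box m ↔ fm g c B' ∈ box m0))
    (h2 : ∀ B', nr 5 B B' → (B'.1 = 0 → i = 0) ∧ (B'.2 = m - 1 → i = 1) ∧ (B'.2 = 0 → i = 2) ∧
      (B'.1 = m - 1 → i = 3)) : Mv m m0 g c (near 4 (box m) {B}) := by
  have k : ∀ {x a b : P}, nr 4 x a → nr 1 a b → nr 5 x b := fun h h' => by
    simp only [nr, abs_le] at h h' ⊢
    omega
  refine ⟨fun B' ⟨a, ha, h⟩ => h1 B' (k (I.mem_near1.1 ha).2 h), fcanon_sds i fun B' hB => ?_,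
    fcanon_sds 2 fun B' hB => ?_⟩
  · obtain ⟨a, ha, h⟩ := (mem_filter.1 hB).2
    exact h2 B' (k (I.mem_near1.1 ha).2 h)
  · obtain ⟨a, ha, h⟩ := (mem_filter.1 hB).2
    obtain ⟨b, hb, rfl⟩ := mem_image.1 ha
    have := k (fcanon_nr g c (I.mem_near1.1 hb).2) h
    simp only [h0, rf, nr, abs_le] at this
    refine ⟨fun q => ?_, fun q => ?_, fun _ => rfl, fun q => ?_⟩ <;> omega

theorem t_f_canon : S_f_canon := by
  intro m m0 T T0 hm hm0 h s B hB hz
  have key : ∀ (g : Sy) (c : P) (i : Fin 4), fm g c B = rf (dep m B) →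
      (∀ B', nr 5 B B' → (B' ∈ box m ↔ fm g c B' ∈ box m0)) →
      (∀ B', nr 5 B B' → (B'.1 = 0 → i = 0) ∧ (B'.2 = m - 1 → i = 1) ∧ (B'.2 = 0 → i = 2) ∧
        (B'.1 = m - 1 → i = 3)) → T s B = Ph T0 (cls s B) (dep m B) := by
    intro g c i h0 h1 h2
    rw [← h g c s B hB (fcanon_mv hm0 (by simp only [dep, dp]; omega) g c B i h0 h1 h2), Ph,
      fcanon_pm g c B s, h0]
  obtain ⟨x, y⟩ := B
  simp only [fcanon_box, cz, dp] at hB hz
  have hc : (6 ≤ x ∧ x + 7 ≤ m ∧ 6 ≤ y ∧ y + 7 ≤ m) ∨ (6 ≤ x ∧ x + 7 ≤ m ∧ y < 6) ∨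
      (6 ≤ x ∧ x + 7 ≤ m ∧ m < y + 7) ∨ (6 ≤ y ∧ y + 7 ≤ m ∧ x < 6) ∨
      (6 ≤ y ∧ y + 7 ≤ m ∧ m < x + 7) := by omega
  rcases hc with q | q | q | q | q
  · refine key ⟨false, false, false⟩ (10 - x, 6 - y) 0 ?_ (fun B' hn => ?_) fun B' hn => ?_
    · simp [fm, vm, rf, dep, dp]
      omega
    · simp [fcanon_box, fm, vm, nr, abs_le] at hn ⊢
      omega
    · simp only [nr, abs_le] at hn
      refine ⟨fun _ => rfl, fun _ => ?_, fun _ => ?_, fun _ => ?_⟩ <;> omega
  · refine key ⟨false, false, false⟩ (10 - x, 0) 2 ?_ (fun B' hn => ?_) fun B' hn => ?_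
    · simp [fm, vm, rf, dep, dp]
      omega
    · simp [fcanon_box, fm, vm, nr, abs_le] at hn ⊢
      omega
    · simp only [nr, abs_le] at hn
      refine ⟨fun _ => ?_, fun _ => ?_, fun _ => rfl, fun _ => ?_⟩ <;> omega
  · refine key ⟨false, false, true⟩ (10 - x, m) 1 ?_ (fun B' hn => ?_) fun B' hn => ?_
    · simp [fm, vm, rf, dep, dp]
      omega
    · simp [fcanon_box, fm, vm, nr, abs_le] at hn ⊢
      omega
    · simp only [nr, abs_le] at hn
      refine ⟨fun _ => ?_, fun _ => rfl, fun _ => ?_, fun _ => ?_⟩ <;> omega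
  · refine key ⟨true, false, false⟩ (10 - y, 0) 0 ?_ (fun B' hn => ?_) fun B' hn => ?_
    · simp [fm, vm, rf, dep, dp]
      omega
    · simp [fcanon_box, fm, vm, nr, abs_le] at hn ⊢
      omega
    · simp only [nr, abs_le] at hn
      refine ⟨fun _ => rfl, fun _ => ?_, fun _ => ?_, fun _ => ?_⟩ <;> omega
  · refine key ⟨true, false, true⟩ (10 - y, m) 3 ?_ (fun B' hn => ?_) fun B' hn => ?_
    · simp [fm, vm, rf, dep, dp]
      omega
    · simp [fcanon_box, fm, vm, nr, abs_le] at hn ⊢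
      omega
    · simp only [nr, abs_le] at hn
      refine ⟨fun _ => ?_, fun _ => ?_, fun _ => ?_, fun _ => rfl⟩ <;> omega

theorem fcanon_cell (L : ℕ) (T : P) : (cell L T).card = L ^ 2 := by
  simp [cell, add_mul, pow_two]

theorem fcanon_two (n L : ℕ) (T : P) (side : Prop) : nbe n L 1 T side + nbe n L 2 T side =
    ((cell L T).filter fun x => (deep 1 n x ↔ ¬ side)).card := by
  rw [← card_filter_add_card_filter_not (s := (cell L T).filter fun x => (deep 1 n x ↔ ¬ side))
    fun x : P => Even (x.1 + x.2), filter_filter, filter_filter, nbe, nbe]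
  congr 2
  · refine filter_congr fun x _ => ?_
    by_cases h : Even (x.1 + x.2) <;> simp [typ, h]
  · refine filter_congr fun x _ => ?_
    by_cases h : Even (x.1 + x.2) <;> simp [typ, h]

theorem fcanon_cor {L m : ℕ} (hL : 1 ≤ L) (hm : 2 ≤ m) (f : P → ℝ) :
    ∑ T ∈ (box m).filter (corner m), ∑ x ∈ (cell L T).filter (corner (L * m)), f x =
      f (0, 0) + f (0, ((L * m : ℕ) : ℤ) - 1) +
        (f (((L * m : ℕ) : ℤ) - 1, 0) + f (((L * m : ℕ) : ℤ) - 1, ((L * m : ℕ) : ℤ) - 1)) := by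
  have h1 : (2 : ℤ) ≤ (L * m : ℕ) := by exact_mod_cast le_trans hm (Nat.le_mul_of_pos_left m hL)
  have h2 : (((L * m : ℕ) : ℤ) - 1) / L = m - 1 := by
    have : (((L * m : ℕ) : ℤ) - 1) = (L - 1) + (m - 1) * L := by push_cast; ring
    rw [this, Int.add_mul_ediv_right _ _ (by omega), Int.ediv_eq_zero_of_lt (by omega) (by omega),
      zero_add]
  have h3 : ∀ T : P, (cell L T).filter (corner (L * m)) =
      (({0, ((L * m : ℕ) : ℤ) - 1} : Finset ℤ) ×ˢ ({0, ((L * m : ℕ) : ℤ) - 1} : Finset ℤ)).filter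
        fun x => par L x = T := fun T => by
    ext x
    simp only [mem_filter, I.mem_cell hL, corner, mem_product, mem_insert, mem_singleton, and_comm]
  simp only [h3]
  rw [sum_fiberwise_of_maps_to, sum_product, sum_pair (by omega), sum_pair (by omega),
    sum_pair (by omega)]
  rintro ⟨x, y⟩ hx
  simp only [mem_product, mem_insert, mem_singleton] at hx
  simp only [mem_filter, fcanon_box, corner, par]
  obtain ⟨rfl | rfl, rfl | rfl⟩ := hx <;>
    simp only [h2, Int.zero_ediv, true_or, or_true, and_true] <;> omega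

theorem t_f_cnt : S_f_cnt := by
  intro q hL ho
  refine ⟨fun n s T side => ⟨?_, ?_⟩, fun d hd => ?_, fun J => ⟨?_, fun s => ?_, fun k => ?_⟩⟩
  · exact (card_filter_le _ _).trans (fcanon_cell _ _).le
  · simp [nbe, typ]
  · have h1 : (12 : ℤ) * q.L ≤ q.n (1, 1) := by
      have : 12 * q.L ≤ q.n (1, 1) := by
        simp only [Par.n, one_mul]
        rw [show q.L ^ (1 + 2) = q.L * q.L * q.L by ring]
        exact Nat.mul_le_mul_right _ (by nlinarith)
      exact_mod_cast this
    have h2 : ((cell q.L (rf d)).filter fun x => ¬ deep 1 (q.n (1, 1)) x).card =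
        if d = 0 then q.L else 0 := by
      split_ifs with c
      · subst c
        rw [show (cell q.L (rf 0)).filter (fun x => ¬ deep 1 (q.n (1, 1)) x) =
          Ico (10 * (q.L : ℤ)) (11 * q.L) ×ˢ {0} from ?_]
        · simp only [card_product, Int.card_Ico, card_singleton]
          omega
        · ext x
          simp only [mem_filter, cell, rf, mem_product, mem_Ico, deep, mem_singleton]
          omega
      · rw [card_eq_zero, filter_eq_empty_iff]
        intro x hx
        have h3 : (1 : ℤ) * q.L ≤ d * q.L := mul_le_mul_of_nonneg_right (by omega) (by omega)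
        have h4 : ((d : ℤ) + 1) * q.L ≤ 7 * q.L := mul_le_mul_of_nonneg_right (by omega) (by omega)
        simp only [cell, rf, mem_product, mem_Ico] at hx
        simp only [deep, not_not]
        omega
    rw [fcanon_two, fcanon_two, ← h2, ← fcanon_cell q.L (rf d)]
    simp only [not_true, iff_false, not_false_iff, iff_true, true_and]
    exact card_filter_add_card_filter_not _
  · have hm : 2 ≤ q.m (1, J) 0 := by
      simp only [Par.m, one_mul]
      exact le_trans (by omega) (Nat.le_self_pow (by omega) q.L)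
    have hn : q.n (1, J) = q.L * q.m (1, J) 0 := by
      simp only [Par.n, Par.m, Nat.sub_zero]
      ring
    have hp : ((q.L * q.m (1, J) 0 : ℕ) : ℤ) % 2 = 1 := by
      have : Odd (q.L * q.m (1, J) 0) := by
        rw [← hn, Par.n, one_mul]
        exact ho.pow
      have := Nat.odd_iff.1 this
      omega
    rw [Par.cr, hn]
    simp only [cor]
    rw [fcanon_cor (by omega) hm]
    generalize ((q.L * q.m (1, J) 0 : ℕ) : ℤ) = N at hp
    have e1 : Even (N - 1) := by rw [Int.even_iff]; omega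
    simp [typ, e1]
    norm_num
  · have hm : 2 ≤ q.m (2, J) 0 := by
      simp only [Par.m]
      exact Nat.le_mul_of_pos_right _ (by positivity)
    have hn : q.n (2, J) = q.L * q.m (2, J) 0 := by
      simp only [Par.n, Par.m, Nat.sub_zero]
      ring
    have hp : ((q.L * q.m (2, J) 0 : ℕ) : ℤ) % 2 = 0 := by
      have : Even (q.L * q.m (2, J) 0) := by
        rw [← hn, Par.n]
        exact even_two_mul _
      have := Nat.even_iff.1 this
      omega
    rw [Par.cr, hn]
    simp only [cor]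
    rw [fcanon_cor (by omega) hm]
    generalize ((q.L * q.m (2, J) 0 : ℕ) : ℤ) = N at hp
    have e1 : ¬ Even (N - 1) := by rw [Int.even_iff]; omega
    by_cases c : s = 0
    · simp [typ, c]
    · by_cases c' : s = 1 <;> simp [typ, e1, c, c'] <;> norm_num
  · simp [Par.cr, cor, typ]

end Pool.Agent.Lib.MP_9cc147_pr.Cx
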