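import Pool.Agent.Lib.MP_9cc147_pr.Cx.K0

/-! Chaining the one step identities along the flow. -/

open scoped Classical Topology
open Finset MeasureTheory Filter

noncomputable section
namespace Pool.Agent.Lib.MP_9cc147_pr.Cx

theorem f_dir_add {n : ℕ} {θ ξ : P → ℝ} (h : Dir n θ) (h' : Dir n ξ) : Dir n (θ + ξ) := by
  intro p
  obtain ⟨a1, a2, a3, a4⟩ := h p
  obtain ⟨b1, b2, b3, b4⟩ := h' p
  simp only [Pi.add_apply, a1, a2, a3, a4, b1, b2, b3, b4]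
  refine ⟨by ring, by ring, trivial, trivial⟩

theorem f_dir_zero (n : ℕ) : Dir n 0 := fun p => by simp

theorem f_cf_add (θ ξ : P → ℝ) : cf (θ + ξ) = cf θ + cf ξ := by
  funext p; simp [cf]

theorem f_cf_zero : cf 0 = 0 := by
  funext p; simp [cf]

theorem f_n_pos (q : Par) (hL : 1 ≤ q.L) {b : ℕ × ℕ} {j : ℕ} (hb : Par.ok b j) : 1 ≤ q.n b := by
  have : 1 ≤ q.L ^ (b.2 + 2) := Nat.one_le_pow _ _ hL
  unfold Par.n
  rcases hb.1 with h | h <;> rw [h] <;> omega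

theorem f_Ex_mul (L n : ℕ) (c : ℂ) (F : Fld → ℂ) (j : ℕ) (Θ : Fld) :
    Ex L n (fun Ξ => c * F Ξ) j Θ = c * Ex L n F j Θ := by
  induction j generalizing Θ with
  | zero => rfl
  | succ j ih => simp only [Ex, ih, integral_const_mul]

theorem f_Tot_mul (L n J : ℕ) (c : ℂ) (F : Fld → ℂ) (Θ : Fld) :
    Tot L n J (fun Ξ => c * F Ξ) Θ = c * Tot L n J F Θ := by
  simp only [Tot, f_Ex_mul, integral_const_mul]

/-- the energy extracted in the first `j` steps -/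
def Par.ext (q : Par) (x0 : State) (b : ℕ × ℕ) (z : ℂ) (j : ℕ) : ℂ :=
  ∑ i ∈ range j, ∑ B ∈ box (q.m b i), q.et i (q.flow x0 i) b z 0 B

/-- the chain up to a scale `k` -/
theorem f_chain_to (h_zel : S_zel) (h_sid : S_sid) : ∀ᶠ q in FP,
    ∀ (t0 : ℝ) (x0 : State) (α ν ρ : ℕ → ℝ) (b : ℕ × ℕ) (z : ℂ) (F : Fld → ℂ) (c : ℂ) (k : ℕ),
    Par.ok b k → ‖z‖ ≤ t0 → (∀ j < k, q.Good t0 j (q.flow x0 j) (α j) (ν j) (ρ j)) →
    (∀ j < k, ∀ s, ∀ B ∈ box (q.m b (j + 1)),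
      q.d' j (q.flow x0 j) b z s B = q.D' j (q.flow x0 j) b z s B) →
    (∀ θ, Dir (q.n b) θ →
      F (bg (q.n b) z + cf θ) = c * q.WW 0 x0 b z (bg (q.n b) z + cf θ)) →
    ∀ j ≤ k, ∀ θ, Dir (q.n b) θ → Ex q.L (q.n b) F j (bg (q.n b) z + cf θ) =
      c * Complex.exp (-q.ext x0 b z j) * q.WW j (q.flow x0 j) b z (bg (q.n b) z + cf θ) := by
  filter_upwards [h_sid, fp_L 100] with q hs hL t0 x0 α ν ρ b z F c k hb hz hg hu h0
  have hn := f_n_pos q (by omega) hb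
  intro j
  induction j with
  | zero => intro _ θ hθ; simp [Ex, Par.ext, Par.flow, h0 θ hθ]
  | succ j ih =>
    intro hj θ hθ
    have hd := (h_zel.2 q.L (q.n b) j hL.2 hn).1
    have e1 : ∀ ω, Ex q.L (q.n b) F j (bg (q.n b) z + cf θ + cf (zeta q.L (q.n b) j ω)) =
        c * Complex.exp (-q.ext x0 b z j) *
          q.WW j (q.flow x0 j) b z (bg (q.n b) z + cf θ + cf (zeta q.L (q.n b) j ω)) := by
      intro ω
      have := ih (by omega) _ (f_dir_add hθ (hd ω).1)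
      rwa [f_cf_add, ← add_assoc] at this
    have e2 := hs t0 j _ _ _ _ (hg j (by omega)) b z θ ⟨hb.1, hj.trans hb.2.1, hb.2.2⟩ hz hθ
      (hu j (by omega))
    simp only [Ex, e1, integral_const_mul]
    have e3 : q.ext x0 b z (j + 1) =
        q.ext x0 b z j + ∑ B ∈ box (q.m b j), q.et j (q.flow x0 j) b z 0 B := by
      simp only [Par.ext, sum_range_succ]
    rw [e3, neg_add, Complex.exp_add]
    unfold Par.Ez at e2
    rw [e2]
    simp only [Par.flow]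
    ring

theorem f_chain (h_zel : S_zel) (h_sid : S_sid) : ∀ᶠ q in FP,
    ∀ (t0 : ℝ) (x0 : State) (α ν ρ : ℕ → ℝ) (b : ℕ × ℕ) (z : ℂ) (F : Fld → ℂ) (c : ℂ),
    Par.ok b b.2 → ‖z‖ ≤ t0 → (∀ j < b.2, q.Good t0 j (q.flow x0 j) (α j) (ν j) (ρ j)) →
    (∀ j < b.2, ∀ s, ∀ B ∈ box (q.m b (j + 1)),
      q.d' j (q.flow x0 j) b z s B = q.D' j (q.flow x0 j) b z s B) →
    (∀ θ, Dir (q.n b) θ →
      F (bg (q.n b) z + cf θ) = c * q.WW 0 x0 b z (bg (q.n b) z + cf θ)) →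
    (∀ j ≤ b.2, ∀ θ, Dir (q.n b) θ → Ex q.L (q.n b) F j (bg (q.n b) z + cf θ) =
      c * Complex.exp (-q.ext x0 b z j) * q.WW j (q.flow x0 j) b z (bg (q.n b) z + cf θ)) ∧
    Tot q.L (q.n b) b.2 F (bg (q.n b) z) =
      c * Complex.exp (-q.ext x0 b z b.2) * q.finW (q.flow x0 b.2) b z := by
  filter_upwards [f_chain_to h_zel h_sid, fp_L 100] with q hs hL t0 x0 α ν ρ b z F c hb hz hg hu h0
  have hn := f_n_pos q (by omega) hb
  have key := hs t0 x0 α ν ρ b z F c b.2 hb hz hg hu h0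
  refine ⟨key, ?_⟩
  have hd := (h_zel.2 q.L (q.n b) (lev q.L b.2) hL.2 hn).1
  simp only [Tot, Par.finW, key b.2 le_rfl _ (hd _).2.2, integral_const_mul]

end Pool.Agent.Lib.MP_9cc147_pr.Cx
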