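import Pool.Agent.Lib.MP_9cc147_pr.Cx.F.Chain

/-! Monotonicity and triangle rules for the bounds, and the arithmetic of boxes and cells. -/

open scoped Classical Topology
open Finset MeasureTheory Filter

noncomputable section
namespace Pool.Agent.Lib.MP_9cc147_pr.Cx

section bd
variable {n l : ℕ} {κ h h' : ℝ} {z : ℂ} {X : Finset P} {F G : Fld → ℂ} {a a' : ℝ}

theorem Bd.mono (H : Bd n l κ h h' z X F a) (ha : a ≤ a') : Bd n l κ h h' z X F a' :=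
  fun θ hθ v hv => (H θ hθ v hv).trans (mul_le_mul_of_nonneg_right ha (Real.exp_pos _).le)

theorem Bd.add (H : Bd n l κ h h' z X F a) (H' : Bd n l κ h h' z X G a') :
    Bd n l κ h h' z X (fun Θ => F Θ + G Θ) (a + a') := fun θ hθ v hv => by
  rw [add_mul]; exact (norm_add_le _ _).trans (add_le_add (H θ hθ v hv) (H' θ hθ v hv))

theorem Bd.neg (H : Bd n l κ h h' z X F a) : Bd n l κ h h' z X (fun Θ => -F Θ) a :=
  fun θ hθ v hv => by simpa only [norm_neg] using H θ hθ v hv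

theorem Bd.congr (H : Bd n l κ h h' z X F a) (e : ∀ Θ, G Θ = F Θ) : Bd n l κ h h' z X G a :=
  fun θ hθ v hv => by rw [e]; exact H θ hθ v hv

theorem Bd.zero (ha : 0 ≤ a) : Bd n l κ h h' z X (fun _ => 0) a :=
  fun θ _ v _ => by rw [norm_zero]; positivity
end bd

namespace Par
variable {q : Par} {b : ℕ × ℕ} {j : ℕ} {z : ℂ} {X : Finset P} {F G : Fld → ℂ} {a a' : ℝ}

theorem BdJ.mono (H : q.BdJ b j z X F a) (hA : 0 ≤ q.A) (ha : a ≤ a') : q.BdJ b j z X F a' :=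
  Bd.mono H (mul_le_mul_of_nonneg_right ha (by positivity))

theorem BdJ.add (H : q.BdJ b j z X F a) (H' : q.BdJ b j z X G a') :
    q.BdJ b j z X (fun Θ => F Θ + G Θ) (a + a') := by
  unfold BdJ; rw [add_mul]; exact Bd.add H H'

theorem BdJ.neg (H : q.BdJ b j z X F a) : q.BdJ b j z X (fun Θ => -F Θ) a := Bd.neg H

theorem BdJ.congr (H : q.BdJ b j z X F a) (e : ∀ Θ, G Θ = F Θ) : q.BdJ b j z X G a :=
  Bd.congr H e

theorem BdJ.sub (H : q.BdJ b j z X F a) (H' : q.BdJ b j z X G a') :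
    q.BdJ b j z X (fun Θ => F Θ - G Θ) (a + a') :=
  (H.add H'.neg).congr fun _ => sub_eq_add_neg _ _

theorem BdJ.zero (hA : 0 ≤ q.A) (ha : 0 ≤ a) : q.BdJ b j z X (fun _ => 0) a :=
  Bd.zero (by positivity)

variable {t0 δ δ' : ℝ} {x y w : State} {s : Lab} {V V' : Finset P}

theorem Dif.mono (H : q.Dif t0 j x y s b V δ) (hA : 0 ≤ q.A) (hV : V' ⊆ V) (hd : δ ≤ δ') :
    q.Dif t0 j x y s b V' δ' :=
  fun z X hz hX hs => (H z X hz hX (hs.trans hV)).mono hA hd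

theorem Dif.sub (H : q.Dif t0 j x y s b V δ) (hV : V' ⊆ V) : q.Dif t0 j x y s b V' δ :=
  fun z X hz hX hs => H z X hz hX (hs.trans hV)

theorem Dif.symm (H : q.Dif t0 j x y s b V δ) : q.Dif t0 j y x s b V δ :=
  fun z X hz hX hs => (H z X hz hX hs).neg.congr fun _ => (neg_sub _ _).symm

theorem Dif.trans (H : q.Dif t0 j x y s b V δ) (H' : q.Dif t0 j y w s b V δ') :
    q.Dif t0 j x w s b V (δ + δ') :=
  fun z X hz hX hs => ((H z X hz hX hs).add (H' z X hz hX hs)).congr fun _ => by ring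

theorem Dif.refl (hA : 0 ≤ q.A) (hd : 0 ≤ δ) : q.Dif t0 j x x s b V δ :=
  fun _ _ _ _ _ => (BdJ.zero hA hd).congr fun _ => sub_self _

/-- two states with small neutral activities are close -/
theorem Dif.of_bnd {α ν ρ α' ν' ρ' : ℝ} (H : q.Bnd t0 j x α ν ρ) (H' : q.Bnd t0 j y α' ν' ρ')
    (hb : ok b j) : q.Dif t0 j x y s b V (α + α') :=
  fun z X hz hX _ => (H.K b z s X hb hz hX).sub (H'.K b z s X hb hz hX)

theorem Dif.zero_of_bnd {α ν ρ : ℝ} (H : q.Bnd t0 j x α ν ρ) (hb : ok b j) :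
    q.Dif t0 j x zero s b V α :=
  fun z X hz hX _ => (H.K b z s X hb hz hX).congr fun _ => by simp [zero]

theorem Dif.bd_of_zero (H : q.Dif t0 j x zero s b V δ) (hz : ‖z‖ ≤ t0) (hX : Pm (q.m b j) X)
    (hs : X ⊆ V) : q.BdJ b j z X ((x.a b z).K s X) δ :=
  (H z X hz hX hs).congr fun _ => by simp [zero]

theorem Bnd.mono {α ν ρ α' ν' ρ' : ℝ} (H : q.Bnd t0 j x α ν ρ) (hA : 0 ≤ q.A) (h1 : α ≤ α')
    (h0 : 0 ≤ ν) (h2 : ν ≤ ν') (hρ : 0 ≤ ρ) (h3 : ρ ≤ ρ') : q.Bnd t0 j x α' ν' ρ' where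
  lam s := (H.lam s).trans h1
  K b z s X hb hz hX := (H.K b z s X hb hz hX).mono hA h1
  N b z X σ hb hz hX := (H.N b z X σ hb hz hX).mono hA
    (mul_le_mul h2 (pow_le_pow_left₀ hρ h3 _) (by positivity) (h0.trans h2))
  d b z s B hb hz hB := by
    have := H.d b z s B hb hz hB
    split_ifs at this ⊢
    · exact this.trans h3
    · exact this

theorem Good.mono {α ν ρ α' ν' ρ' : ℝ} (H : q.Good t0 j x α ν ρ) (hA : 0 ≤ q.A) (h1 : α ≤ α')
    (h2 : ν ≤ ν') (h3 : ρ ≤ ρ') (h4 : α' ≤ q.ε) (h5 : ν' * ρ' ^ 8 ≤ q.ε) :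
    q.Good t0 j x α' ν' ρ' where
  t := H.t
  str := H.str
  bnd := H.bnd.mono hA h1 H.n.1 h2 (by linarith [H.n.2.1]) h3
  a := ⟨H.a.1.trans h1, h4⟩
  n := ⟨H.n.1.trans h2, H.n.2.1.trans h3, h5⟩

theorem Good.monoA {α α' ν ρ : ℝ} (H : q.Good t0 j x α ν ρ) (hA : 0 ≤ q.A) (h1 : α ≤ α')
    (h4 : α' ≤ q.ε) : q.Good t0 j x α' ν ρ := H.mono hA h1 le_rfl le_rfl h4 H.n.2.2

theorem ok.pred (h : ok b (j + 1)) : ok b j := ⟨h.1, by have := h.2.1; omega, h.2.2⟩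

theorem ok.le {i : ℕ} (h : ok b j) (hi : i ≤ j) : ok b i := ⟨h.1, hi.trans h.2.1, h.2.2⟩

theorem ok.top (h : ok b j) : ok b b.2 := ⟨h.1, le_rfl, h.2.2⟩

theorem ok_ref (j : ℕ) : ok (1, j + 1) (j + 1) := ⟨Or.inl rfl, le_rfl, by simp⟩

theorem m_succ (q : Par) (hj : j ≤ b.2) : q.m b j = q.L * q.m b (j + 1) := by
  unfold m
  rw [show b.2 + 1 - j = (b.2 + 1 - (j + 1)) + 1 by omega, pow_succ]; ring

theorem m_add (q : Par) {i : ℕ} (hj : i + j ≤ b.2 + 1) : q.m b i = q.L ^ j * q.m b (i + j) := by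
  unfold m
  rw [show b.2 + 1 - i = (b.2 + 1 - (i + j)) + j by omega, pow_add]; ring

theorem n_eq (q : Par) (hj : j ≤ b.2 + 1) : q.n b = q.l j * q.m b j := by
  unfold n l m
  rw [show b.2 + 2 = (j + 1) + (b.2 + 1 - j) by omega, pow_add]; ring

theorem m_top (q : Par) : q.m b b.2 = b.1 * q.L := by
  unfold m; rw [show b.2 + 1 - b.2 = 1 by omega, pow_one]

theorem m_ref (q : Par) (j : ℕ) : q.m (1, j + 1) j = q.L ^ 2 := by
  unfold m; rw [show (1, j + 1).2 + 1 - j = 2 by simp only; omega]; simp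

theorem L_le_m (q : Par) (hL : 1 ≤ q.L) (h : ok b j) : q.L ≤ q.m b j := by
  have h1 : q.L ^ 1 ≤ q.L ^ (b.2 + 1 - j) := Nat.pow_le_pow_right hL (by have := h.2.1; omega)
  rw [pow_one] at h1
  unfold m
  rcases h.1 with e | e <;> rw [e] <;> omega

theorem sq_le_m (q : Par) (hL : 1 ≤ q.L) (h : ok b (j + 1)) : q.L ^ 2 ≤ q.m b j := by
  rw [q.m_succ h.pred.2.1, sq]; exact Nat.mul_le_mul_left _ (q.L_le_m hL h)
end Par

theorem f_mem_box {m : ℕ} {B : P} : B ∈ box m ↔ (0 ≤ B.1 ∧ B.1 < m) ∧ 0 ≤ B.2 ∧ B.2 < m := by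
  simp [box]

theorem f_mem_cell' {L : ℕ} {B x : P} : x ∈ cell L B ↔
    (B.1 * L ≤ x.1 ∧ x.1 < (B.1 + 1) * L) ∧ B.2 * L ≤ x.2 ∧ x.2 < (B.2 + 1) * L := by
  simp [cell]

theorem f_div_iff {L : ℕ} (hL : 1 ≤ L) (a x : ℤ) :
    x / L = a ↔ a * L ≤ x ∧ x < (a + 1) * L := by
  have h : (0 : ℤ) < L := by exact_mod_cast hL
  rw [← Int.le_ediv_iff_mul_le h, ← Int.ediv_lt_iff_lt_mul h]; omega

theorem f_mem_cell {L : ℕ} (hL : 1 ≤ L) {B x : P} : x ∈ cell L B ↔ par L x = B := by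
  rw [f_mem_cell', ← f_div_iff hL, ← f_div_iff hL, par, Prod.ext_iff]

theorem f_par_par (L M : ℕ) (x : P) : par L (par M x) = par (L * M) x := by
  simp only [par, Nat.cast_mul, Prod.mk.injEq]
  constructor <;> rw [Int.ediv_ediv_of_nonneg (by positivity), mul_comm]

theorem f_par_box {L m : ℕ} (hL : 1 ≤ L) {x : P} : par L x ∈ box m ↔ x ∈ box (L * m) := by
  have h : (0 : ℤ) < L := by exact_mod_cast hL
  simp only [f_mem_box, par, Int.le_ediv_iff_mul_le h, Int.ediv_lt_iff_lt_mul h, zero_mul,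
    Nat.cast_mul, mul_comm (L : ℤ)]

theorem f_mem_under {L : ℕ} (hL : 1 ≤ L) {U : Finset P} {x : P} :
    x ∈ under L U ↔ par L x ∈ U := by
  simp only [under, mem_biUnion, f_mem_cell hL]
  exact ⟨fun ⟨_, h, e⟩ => e ▸ h, fun h => ⟨_, h, rfl⟩⟩

theorem f_under_box {L : ℕ} (hL : 1 ≤ L) (m : ℕ) : under L (box m) = box (L * m) := by
  ext x; rw [f_mem_under hL, f_par_box hL]

theorem f_under_cell {L M : ℕ} (hL : 1 ≤ L) (hM : 1 ≤ M) (B : P) :
    under M (cell L B) = cell (L * M) B := by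
  ext x
  rw [f_mem_under hM, f_mem_cell hL, f_par_par, f_mem_cell (Nat.mul_pos hL hM)]

theorem f_under_under {L M : ℕ} (hL : 1 ≤ L) (hM : 1 ≤ M) (U : Finset P) :
    under M (under L U) = under (L * M) U := by
  ext x
  rw [f_mem_under hM, f_mem_under hL, f_par_par, f_mem_under (Nat.mul_pos hL hM)]

theorem f_cell_sub {L m : ℕ} (hL : 1 ≤ L) {B : P} (hB : B ∈ box m) : cell L B ⊆ box (L * m) :=
  fun x hx => by rw [← f_par_box hL, (f_mem_cell hL).1 hx]; exact hB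

theorem f_cell_one (B : P) : cell 1 B = {B} := by
  ext x; rw [f_mem_cell le_rfl, mem_singleton]; simp [par]

theorem f_card_cell (L : ℕ) (B : P) : (cell L B).card = L ^ 2 := by
  have h : ∀ a : ℤ, ((a + 1) * L - a * L).toNat = L := fun a => by
    rw [show (a + 1) * L - a * L = (L : ℤ) by ring]; simp
  simp [cell, h, sq]

theorem f_card_box (m : ℕ) : (box m).card = m ^ 2 := by simp [box, sq]

theorem f_sum_under {M : Type} [AddCommMonoid M] {L : ℕ} (hL : 1 ≤ L) (U : Finset P) (f : P → M) :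
    ∑ x ∈ under L U, f x = ∑ B ∈ U, ∑ x ∈ cell L B, f x := by
  refine sum_biUnion fun a _ c _ hac => ?_
  refine disjoint_left.2 fun x h1 h2 => hac ?_
  rw [← (f_mem_cell hL).1 h1, ← (f_mem_cell hL).1 h2]

theorem f_prod_under {M : Type} [CommMonoid M] {L : ℕ} (hL : 1 ≤ L) (U : Finset P) (f : P → M) :
    ∏ x ∈ under L U, f x = ∏ B ∈ U, ∏ x ∈ cell L B, f x := by
  refine prod_biUnion fun a _ c _ hac => ?_
  refine disjoint_left.2 fun x h1 h2 => hac ?_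
  rw [← (f_mem_cell hL).1 h1, ← (f_mem_cell hL).1 h2]

theorem f_sum_box {M : Type} [AddCommMonoid M] {L : ℕ} (hL : 1 ≤ L) (m : ℕ) (f : P → M) :
    ∑ x ∈ box (L * m), f x = ∑ B ∈ box m, ∑ x ∈ cell L B, f x := by
  rw [← f_under_box hL, f_sum_under hL]

theorem f_sum_cell {M : Type} [AddCommMonoid M] {L N : ℕ} (hL : 1 ≤ L) (hN : 1 ≤ N) (B : P)
    (f : P → M) : ∑ x ∈ cell (L * N) B, f x = ∑ B' ∈ cell L B, ∑ x ∈ cell N B', f x := by
  rw [← f_under_cell hL hN, f_sum_under hN]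

theorem f_near_sub (k : ℕ) (R X : Finset P) : near k R X ⊆ R := filter_subset _ _

end Pool.Agent.Lib.MP_9cc147_pr.Cx
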