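import Pool.Agent.Lib.MP_9cc147_pr.Cx.F.S
import Pool.Agent.Lib.MP_9cc147_pr.Cx.F.Kit

/-! The partition function along an unclamped flow. -/

open scoped Classical Topology
open Finset MeasureTheory Filter

noncomputable section
namespace Pool.Agent.Lib.MP_9cc147_pr.Cx

theorem f_chainB (q : Par) (h_zel : S_zel) (hs : B_sid q) (hL : 100 ≤ q.L)
    (t0 : ℝ) (x0 : State) (α ν ρ : ℕ → ℝ) (b : ℕ × ℕ) (z : ℂ) (F : Fld → ℂ) (c : ℂ)
    (hb : Par.ok b b.2) (hz : ‖z‖ ≤ t0)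
    (hg : ∀ j < b.2, q.Good t0 j (q.flow x0 j) (α j) (ν j) (ρ j))
    (hu : ∀ j < b.2, ∀ s, ∀ B ∈ box (q.m b (j + 1)),
      q.d' j (q.flow x0 j) b z s B = q.D' j (q.flow x0 j) b z s B)
    (h0 : ∀ θ, Dir (q.n b) θ →
      F (bg (q.n b) z + cf θ) = c * q.WW 0 x0 b z (bg (q.n b) z + cf θ)) :
    Tot q.L (q.n b) b.2 F (bg (q.n b) z) =
      c * Complex.exp (-q.ext x0 b z b.2) * q.finW (q.flow x0 b.2) b z := by
  have hn := f_n_pos q (by omega) hb
  have key : ∀ j ≤ b.2, ∀ θ, Dir (q.n b) θ → Ex q.L (q.n b) F j (bg (q.n b) z + cf θ) =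
      c * Complex.exp (-q.ext x0 b z j) * q.WW j (q.flow x0 j) b z (bg (q.n b) z + cf θ) := by
    intro j
    induction j with
    | zero => intro _ θ hθ; simp [Ex, Par.ext, Par.flow, h0 θ hθ]
    | succ j ih =>
      intro hj θ hθ
      have hd := (h_zel.2 q.L (q.n b) j hL hn).1
      have e1 : ∀ ω, Ex q.L (q.n b) F j (bg (q.n b) z + cf θ + cf (zeta q.L (q.n b) j ω)) =
          c * Complex.exp (-q.ext x0 b z j) *
            q.WW j (q.flow x0 j) b z (bg (q.n b) z + cf θ + cf (zeta q.L (q.n b) j ω)) := by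
        intro ω
        have := ih (by omega) _ (f_dir_add hθ (hd ω).1)
        rwa [f_cf_add, ← add_assoc] at this
      have e2 := hs t0 j _ _ _ _ (hg j (by omega)) b z θ ⟨hb.1, hj, hb.2.2⟩ hz hθ
        (hu j (by omega))
      simp only [Ex, e1, integral_const_mul]
      have e3 : q.ext x0 b z (j + 1) =
          q.ext x0 b z j + ∑ B ∈ box (q.m b j), q.et j (q.flow x0 j) b z 0 B := by
        simp only [Par.ext, sum_range_succ]
      rw [e3, neg_add, Complex.exp_add]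
      unfold Par.Ez at e2
      rw [e2]
      simp only [Par.flow]
      ring
  have hd := (h_zel.2 q.L (q.n b) (lev q.L b.2) hL hn).1
  simp only [Tot, Par.finW, key b.2 le_rfl _ (hd _).2.2, integral_const_mul]

/-- the total energy difference at scale `k` -/
theorem f_dsum (q : Par) (m : Measure ℝ) (p : Par.Pre) (hL : 1 ≤ q.L) (hi : q.Idle m p)
    (b : ℕ × ℕ) (z : ℂ) (s : Lab) (k : ℕ) (hb : Par.ok b k) :
    ∑ B ∈ box (q.m b k), ((q.xs m p k).a b z).d s B =
      ∑ B ∈ box (q.m b 0), (q.e0 (mu0 m) p b s B - q.e0 (mu0 m) p b 0 B) +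
        ∑ j ∈ range k, ∑ B ∈ box (q.m b j),
          (q.et j (q.xs m p j) b z s B - q.et j (q.xs m p j) b z 0 B) := by
  induction k with
  | zero =>
    rw [sum_range_zero, add_zero]
    exact sum_congr rfl fun B hB => hi.1 b hb s B hB
  | succ k ih =>
    have e1 : ∑ B ∈ box (q.m b (k + 1)), ((q.xs m p (k + 1)).a b z).d s B =
        ∑ B ∈ box (q.m b (k + 1)), q.D' k (q.xs m p k) b z s B :=
      sum_congr rfl fun B hB => hi.2 k b z hb s B hB
    rw [e1, sum_range_succ, ← add_assoc, ← ih hb.pred, ← sum_add_distrib]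
    simp only [Par.D']
    rw [← f_sum_box hL, ← q.m_succ hb.pred.2.1]
    exact sum_congr rfl fun B _ => by ring

theorem t_f_chain : S_f_chain := by
  intro q t0 η ν ρ m p y mu H hi b z hb hz
  have hL := H.rg.L
  refine ⟨fun F c hF => ?_, fun s => f_dsum q m p (by omega) hi b z s b.2 hb⟩
  have := H.sc.prob
  have hC : (1 : ℝ) ≤ q.C := le_trans (one_le_pow₀ (by exact_mod_cast (by omega : 1 ≤ q.L))) H.rg.C
  obtain ⟨e1, e2⟩ := H.sc.hη
  have e3 : q.C * η ≤ q.C ^ 5 * η :=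
    mul_le_mul_of_nonneg_right (le_self_pow₀ hC (by norm_num)) e1.le
  have e4 : 0 < q.C * η := by positivity
  have e5 : η ≤ q.C * η := le_mul_of_one_le_left e1.le hC
  have e6 := H.rg.ε.2
  have hI := (H.rg.init t0 m p _ _ ν ρ y H.sc.t.1 H.sc.t.2 H.sc.neg H.sc.S H.sc.B (by positivity)
    (by nlinarith) (by linarith) H.sc.hν.1 H.sc.hν.2.1 H.sc.hν.2.2).2.2.2.2 b z
  have h1 := f_chainB q H.rg.zel H.rg.sid hL t0 (q.init (mu0 m) p) _ _ _ b z F
    (c * Complex.exp (-∑ B ∈ box (q.m b 0), q.e0 (mu0 m) p b 0 B)) hb hz (fun j _ => H.gd j)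
    (fun j hj => hi.2 j b z (hb.le hj)) fun θ hθ => by
      rw [hF θ hθ, hI θ (hb.le (Nat.zero_le _)) hz hθ (hi.1 b (hb.le (Nat.zero_le _))), mul_assoc]
  rw [h1, Par.ZZ, sub_eq_add_neg, Complex.exp_add]
  simp only [Par.ext, Par.xs]
  ring

end Pool.Agent.Lib.MP_9cc147_pr.Cx
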