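import Pool.Agent.Lib.MP_9cc147_pr.Cx.B.Geo
import Pool.Agent.Lib.MP_9cc147_pr.Cx.K0

/-! Algebra of the Gaussian flows: all phases are equal. -/

open scoped Classical
open Finset MeasureTheory ProbabilityTheory

namespace Pool.Agent.Lib.MP_9cc147_pr.Cx

theorem fg_comps {Y : Finset P} (h : Y.Nonempty) (f : Finset P → ℂ) (hf : ∀ X, f X = 0) :
    ∏ X ∈ comps Y, f X = 0 := by
  obtain ⟨a, ha⟩ := h
  exact prod_eq_zero (mem_image_of_mem _ ha) (hf _)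

theorem fg_L1 (L s0 : ℕ) (D U : Finset P) (T M : Lab → P → ℂ) (K : Lab → Finset P → ℂ)
    {N : Finset P → (P → Option Lab) → ℂ} (hN : ∀ X σ, N X σ = 0) (σ : P → Option Lab) :
    L1 L s0 D U T M K N σ = 0 :=
  sum_eq_zero fun c hc => by
    rw [lw, fg_comps (mem_filter.1 hc).2.1 _ fun X => hN _ _, mul_zero]

theorem fg_L0 (L s0 : ℕ) (D : Finset P) {U : Finset P} (hU : U.Nonempty) (T : Lab → P → ℂ)
    {M : Lab → P → ℂ} {K : Lab → Finset P → ℂ} (hM : ∀ s B, M s B = 0) (hK : ∀ s X, K s X = 0)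
    (s : Lab) : L0 L s0 D U T M K s = 0 := by
  refine sum_eq_zero fun c hc => ?_
  have h := (mem_filter.1 (mem_filter.1 hc).1).2.2
  rw [← h, img, image_nonempty] at hU
  obtain ⟨B, hB⟩ := hU
  have hp : ∀ t, (pol (reg L D U) (red c) t).Nonempty → lw L s0 D U T M K (fun _ _ => 0) c = 0 :=
    fun t ht => mul_eq_zero_of_left (mul_eq_zero_of_right _ (prod_eq_zero (mem_univ t)
      (fg_comps ht _ fun X => by rw [hK, mul_zero]))) _
  simp only [mem_union] at hB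
  rcases hB with ((hB | hB) | hB) | hB
  · obtain ⟨h1, t, ht⟩ := mem_filter.1 hB
    exact mul_eq_zero_of_left (mul_eq_zero_of_left (mul_eq_zero_of_right _ (prod_eq_zero
      (mem_univ t) (prod_eq_zero (mem_filter.2 ⟨h1, ht⟩) (hM t B)))) _) _
  · obtain ⟨h1, t, ht⟩ := mem_filter.1 hB
    exact hp t ⟨B, mem_filter.2 ⟨h1, by simp [red, ht]⟩⟩
  · rw [lw, fg_comps ⟨B, hB⟩ _ fun X => rfl, mul_zero]
  · obtain ⟨t, -, ht⟩ := mem_biUnion.1 hB
    obtain ⟨X, hX, -⟩ := mem_biUnion.1 ht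
    obtain ⟨a, ha, -⟩ := mem_image.1 (mem_filter.1 hX).1
    exact hp t ⟨a, ha⟩

theorem fg_img {L : ℕ} (hL : 0 < L) (s0 : ℕ) (D U : Finset P) (c : P → Sf) :
    img L s0 (reg L D U) c ⊆ D := by
  intro B hB
  obtain ⟨a, ha, rfl⟩ := mem_image.1 hB
  have : a ∈ reg L D U := by
    simp only [mem_union] at ha
    rcases ha with ((ha | ha) | ha) | ha
    · exact (mem_filter.1 ha).1
    · exact (mem_filter.1 ha).1
    · exact (mem_filter.1 ha).1
    · obtain ⟨t, -, ht⟩ := mem_biUnion.1 ha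
      obtain ⟨X, hX, h⟩ := mem_biUnion.1 ht
      obtain ⟨a', -, rfl⟩ := mem_image.1 (mem_filter.1 hX).1
      exact (mem_filter.1 (mem_filter.1 h).1).1
  exact (mem_filter.1 ((bp_under hL _ _).1 this)).1

theorem fg_sym (h_tra : S_tra) {L s0 : ℕ} (hL : 2 * s0 + 1 ≤ L) (D U : Finset P)
    {T M : Lab → P → ℂ} {K : Lab → Finset P → ℂ} (hT : ∀ s, T s = T 0) (hM : ∀ s, M s = M 0)
    (hK : ∀ s, K s = K 0) (s : Lab) : L0 L s0 D U T M K s = L0 L s0 D U T M K 0 := by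
  by_cases hU : U ⊆ D
  · have := (h_tra L s0 D D U (Equiv.refl _) (Equiv.refl _) (Equiv.swap 0 s) (RingHom.id ℂ)
      T M T M K K 0 0 hL hU (fun _ _ => Iff.rfl) (fun _ _ => Iff.rfl) (fun _ => rfl) (by simp)
      (fun t B _ => by rw [hT, hM, hT t, hM t]; exact ⟨rfl, rfl⟩)
      (fun t X _ _ => by rw [hK, hK t]; simp) (fun _ _ _ _ _ _ => by simp)).1 0
    simpa using this
  · have e : ∀ t, L0 L s0 D U T M K t = 0 := fun t => sum_eq_zero fun c hc =>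
      absurd ((mem_filter.1 (mem_filter.1 hc).1).2.2 ▸ fg_img (by omega) s0 D U c) hU
    rw [e, e]

/-- an input in which all phases are equal -/
theorem fg_rb (h_tra : S_tra) (μ : Measure Om) {L s0 : ℕ} (hL : 2 * s0 + 1 ≤ L) (D : Finset P)
    {a : Inp} (hT : ∀ s, a.It s = a.It 0) (he : ∀ s, a.et s = a.et 0)
    (hM : ∀ ω s, a.M ω s = a.M ω 0) (hK : ∀ ω s, a.K ω s = a.K ω 0)
    (hN : ∀ ω X σ, a.N ω X σ = 0) (U : Finset P) :
    (∀ s, rbK μ L s0 D a s U = rb0 μ L s0 D a 0 U) ∧ ∀ σ, rbN μ L s0 D a U σ = 0 := by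
  have h1 : ∀ σ, rb1 μ L s0 D a U σ = 0 := fun σ => by
    simp only [rb1, fg_L1 _ _ _ _ _ _ _ (hN _), integral_zero, mul_zero]
  refine ⟨fun s => ?_, fun σ => by simp [rbN, h1]⟩
  simp only [rbK, h1, mul_zero, ite_self, add_zero, rb0, he s,
    fun ω => fg_sym h_tra hL D U hT (hM ω) (hK ω) s]

/-- all phases are equal -/
structure Par.Eqp (x : State) : Prop where
  lam : ∀ s, x.lam s = x.lam 0
  K : ∀ b z s, (x.a b z).K s = (x.a b z).K 0
  N : ∀ b z X σ Θ, (x.a b z).N X σ Θ = 0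
  d : ∀ b z s B, (x.a b z).d s B = 0

theorem fg_clamp {q : Par} (hε : 0 ≤ q.ε) : q.clamp 0 = 0 := by
  rw [Par.clamp, min_eq_right hε, max_eq_right (by linarith)]

theorem fg_step (h_tra : S_tra) {q : Par} (hL : 9 ≤ q.L) (hε : 0 ≤ q.ε) (j : ℕ) {x : State}
    (h : Par.Eqp x) : Par.Eqp (q.step j x) ∧ (∀ b z s B, q.D' j x b z s B = 0) ∧
      ∀ b z s U Θ, ((q.step j x).a b z).K s U Θ = q.K0 j x b z 0 U Θ := by
  have hl : ∀ s, q.lam' j x s = q.lam' j x 0 := fun s => by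
    simp only [Par.lam', h.lam s, h.K _ _ s]
  have he : ∀ b z s, q.e j x b z s = q.e j x b z 0 := fun b z s => by
    funext B; simp only [Par.e, h.lam s, h.K _ _ s]
  have het : ∀ b z s, q.et j x b z s = q.et j x b z 0 := fun b z s => by
    funext B; simp only [Par.et, he b z s, hl s]
  have hI : ∀ b z Θ s, q.It j x b z Θ s = q.It j x b z Θ 0 := fun b z Θ s => by
    funext B; simp only [Par.It, he b z s, hl s]
  have hD : ∀ b z s B, q.D' j x b z s B = 0 := fun b z s B => by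
    simp [Par.D', het b z s, h.d]
  have hr := fun b z Θ U => fg_rb h_tra PP (L := q.L) (s0 := 4) hL (box (q.m b (j + 1)))
    (a := q.inp j x b z Θ) (hI b z Θ) (het b z)
    (fun ω s => by funext B; simp only [Par.inp, hI b z Θ s, h.lam s])
    (fun ω s => by funext B; simp only [Par.inp, hI b z Θ s, h.K _ _ s])
    (fun ω X σ => h.N _ _ _ _ _) U
  refine ⟨⟨hl, fun b z s => ?_, fun b z X σ Θ => (hr b z Θ X).2 σ, fun b z s B => ?_⟩, hD,
    fun b z s U Θ => (hr b z Θ U).1 s⟩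
  · funext U Θ
    exact ((hr b z Θ U).1 s).trans ((hr b z Θ U).1 0).symm
  · change q.d' j x b z s B = 0
    simp [Par.d', hD, fg_clamp hε]

theorem fg_init (h_tra : S_tra) {q : Par} (hε : 0 ≤ q.ε) (μ : Measure Om) (mu : ℝ) :
    Par.Eqp (q.init μ (q.gPre mu)) ∧ ∀ b s B, q.D0 μ (q.gPre mu) b s B = 0 := by
  have hD : ∀ b s B, q.D0 μ (q.gPre mu) b s B = 0 := fun b s B => sub_self _
  have hr := fun b z Θ U => fg_rb h_tra μ (L := 1) (s0 := 0) le_rfl (box (q.m b 0))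
    (a := q.inp0 μ (q.gPre mu) b z Θ) (fun _ => rfl) (fun _ => rfl) (fun _ _ => rfl)
    (fun _ _ => rfl) (fun _ _ _ => rfl) U
  refine ⟨⟨fun _ => rfl, fun b z s => ?_, fun b z X σ Θ => (hr b z Θ X).2 σ, fun b z s B => ?_⟩, hD⟩
  · funext U Θ
    exact ((hr b z Θ U).1 s).trans ((hr b z Θ U).1 0).symm
  · change q.d0 μ _ b s B = 0
    simp [Par.d0, hD, fg_clamp hε]

theorem fg_eqp (h_tra : S_tra) {q : Par} (hL : 9 ≤ q.L) (hε : 0 ≤ q.ε) (mu : ℝ) (j : ℕ) :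
    Par.Eqp (q.gau mu j) := by
  induction j with
  | zero => exact (fg_init h_tra hε PP mu).1
  | succ j ih => exact (fg_step h_tra hL hε j ih).1

/-- the step maps the zero state to the zero activity -/
theorem fg_K0 (q : Par) (j : ℕ) (b : ℕ × ℕ) (z : ℂ) (s : Lab) {U : Finset P} (hU : U.Nonempty)
    (Θ : Fld) : q.K0 j zero b z s U Θ = 0 := by
  have he : ∀ s B, q.e j zero b z s B = 0 := fun s B => by
    simp [Par.e, Par.ee, Par.eK, Par.Ez, zero]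
  have hl : ∀ s, q.lam' j zero s = 0 := fun s => by
    simp [Par.lam', Par.dl, Par.qB, Par.fB, Par.Ez, zero]
  have : ∀ ω, L0 q.L 4 (box (q.m b (j + 1))) U (q.inp j zero b z Θ).It ((q.inp j zero b z Θ).M ω)
      ((q.inp j zero b z Θ).K ω) s = 0 := fun ω => fg_L0 _ _ _ hU _
    (fun s B => by simp [Par.inp, Par.It, Par.Ih, he, hl, show zero.lam s = 0 from rfl])
    (fun s X => by simp [Par.inp, zero]) s
  simp only [Par.K0, rb0, this, integral_zero, mul_zero]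

theorem fg_dl (q : Par) (j : ℕ) (s : Lab) : q.dl j ((zero.a (1, j + 1) 0).K s) = 0 := by
  simp [Par.dl, Par.qB, Par.fB, Par.Ez, zero]

theorem fg_bd0 (q : Par) (b : ℕ × ℕ) (j : ℕ) (z : ℂ) (X : Finset P) (hA : 0 ≤ q.A) {a : ℝ}
    (ha : 0 ≤ a) : q.BdJ b j z X (fun _ => 0) a := fun θ _ v _ => by
  rw [norm_zero]; positivity

theorem fg_mono {q : Par} {b : ℕ × ℕ} {j : ℕ} {z : ℂ} {X : Finset P} {F : Fld → ℂ} (hA : 0 ≤ q.A)
    {a a' : ℝ} (h : q.BdJ b j z X F a) (ha : a ≤ a') : q.BdJ b j z X F a' := fun θ h1 v h2 =>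
  (h θ h1 v h2).trans (by gcongr)

theorem fg_add {q : Par} {b : ℕ × ℕ} {j : ℕ} {z : ℂ} {X : Finset P} {F G : Fld → ℂ} {a a' : ℝ}
    (h : q.BdJ b j z X F a) (h' : q.BdJ b j z X G a') :
    q.BdJ b j z X (fun Θ => F Θ + G Θ) (a + a') := fun θ h1 v h2 =>
  (norm_add_le _ _).trans ((add_le_add (h θ h1 v h2) (h' θ h1 v h2)).trans_eq (by ring))

theorem fg_neg {q : Par} {b : ℕ × ℕ} {j : ℕ} {z : ℂ} {X : Finset P} {F : Fld → ℂ} {a : ℝ}
    (h : q.BdJ b j z X F a) : q.BdJ b j z X (fun Θ => -F Θ) a := fun θ h1 v h2 =>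
  (norm_neg _).trans_le (h θ h1 v h2)

theorem fg_dif {q : Par} {t0 : ℝ} {j : ℕ} {x y : State} {s : Lab} {b : ℕ × ℕ} {δ : ℝ}
    (h : q.Dif t0 j x y s b (box (q.m b j)) δ) (V : Finset P) : q.Dif t0 j x y s b V δ :=
  fun z X hz hX _ => h z X hz hX hX.1

theorem fg_m {q : Par} (hL : 2 ≤ q.L) {b : ℕ × ℕ} {j : ℕ} (h : Par.ok b j) :
    q.L ≤ q.m b j ∧ q.n b = q.l j * q.m b j := by
  obtain ⟨h1, h2, -⟩ := h
  constructor
  · calc q.L = 1 * q.L ^ 1 := by simp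
      _ ≤ q.m b j := Nat.mul_le_mul (by omega) (Nat.pow_le_pow_right (by omega) (by omega))
  · rw [Par.n, Par.l, Par.m, mul_left_comm, ← pow_add]
    congr 2
    omega

/-- the zero state is good -/
theorem fg_zero {q : Par} (hA : 0 ≤ q.A) {t0 α : ℝ} (h0 : 0 < t0) (h1 : t0 ≤ 1) (a0 : 0 ≤ α)
    (a1 : α ≤ q.ε) (j : ℕ) : q.Good t0 j zero α 0 1 := by
  have hl : ∀ n l X, Loc n l X (0 : Fld → ℂ) := fun _ _ _ => ⟨measurable_const, fun _ _ _ => rfl⟩
  refine ⟨⟨h0, h1⟩, ⟨fun _ _ _ _ _ _ => hl _ _ _, fun _ _ _ _ _ _ => hl _ _ _, ?_, ?_, ?_, ?_, ?_,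
    ?_, ?_, ?_, ?_, ?_, ?_, ?_, ?_, ?_, ?_, ?_, ?_, rfl, fun _ _ _ => rfl⟩,
    ⟨fun s => by simpa [zero] using a0, fun _ _ _ _ _ _ _ => fg_bd0 q _ _ _ _ hA a0,
      fun _ _ _ _ _ _ _ => fg_bd0 q _ _ _ _ hA (by simp), fun _ _ _ _ _ _ _ => ?_⟩,
    ⟨a0, a1⟩, le_rfl, le_rfl, by simpa using a0.trans a1⟩
  · exact fun _ _ _ _ _ _ _ _ _ _ _ _ _ _ => differentiableOn_const 0
  · exact fun _ _ _ _ _ _ _ _ _ _ _ _ _ _ => differentiableOn_const 0
  · exact fun _ _ _ _ _ _ _ _ _ _ => differentiableOn_const 0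
  all_goals first | (intros; rfl) | (intros; simp [zero]; done) | skip
  split_ifs
  · simp [zero]
  · simpa [zero] using a0.trans a1

theorem fg_W1 (R : Finset P) (I : P → ℂ) : W1 R I (fun _ => 0) = ∏ B ∈ R, I B := by
  rw [W1, sum_eq_single ∅]
  · simp [comps]
  · exact fun Y _ h => by rw [fg_comps (nonempty_iff_ne_empty.2 h) _ fun _ => rfl, mul_zero]
  · simp

theorem fg_W2 (R : Finset P) (I : Lab → P → ℂ) (K : Lab → Finset P → ℂ)
    {N : Finset P → (P → Option Lab) → ℂ} (hN : ∀ X σ, N X σ = 0) : W2 R I K N = 0 :=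
  sum_eq_zero fun c hc => by
    rw [fg_comps (mem_filter.1 hc).2.2 _ fun X => hN _ _, mul_zero]

theorem fg_conn {m : ℕ} (hm : 0 < m) : Conn (box m) := by
  have key : ∀ (k : ℕ) (a : P), a ∈ box m → a.1 + a.2 = k →
      Relation.ReflTransGen (lnk (box m)) a (0, 0) ∧ Relation.ReflTransGen (lnk (box m)) (0, 0) a := by
    intro k
    induction k with
    | zero =>
      rintro ⟨x, y⟩ ha e
      rw [bp_box] at ha
      obtain ⟨rfl, rfl⟩ : x = 0 ∧ y = 0 := by constructor <;> (simp at e ha; omega)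
      exact ⟨.refl, .refl⟩
    | succ k ih =>
      rintro ⟨x, y⟩ ha e
      have ha' := (bp_box _ _).1 ha
      obtain ⟨c, hc, e', n⟩ : ∃ c ∈ box m, c.1 + c.2 = k ∧ nr 1 (x, y) c := by
        by_cases hx : 0 < x
        · exact ⟨(x - 1, y), (bp_box _ _).2 (by simp at ha' ⊢; omega), by simp at e ⊢; omega,
            by simp [nr]⟩
        · exact ⟨(x, y - 1), (bp_box _ _).2 (by simp at ha' e ⊢; omega), by simp at e ⊢; omega,
            by simp [nr]⟩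
      exact ⟨.head ⟨ha, hc, n⟩ (ih c hc e').1, (ih c hc e').2.tail ⟨hc, ha, bp_nr_symm n⟩⟩
  have k2 := fun a (ha : a ∈ box m) => key (a.1 + a.2).toNat a ha
    (by have := (bp_box _ _).1 ha; omega)
  exact ⟨⟨(0, 0), (bp_box _ _).2 (by simpa using hm)⟩, fun a ha b hb =>
    (k2 a ha).1.trans (k2 b hb).2⟩

theorem fg_cells {l : ℕ} (hl : 0 < l) (m : ℕ) {M : Type} [AddCommMonoid M] (f : P → M) :
    ∑ B ∈ box m, ∑ x ∈ cell l B, f x = ∑ x ∈ box (l * m), f x := by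
  rw [← sum_fiberwise_of_maps_to (s := box (l * m)) (t := box m) (g := par l)
    fun x hx => (bp_box_par hl m x).1 hx]
  refine sum_congr rfl fun B hB => sum_congr ?_ fun _ _ => rfl
  ext x
  rw [mem_filter, bp_cell hl, bp_box_par hl]
  exact ⟨fun h => ⟨h ▸ hB, h⟩, fun h => h.2⟩

/-- the partition function of a state with equal phases -/
theorem fg_WW (h_w12 : S_w12) {q : Par} {x : State} (h : Par.Eqp x) {b : ℕ × ℕ} {j : ℕ}
    (hm : 0 < q.m b j) (z : ℂ) (Θ : Fld) : q.WW j x b z Θ = 3 * W1 (box (q.m b j))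
      (fun B => q.Ih b j z (x.lam 0) B Θ) fun X => (x.a b z).K 0 X Θ := by
  rw [Par.WW, h_w12 _ _ _ _ (fg_conn hm), fg_W2 _ _ _ fun X σ => h.N _ _ _ _ _]
  simp [h.d, Fin.sum_univ_three, h.lam 1, h.lam 2, h.K _ _ 1, h.K _ _ 2]
  ring

end Pool.Agent.Lib.MP_9cc147_pr.Cx
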