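import Pool.Agent.Lib.MP_9cc147_pr.Cx.F.S
import Pool.Agent.Lib.MP_9cc147_pr.Cx.F.Kit
import Pool.Agent.Lib.MP_9cc147_pr.Cx.F.GauA

/-! Sizes and canonical forms of the extracted energies along a flow. -/

open scoped Classical Topology
open Finset MeasureTheory ProbabilityTheory Filter

noncomputable section
namespace Pool.Agent.Lib.MP_9cc147_pr.Cx

section
variable {q : Par} {t0 η ν ρ : ℝ} {m : Measure ℝ} {p : Par.Pre} {y : ℕ × ℕ → P → Om → ℝ}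
  {mu : Lab → ℝ}

lemma fest_num (H : q.Fl t0 η ν ρ m p y mu) :
    2 ≤ q.C ∧ 0 < η ∧ 32 * η ≤ 1 ∧ q.C ^ 3 * (3 * η) ≤ q.ε := by
  have hL : (100 : ℝ) ≤ q.L := by exact_mod_cast H.rg.L
  have hC : 2 ≤ q.C := le_trans (by nlinarith) H.rg.C
  obtain ⟨h0, h1⟩ := H.sc.hη
  have h3 : (1 : ℝ) ≤ q.C ^ 3 := one_le_pow₀ (by linarith)
  have h5 : q.C ^ 3 ≤ q.C ^ 5 := pow_le_pow_right₀ (by linarith) (by norm_num)
  have h6 : q.C ^ 3 * η ≤ q.C ^ 5 * η := mul_le_mul_of_nonneg_right h5 h0.le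
  have h7 : 1 * η ≤ q.C ^ 3 * η := mul_le_mul_of_nonneg_right h3 h0.le
  have h8 := H.rg.ε.2
  exact ⟨hC, h0, by linarith, by linarith⟩

lemma fest_gau (H : q.Fl t0 η ν ρ m p y mu) (s : Lab) (j : ℕ) :
    q.Good t0 j (q.gau (mu s) j) (4 * q.C ^ 2 * η) 0 3 ∧
    ∀ b z s', ((q.gau (mu s) j).a b z).K s' = ((q.gau (mu s) j).a b z).K 0 ∧
      (q.gau (mu s) j).lam s' = (q.gau (mu s) j).lam 0 := by
  obtain ⟨hC, h0, -, h2⟩ := fest_num H
  obtain ⟨h3, h4, -⟩ := H.sh.2 s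
  obtain ⟨g1, g2, -⟩ := (H.rg.gau t0 (mu s) (3 * η) H.sc.t.1 H.sc.t.2 h3 h4 h2).1 j
  refine ⟨g1.monoA (zero_le_one.trans H.rg.A) ?_ (H.gd j).a.2, g2⟩
  have : 4 * η ≤ q.C ^ 2 * η := mul_le_mul_of_nonneg_right (by nlinarith) h0.le
  linarith

end

theorem t_f_est (h_slave : S_f_slave) : S_f_est := by
  intro q t0 η ν ρ m p y mu H j b z s B hB hb hz
  obtain ⟨hC, h0, h1, -⟩ := fest_num H
  have hA : 0 ≤ q.A := zero_le_one.trans H.rg.A
  have hC0 : 0 ≤ q.C := by linarith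
  have hx := H.gd j
  obtain ⟨g1, g2⟩ := fest_gau H s j
  obtain ⟨m0, m1, m2⟩ := H.sh.2 s
  have hD := (h_slave q t0 η ν ρ m p y (mu s) s j H.rg H.sc m0 m1
    (fun i _ => ⟨H.gd i, m2 i⟩) b hb.pred).2
  obtain ⟨e1, e2⟩ := (H.rg.ee t0 j _ _ _ _ _ _ _ s _ hx g1 (by positivity)).2 b z B hB hb hz
    (hD.sub (f_near_sub _ _ _))
  have e3 : q.e j (q.gau (mu s) j) b z s B = q.e j (q.gau (mu s) j) b z 0 B := by
    rw [Par.e, Par.e, (g2 b z s).1, (g2 b z s).2]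
  have e4 : q.lam' j (q.gau (mu s) j) s = q.lam' j (q.gau (mu s) j) 0 :=
    ((fest_gau H s (j + 1)).2 b z s).2
  have e5 : |q.lam' j (q.xs m p j) s - q.lam' j (q.gau (mu s) j) s| ≤
      32 * q.C ^ 2 * η ^ 2 / 4 ^ (j + 1) := m2 (j + 1)
  have e6 : |(q.xs m p j).lam s - (q.gau (mu s) j).lam s| ≤ 32 * q.C ^ 2 * η ^ 2 / 4 ^ j := m2 j
  have k0 : 0 ≤ q.C ^ 3 * η / 4 ^ j := by positivity
  have k1 : q.C * (32 * q.C ^ 2 * η ^ 2 / 4 ^ j) ≤ q.C ^ 3 * η / 4 ^ j :=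
    calc _ = (q.C ^ 3 * η / 4 ^ j) * (32 * η) := by ring
      _ ≤ _ := mul_le_of_le_one_right k0 h1
  have c2 : ‖q.e j (q.xs m p j) b z s B - q.e j (q.gau (mu s) j) b z 0 B‖ ≤
      3 * q.C ^ 3 * η / 4 ^ j := by
    rw [← e3]
    refine e1.trans ((mul_le_mul_of_nonneg_left (add_le_add le_rfl e6) hC0).trans ?_)
    calc _ = 2 * (q.C ^ 3 * η / 4 ^ j) + q.C * (32 * q.C ^ 2 * η ^ 2 / 4 ^ j) := by ring
      _ ≤ 2 * (q.C ^ 3 * η / 4 ^ j) + q.C ^ 3 * η / 4 ^ j := add_le_add le_rfl k1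
      _ = _ := by ring
  refine ⟨?_, c2, ?_⟩
  · have z1 := ((H.rg.ee t0 j _ _ _ _ _ _ _ s _ hx (fg_zero hA H.sc.t.1 H.sc.t.2 hx.a.1 hx.a.2 j)
      hx.a.1).2 b z B hB hb hz (Par.Dif.zero_of_bnd hx.bnd hb.pred)).1
    have z2 : q.e j zero b z s B = 0 := by simp [Par.e, Par.ee, Par.eK, Par.Ez, zero]
    have z3 : zero.lam s = 0 := rfl
    rw [z2, z3, sub_zero, sub_zero] at z1
    refine z1.trans ((mul_le_mul_of_nonneg_left (add_le_add le_rfl (hx.bnd.lam s)) hC0).trans_eq ?_)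
    ring
  · rw [Par.et, Par.et, ← e4, add_sub_add_comm]
    refine (norm_add_le _ _).trans ((add_le_add c2 (e2.trans
      (mul_le_mul_of_nonneg_left e5 hC0))).trans ?_)
    have k2 : q.C * (32 * q.C ^ 2 * η ^ 2 / 4 ^ (j + 1)) =
        q.C * (32 * q.C ^ 2 * η ^ 2 / 4 ^ j) / 4 := by rw [pow_succ (4 : ℝ)]; ring
    have k3 : 3 * q.C ^ 3 * η / 4 ^ j = 3 * (q.C ^ 3 * η / 4 ^ j) := by ring
    have k4 : 4 * q.C ^ 3 * η / 4 ^ j = 4 * (q.C ^ 3 * η / 4 ^ j) := by ring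
    rw [k2, k3, k4]
    linarith

lemma fest_near {k : ℕ} {R X Y : Finset P} (h : X ⊆ Y) : near k R X ⊆ near k R Y := fun _ hb =>
  mem_filter.2 ⟨(mem_filter.1 hb).1, (mem_filter.1 hb).2.imp fun _ ha => ⟨h ha.1, ha.2⟩⟩

lemma fest_sds {m : ℕ} {X Y : Finset P} (h : X ⊆ Y) : (sds m X).card ≤ (sds m Y).card :=
  card_le_card fun _ hb =>
    mem_filter.2 ⟨mem_univ _, (mem_filter.1 hb).2.imp fun _ ha => ⟨h ha.1, ha.2⟩⟩

lemma fest_mv {m m' : ℕ} {g : Sy} {c : P} {U V : Finset P} (H : Mv m m' g c U) (h : V ⊆ U) :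
    Mv m m' g c V :=
  ⟨fun B hB => H.1 B (hB.imp fun _ ha => ⟨h ha.1, ha.2⟩), (fest_sds (fest_near h)).trans H.2.1,
    (fest_sds (fest_near (image_subset_image h))).trans H.2.2⟩

lemma fest_self {k : ℕ} {R : Finset P} {B : P} (h : B ∈ R) : B ∈ near k R {B} :=
  mem_filter.2 ⟨h, B, mem_singleton_self B, by simp [nr]⟩

lemma fest_pm {α : Type} {f : Lab → α} (h : f 1 = f 2) (g : Sy) (c : P) (s : Lab) :
    f (pm g c s) = f s := by
  rw [pm]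
  split_ifs
  · rfl
  · fin_cases s
    · rfl
    · exact h.symm
    · exact h

lemma fest_pm0 (g : Sy) (c : P) : pm g c 0 = 0 := by
  rw [pm]
  split_ifs <;> rfl

theorem t_f_can (h_canon : S_f_canon) : S_f_can := by
  intro q t0 η ν ρ m p y mu H b
  have hL := H.rg.L
  have hm : ∀ {b j}, Par.ok b j → 30 ≤ q.m b j := fun h =>
    le_trans (by omega) (q.L_le_m (by omega) h)
  refine ⟨fun hb => ?_, fun j hb => ?_⟩
  · have h1 : Par.ok (1, 1) 0 := (Par.ok_ref 0).pred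
    have := H.sc.prob
    constructor
    · refine h_canon _ _ _ _ (hm hb) (hm h1) fun g c s B hB hM => ?_
      have a1 : E0 q (mu0 m) (1, 1) (fm g c B) = E0 q (mu0 m) b B :=
        (H.rg.e0 q m b B hL hb hB).2.2.2 (1, 1) g c h1
          (fest_mv hM (singleton_subset_iff.2 (fest_self hB)))
      obtain ⟨Ψ, -, -, a2⟩ := H.sc.S.iso b (1, 1) g c hb h1
      have a3 := (a2 _ (f_near_sub _ _ _) hM).1 s B (fest_self hB)
      rw [E0, E0] at a1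
      rw [Par.T0, Par.T0, Par.e0, Par.e0, a1, a3, fest_pm H.sc.S.lam12]
    · refine h_canon _ _ _ _ (hm hb) (hm h1) fun g c s B hB hM => ?_
      have a1 := (H.rg.e0 q (gaussianReal 0 1) b B hL hb hB).2.2.2 (1, 1) g c h1
          (fest_mv hM (singleton_subset_iff.2 (fest_self hB)))
      rw [← H.rg.zel.1, E0, E0] at a1
      rw [Par.T0, Par.T0, Par.e0, Par.e0, a1, fest_pm H.sh.1]
      rfl
  · have h1 : Par.ok (1, j + 1) j := (Par.ok_ref j).pred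
    constructor
    · refine h_canon _ _ _ _ (hm hb.pred) (hm h1) fun g c s B hB hM => ?_
      rw [Par.Tj, Par.Tj,
        (H.rg.esy t0 j _ _ _ _ (H.gd j)).2.2 b (1, j + 1) g c s B hB hb.pred h1 hM]
    · refine h_canon _ _ _ _ (hm hb.pred) (hm h1) fun g c s B hB hM => ?_
      have a1 := (H.rg.esy t0 j _ _ _ _ (fest_gau H s j).1).2.2 b (1, j + 1) g c 0 B hB hb.pred
        h1 hM
      rw [fest_pm0] at a1
      rw [Par.Tj, Par.Tj, fest_pm H.sh.1, a1]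

end Pool.Agent.Lib.MP_9cc147_pr.Cx
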