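import Pool.Agent.Lib.MP_9cc147_pr.Cx.F.S

/-! The even part of the dependence on `z`, the mean stiffness and the signs on the rectangle. -/

open scoped Classical Topology
open Finset Filter

noncomputable section
namespace Pool.Agent.Lib.MP_9cc147_pr.Cx

theorem feven_sch {t0 : ℝ} {Ψ : ℂ → ℂ} (hd : DifferentiableOn ℂ Ψ (Metric.ball 0 t0))
    (hb : ∀ z, ‖z‖ < t0 → ‖Ψ z - 1‖ ≤ 1 / 10) {z : ℂ} (hz : ‖z‖ < t0) :
    ‖(Ψ z + Ψ (-z)) / 2 - Ψ 0‖ ≤ 1 / 5 * (‖z‖ / t0) ^ 2 := by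
  have h0 : 0 < t0 := (norm_nonneg z).trans_lt hz
  have hn : DifferentiableOn ℂ (fun w => Ψ (-w)) (Metric.ball 0 t0) :=
    hd.comp differentiable_neg.differentiableOn fun w hw => by simpa using hw
  have hf : DifferentiableOn ℂ (fun w => (Ψ w + Ψ (-w)) / 2) (Metric.ball 0 t0) :=
    (hd.add hn).div_const 2
  have e0 : (Ψ 0 + Ψ (-0)) / 2 = Ψ 0 := by rw [neg_zero]; ring
  have h1 := (hd.differentiableAt (Metric.ball_mem_nhds 0 h0)).hasDerivAt
  have h2 : HasDerivAt (fun w => Ψ (-w)) (deriv Ψ 0 * -1) 0 :=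
    HasDerivAt.comp (h₂ := Ψ) (h := fun w => -w) 0 (by simpa using h1) (hasDerivAt_neg 0)
  have h3 : HasDerivAt (fun w => (Ψ w + Ψ (-w)) / 2) 0 0 := by
    simpa using (h1.add h2).div_const 2
  have := Complex.dist_le_mul_div_pow_of_mapsTo_ball_of_isLittleO (n := 1) (R₂ := 1 / 5) hf
    (fun w hw => ?_) (by simpa using h3.isLittleO.norm_right) (z := z) (by simpa using hz)
  · simpa [e0, dist_eq_norm] using this
  · have hw' : ‖w‖ < t0 := by simpa using hw
    have a1 := hb w hw'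
    have a2 := hb (-w) (by simpa using hw')
    have a3 := hb 0 (by simpa using h0)
    rw [Metric.mem_closedBall, dist_eq_norm, e0, show (Ψ w + Ψ (-w)) / 2 - Ψ 0 =
      ((Ψ w - 1) + (Ψ (-w) - 1)) / 2 - (Ψ 0 - 1) by ring]
    refine (norm_sub_le _ _).trans ?_
    have := norm_add_le (Ψ w - 1) (Ψ (-w) - 1)
    rw [norm_div, Complex.norm_two]
    linarith

theorem feven_exp {x : ℝ} (hx : 0 ≤ x) : |Real.exp (-x) - 1 + x| ≤ x ^ 2 := by
  by_cases h : x ≤ 1
  · simpa using Real.abs_exp_sub_one_sub_id_le (x := -x) (by rw [abs_neg, abs_of_nonneg hx]; exact h)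
  · have h1 := Real.add_one_le_exp (-x)
    have h2 : Real.exp (-x) ≤ 1 := Real.exp_le_one_iff.2 (by linarith)
    rw [abs_le]
    constructor <;> nlinarith

theorem t_f_even : S_f_even := by
  intro t0 R w mu Ψ Z h0 hR h hZ
  have hre : ∀ s, Ψ s 0 = ((Ψ s 0).re : ℂ) := fun s =>
    Complex.ext (by simp) (by simp [(h s).2.2.2.2.1])
  have hψ : ∀ s, 9 / 10 ≤ (Ψ s 0).re := fun s => by
    have h1 := (h s).2.2.2.2.2 0 (by simpa using h0)
    have h2 := Complex.abs_re_le_norm (Ψ s 0 - 1)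
    rw [Complex.sub_re, Complex.one_re, abs_le] at h2
    linarith [h2.1]
  have e0 : Z 0 = (∑ s, w s * (Ψ s 0).re : ℝ) := by
    rw [(hZ 0 (by simpa using h0)).2, Complex.ofReal_sum]
    refine sum_congr rfl fun s _ => ?_
    rw [Complex.ofReal_mul, ← hre]
    simp
  refine ⟨e0, fun t ht => ?_⟩
  have ht' : ‖(t : ℂ)‖ < t0 := by rw [Complex.norm_real, Real.norm_eq_abs]; linarith
  have hD : 0 < ∑ s, w s * (Ψ s 0).re :=
    sum_pos (fun s _ => mul_pos (h s).1 (by linarith [hψ s])) univ_nonempty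
  have e1 : Z t = ∑ s, (w s : ℂ) * ((Ψ s t + Ψ s (-t)) / 2) *
      (Real.exp (-(mu s / 2 * t ^ 2 * R)) : ℝ) := by
    have a1 := (hZ t ht').2
    have a2 := (hZ (-t) (by simpa using ht')).2
    rw [(hZ t ht').1] at a2
    rw [show Z t = (Z t + Z t) / 2 by ring]
    nth_rewrite 2 [a2]
    rw [a1, ← sum_add_distrib, sum_div]
    refine sum_congr rfl fun s _ => ?_
    push_cast
    rw [neg_sq, show -((mu s : ℂ) / 2) * t ^ 2 * R = -(mu s / 2 * t ^ 2 * R) by ring]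
    ring
  have hD' : ((∑ s, w s * (Ψ s 0).re : ℝ) : ℂ) ≠ 0 := by exact_mod_cast hD.ne'
  have e2 : (∑ s, w s * (Ψ s 0).re) * (1 - (∑ s, w s * (Ψ s 0).re * mu s) /
      (∑ s, w s * (Ψ s 0).re) * R * t ^ 2 / 2) =
      ∑ s, w s * (Ψ s 0).re * (1 - mu s / 2 * t ^ 2 * R) := by
    rw [mul_sub, mul_div_assoc, mul_assoc _ R, ← mul_assoc, mul_div_cancel₀ _ hD.ne', mul_one,
      sum_mul, ← sum_sub_distrib]
    exact sum_congr rfl fun s _ => by ring
  rw [e0, div_sub' hD', norm_div, Complex.norm_real, Real.norm_of_nonneg hD.le, div_le_iff₀' hD,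
    ← Complex.ofReal_mul, e2, e1, Complex.ofReal_sum, ← sum_sub_distrib, sum_mul]
  refine norm_sum_le_of_le _ fun s _ => ?_
  obtain ⟨hw, m0, m1, hd, -, hb⟩ := h s
  have b1 := feven_sch hd hb ht'
  have hx : 0 ≤ mu s / 2 * t ^ 2 * R := by positivity
  have b2 := feven_exp hx
  have b3 : Real.exp (-(mu s / 2 * t ^ 2 * R)) ≤ 1 := Real.exp_le_one_iff.2 (by linarith)
  have b4 : (mu s / 2 * t ^ 2 * R) ^ 2 ≤ R ^ 2 * t ^ 4 := by
    have : mu s / 2 * t ^ 2 * R ≤ 1 * t ^ 2 * R := by gcongr; linarith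
    calc _ ≤ (1 * t ^ 2 * R) ^ 2 := by gcongr
      _ = _ := by ring
  have hp := hψ s
  rw [hre s] at b1
  rw [Complex.norm_real, Real.norm_eq_abs, div_pow, sq_abs] at b1
  generalize (Ψ s 0).re = ψ at *
  generalize (Ψ s t + Ψ s (-t)) / 2 = g at *
  generalize mu s / 2 * t ^ 2 * R = x at *
  rw [show (w s : ℂ) * g * (Real.exp (-x) : ℝ) - (w s * ψ * (1 - x) : ℝ) =
    w s * ((g - ψ) * (Real.exp (-x) : ℝ) + (ψ * (Real.exp (-x) - 1 + x) : ℝ)) by push_cast; ring,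
    norm_mul, Complex.norm_real, Real.norm_of_nonneg hw.le, mul_assoc]
  refine mul_le_mul_of_nonneg_left ((norm_add_le _ _).trans ?_) hw.le
  rw [norm_mul, Complex.norm_real, Complex.norm_real, Real.norm_of_nonneg (Real.exp_pos _).le,
    Real.norm_eq_abs, abs_mul, abs_of_nonneg (a := ψ) (by linarith), mul_add]
  refine add_le_add ?_ (mul_le_mul_of_nonneg_left (b2.trans b4) (by linarith))
  refine (mul_le_of_le_one_right (norm_nonneg _) b3).trans (b1.trans ?_)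
  have : 0 ≤ t ^ 2 / t0 ^ 2 := by positivity
  rw [show ψ * (100 / t0 ^ 2 * t ^ 2) = 100 * ψ * (t ^ 2 / t0 ^ 2) by ring]
  nlinarith

theorem t_f_vee : S_f_vee := by
  intro η c r l ψ mu h0 h1 hc hr h h12 h01 v
  obtain ⟨a1, a2, a3, a4⟩ := h 0
  obtain ⟨b1, b2, b3, b4⟩ := h 1
  obtain ⟨c1, c2, c3, c4⟩ := h 2
  have e0 := Real.exp_pos (l 0)
  have e1 := Real.exp_pos (l 1)
  have e2 := Real.exp_pos (l 2)
  have p0 : 0 < Real.exp (l 0) * ψ 0 := mul_pos e0 (by linarith)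
  have p1 : 0 < Real.exp (l 1) * ψ 1 := mul_pos e1 (by linarith)
  have p2 : 0 < Real.exp (l 2) * ψ 2 := mul_pos e2 (by linarith)
  have hD : 0 < Real.exp (l 0) * ψ 0 + Real.exp (l 1) * ψ 1 + Real.exp (l 2) * ψ 2 := by linarith
  have hv : v = mu 1 - Real.exp (l 0) * ψ 0 * (mu 1 - mu 0) /
      (Real.exp (l 0) * ψ 0 + Real.exp (l 1) * ψ 1 + Real.exp (l 2) * ψ 2) := by
    simp only [v, Fin.sum_univ_three, ← h12]
    field_simp
    ring
  have q0 : 0 ≤ Real.exp (l 0) * ψ 0 * (mu 1 - mu 0) /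
      (Real.exp (l 0) * ψ 0 + Real.exp (l 1) * ψ 1 + Real.exp (l 2) * ψ 2) :=
    div_nonneg (mul_nonneg p0.le (by linarith)) hD.le
  refine ⟨?_, by linarith, fun hl => ?_, fun hl1 hl2 => ?_⟩
  · exact div_nonneg (sum_nonneg fun s _ => mul_nonneg (mul_nonneg (Real.exp_pos _).le
      (by linarith [(h s).1])) (by linarith [(h s).2.2.1]))
      (sum_nonneg fun s _ => mul_nonneg (Real.exp_pos _).le (by linarith [(h s).1]))
  · rw [hv, sub_le_sub_iff_left, div_le_iff₀ hD]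
    have k1 : Real.exp (l 0) ≤ Real.exp c / r * Real.exp (l 1) := by
      rw [div_mul_eq_mul_div, le_div_iff₀ hr, ← Real.exp_log hr, ← Real.exp_add, ← Real.exp_add]
      exact Real.exp_le_exp.2 (by linarith [(abs_le.1 hl).1])
    have k0 : 0 < Real.exp c / r := by positivity
    rw [mul_div_assoc]
    generalize Real.exp c / r = x at *
    have k2 : Real.exp (l 0) * ψ 0 * (mu 1 - mu 0) ≤ x * Real.exp (l 1) * 2 * (3 * η) :=
      mul_le_mul (mul_le_mul k1 a2 (by linarith) (by positivity)) (by linarith) (by linarith)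
        (by positivity)
    have k3 : Real.exp (l 1) * (1 / 2) ≤ Real.exp (l 0) * ψ 0 + Real.exp (l 1) * ψ 1 +
        Real.exp (l 2) * ψ 2 := by linarith [mul_le_mul_of_nonneg_left b1 e1.le]
    have k4 := mul_le_mul_of_nonneg_left k3 (show 0 ≤ 12 * η * x by positivity)
    linarith
  · rw [hv, sub_le_sub_iff_left, le_div_iff₀ hD]
    have k : ∀ s, |l s - l 0| ≤ c → ψ s ≤ 2 → 0 ≤ ψ s →
        Real.exp (-c) * (Real.exp (l s) * ψ s) ≤ 4 * (Real.exp (l 0) * ψ 0) := by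
      intro s hs h2 h3
      have k1 : Real.exp (-c) * Real.exp (l s) ≤ Real.exp (l 0) := by
        rw [← Real.exp_add]
        exact Real.exp_le_exp.2 (by linarith [(abs_le.1 hs).2])
      have k2 := mul_le_mul k1 h2 h3 e0.le
      have k3 := mul_le_mul_of_nonneg_left a1 e0.le
      linarith
    have k0 : Real.exp (-c) * (Real.exp (l 0) * ψ 0) ≤ Real.exp (l 0) * ψ 0 :=
      mul_le_of_le_one_left p0.le (Real.exp_le_one_iff.2 (by linarith))
    have k1 := k 1 hl1 b2 (by linarith)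
    have k2 := k 2 hl2 c2 (by linarith)
    have k3 := mul_le_mul_of_nonneg_left (show η / 4 ≤ mu 1 - mu 0 by linarith) p0.le
    have k4 := mul_le_mul_of_nonneg_left (add_le_add (add_le_add k0 k1) k2) h0.le
    nlinarith [mul_pos h0 p0]

theorem feven_up {x : ℝ} : Real.exp x * (1 - x) ≤ 1 := by
  have h1 := mul_le_mul_of_nonneg_left (Real.add_one_le_exp (-x)) (Real.exp_pos x).le
  rw [← Real.exp_add, add_neg_cancel, Real.exp_zero] at h1
  linarith

theorem feven_root {y : ℝ} (hy : 0 ≤ y) : (y ^ (1 / 4 : ℝ)) ^ 4 = y := by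
  rw [← Real.rpow_natCast, ← Real.rpow_mul hy]
  norm_num

theorem t_f_num : S_f_num := by
  intro η R gap Bw h τ o
  obtain ⟨⟨a, x⟩, ⟨a1, a2⟩, -⟩ := τ
  simp only [o, Mod.mk', Mod.bb, Mod.x2, Mod.gam] at *
  have l1 := Real.add_one_le_exp a
  have u1 : Real.exp a ≤ 1.0102 := by
    have := feven_up (x := a)
    nlinarith [Real.exp_pos a]
  refine ⟨fun hx => ?_, fun hx => ?_, ?_, by linarith [Real.exp_pos (-a)]⟩
  · subst hx
    have hy : 0 ≤ 4 * Real.exp a - 2 - 2 * (1 / 10 : ℝ) ^ 4 := by linarith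
    have r4 := feven_root hy
    have r0 := Real.rpow_nonneg hy (1 / 4 : ℝ)
    generalize (4 * Real.exp a - 2 - 2 * (1 / 10 : ℝ) ^ 4) ^ (1 / 4 : ℝ) = y at *
    have r1 : y ≤ 1.2 := le_of_pow_le_pow_left₀ (n := 4) (by norm_num) (by norm_num) (by linarith)
    have r3 : y ^ 3 ≤ 1.2 ^ 3 := by gcongr
    rw [sub_le_iff_le_add, Real.log_le_iff_le_exp (by positivity)]
    linarith [Real.add_one_le_exp (-(1 / 50) + a)]
  · subst hx
    have hy : 0 ≤ 4 * Real.exp a - 2 - 2 * (9 / 10 : ℝ) ^ 4 := by linarith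
    have r4 := feven_root hy
    have r0 := Real.rpow_nonneg hy (1 / 4 : ℝ)
    generalize (4 * Real.exp a - 2 - 2 * (9 / 10 : ℝ) ^ 4) ^ (1 / 4 : ℝ) = y at *
    have r1 : 0.89 ≤ y := le_of_pow_le_pow_left₀ (n := 4) (by norm_num) r0 (by linarith)
    have r3 : 0.89 ^ 3 ≤ y ^ 3 := by gcongr
    rw [le_sub_iff_add_le, Real.le_log_iff_exp_le (by positivity)]
    have := feven_up (x := 1 / 50 + a)
    nlinarith [Real.exp_pos (1 / 50 + a)]
  · have := feven_up (x := -a)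
    nlinarith [Real.exp_pos (-a)]

end Pool.Agent.Lib.MP_9cc147_pr.Cx
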