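import Pool.Agent.Lib.MP_9cc147_pr.Cx.F.S
import Pool.Agent.Lib.MP_9cc147_pr.Cx.F.Kit

/-! The flow stays small and each coupling is shadowed by a Gaussian flow. -/

open scoped Classical Topology
open Finset MeasureTheory ProbabilityTheory Filter

noncomputable section
namespace Pool.Agent.Lib.MP_9cc147_pr.Cx

variable {q : Par} {t0 η ν ρ : ℝ} {m : Measure ℝ} {p : Par.Pre} {y : ℕ × ℕ → P → Om → ℝ}

theorem fflow_num (rg : RG q) (sc : q.Sc t0 η ν ρ m p y) :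
    10 ≤ q.C ∧ 4 * q.C ^ 2 * η ≤ q.ε ∧ q.C ^ 3 * (3 * η) ≤ q.ε ∧ 48 * q.C ^ 2 * η ≤ 1 ∧
      q.C * η ≤ q.ε ∧ 3 * η ≤ q.ε ∧ η ≤ 1 / 10 := by
  have hL : (100 : ℝ) ≤ q.L := by exact_mod_cast rg.L
  have hC : 10 ≤ q.C := by nlinarith [rg.C]
  have h1 : 1 ≤ q.C := by linarith
  obtain ⟨e0, e1⟩ := sc.hη
  have k : ∀ i ≤ 5, q.C ^ i * η ≤ q.C ^ 5 * η := fun i hi =>
    mul_le_mul_of_nonneg_right (pow_le_pow_right₀ h1 hi) e0.le
  have k0 := k 0 (by norm_num)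
  have k1 := k 1 (by norm_num)
  have k2 := k 2 (by norm_num)
  have k3 := k 3 (by norm_num)
  have := rg.ε
  rw [pow_zero] at k0
  rw [pow_one] at k1
  refine ⟨hC, ?_, ?_, ?_, ?_, ?_, ?_⟩ <;> linarith

theorem fflow_gau (rg : RG q) (sc : q.Sc t0 η ν ρ m p y) {mu : ℝ} (h0 : 0 ≤ mu) (h1 : mu ≤ 3 * η)
    (j : ℕ) : q.Good t0 j (q.gau mu j) (3 * (3 * η)) 0 3 :=
  ((rg.gau t0 mu (3 * η) sc.t.1 sc.t.2 h0 h1 (fflow_num rg sc).2.2.1).1 j).1

/-- the Gaussian flows depend continuously on the stiffness -/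
theorem fflow_cont (rg : RG q) (sc : q.Sc t0 η ν ρ m p y) (j : ℕ) :
    q.Cont j fun τ : Set.Icc (0 : ℝ) (3 * η) => q.gau τ j := by
  induction j with
  | zero =>
    obtain ⟨hc, y', hy⟩ := rg.gpre
    obtain ⟨-, -, -, -, -, n5, n6⟩ := fflow_num rg sc
    have e0 := sc.hη.1
    have := rg.initC (Set.Icc (0 : ℝ) (3 * η)) t0 (gaussianReal 0 1) (fun τ => q.gPre τ) (3 * η)
      ((3 * η) ^ 2) 0 3 y' sc.t.1 sc.t.2
      (fun τ => ⟨(hy t0 τ τ.2.1).1, (hy t0 τ τ.2.1).2 _ τ.2.2⟩) (by positivity) (by nlinarith) n5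
      le_rfl (by norm_num) (by rw [zero_mul]; positivity)
      ⟨fun s => (hc.lam s).comp continuous_subtype_val,
        fun b s B => (hc.c b s B).comp continuous_subtype_val,
        fun b Θ ω s B => (hc.I b Θ ω s B).comp continuous_subtype_val,
        fun b Θ ω s X => (hc.K b Θ ω s X).comp continuous_subtype_val,
        fun b Θ ω X σ => (hc.N b Θ ω X σ).comp continuous_subtype_val⟩
    rw [← rg.zel.1] at this
    exact this
  | succ j ih => exact (rg.con _ t0 j _ _ _ _ (fun τ => fflow_gau rg sc τ.2.1 τ.2.2 j) ih).1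

theorem fflow_ref (hL : 100 ≤ q.L) : q.ref ⊆ intr (q.L ^ 2) := by
  intro B hB
  have hN : 100 ≤ q.L ^ 2 := by nlinarith
  obtain ⟨h1, a, ha, h2, h3⟩ := mem_filter.1 hB
  refine mem_filter.2 ⟨h1, ?_⟩
  rw [abs_le] at h2 h3
  simp only [mem_insert, mem_singleton, Par.Bc] at ha
  unfold deep
  generalize q.L ^ 2 = N at *
  rcases ha with rfl | rfl <;> simp only [Prod.fst_add, Prod.snd_add] at h2 h3 <;> omega

theorem fflow_zero (rg : RG q) (sc : q.Sc t0 η ν ρ m p y) : q.GdAt t0 η ν ρ m p 0 := by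
  obtain ⟨n0, n1, -, -, n4, -, n6⟩ := fflow_num rg sc
  have e0 := sc.hη.1
  have := sc.prob
  have hb : q.C * η ^ 2 ≤ q.C * η := mul_le_mul_of_nonneg_left (by nlinarith) (by linarith)
  obtain ⟨h1, h2, -⟩ := rg.init t0 m p (q.C * η) (q.C * η ^ 2) ν ρ y sc.t.1 sc.t.2 sc.neg sc.S sc.B
    (by positivity) hb n4 sc.hν.1 sc.hν.2.1 sc.hν.2.2
  have hp : 0 ≤ q.C ^ 2 * η := by positivity
  simp only [Par.GdAt, pow_zero, div_one, mul_one]
  exact ⟨sc.t, h1, h2.mono (by linarith [rg.A]) (by nlinarith) sc.hν.1 le_rfl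
    (by linarith [sc.hν.2.1]) le_rfl, ⟨by positivity, n1⟩, sc.hν.1, sc.hν.2.1,
    by linarith [sc.hν.2.2]⟩

/-- the increment of the distance to the shadow -/
theorem fflow_inc (h_slave : S_f_slave) (rg : RG q) (sc : q.Sc t0 η ν ρ m p y) {mu : ℝ}
    (h0 : 0 ≤ mu) (h1 : mu ≤ 3 * η) (s : Lab) (j : ℕ) (hj : q.GdAt t0 η ν ρ m p j)
    (h : ∀ i < j, q.GdAt t0 η ν ρ m p i ∧ q.ShAt η m p mu s i) :
    |(q.xs m p (j + 1)).lam s - (q.gau mu (j + 1)).lam s -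
      ((q.xs m p j).lam s - (q.gau mu j).lam s)| ≤ 32 * q.C ^ 2 * η ^ 2 / 4 ^ j / 2 := by
  obtain ⟨n0, n1, -⟩ := fflow_num rg sc
  have e0 := sc.hη.1
  have d := (h_slave q t0 η ν ρ m p y mu s j rg sc h0 h1 h (1, j + 1) (Par.ok_ref j).pred).1
  rw [q.m_ref] at d
  have g := (fflow_gau rg sc h0 h1 j).monoA (α' := 4 * q.C ^ 2 * η) (by linarith [rg.A])
    (by nlinarith [mul_le_mul_of_nonneg_right (show 100 ≤ q.C ^ 2 by nlinarith) e0.le]) n1
  have e := (rg.ee t0 j _ _ _ _ _ _ _ s _ hj g (by positivity)).1 (d.sub (fflow_ref rg.L))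
  have a1 : (q.xs m p (j + 1)).lam s =
      (q.xs m p j).lam s + q.dl j (((q.xs m p j).a (1, j + 1) 0).K s) := rfl
  have a2 : (q.gau mu (j + 1)).lam s =
      (q.gau mu j).lam s + q.dl j (((q.gau mu j).a (1, j + 1) 0).K s) := rfl
  rw [a1, a2]
  exact ((congrArg abs (by ring)).trans_le e).trans_eq (by ring)

theorem fflow_succ (h_slave : S_f_slave) (rg : RG q) (sc : q.Sc t0 η ν ρ m p y) (j : ℕ)
    (hG : ∀ i ≤ j, q.GdAt t0 η ν ρ m p i)
    (hS : ∀ s, ∃ mu, 0 ≤ mu ∧ mu ≤ 3 * η ∧ ∀ i ≤ j, q.ShAt η m p mu s i) :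
    q.GdAt t0 η ν ρ m p (j + 1) := by
  obtain ⟨n0, n1, -, n3, n4, -, n6⟩ := fflow_num rg sc
  have e0 := sc.hη.1
  have hA : 0 ≤ q.A := by linarith [rg.A]
  have hj := hG j le_rfl
  obtain ⟨v0, v1, v2⟩ := sc.hν
  have hc : 100 * η ≤ q.C ^ 2 * η := mul_le_mul_of_nonneg_right (by nlinarith) e0.le
  have f4 : ∀ (i : ℕ) (c : ℝ), 0 ≤ c → c / 4 ^ i ≤ c := fun i c h =>
    div_le_self h (one_le_pow₀ (by norm_num))
  have r0 : 0 ≤ ρ * (21 / 20) ^ j := by positivity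
  have r1 : ρ * (21 / 20) ^ j ≤ ρ * (21 / 20) ^ (j + 1) := by rw [pow_succ]; nlinarith
  refine ⟨sc.t, rg.str t0 j _ _ _ _ hj, ⟨fun s => ?_, fun b z s X hb hz hX => ?_,
    fun b z X σ hb hz hX => ?_, fun b z s B hb hz hB => ?_⟩, ⟨by positivity, n1⟩, by positivity,
    one_le_mul_of_one_le_of_one_le v1 (one_le_pow₀ (by norm_num)), ?_⟩
  · obtain ⟨mu, h0, h1, h2⟩ := hS s
    have a1 := fflow_inc h_slave rg sc h0 h1 s j hj fun i hi => ⟨hG i hi.le, h2 i hi.le⟩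
    have a2 : |(q.xs m p j).lam s - (q.gau mu j).lam s| ≤ _ := h2 j le_rfl
    have a3 := (fflow_gau rg sc h0 h1 (j + 1)).bnd.lam s
    have a4 := f4 j (32 * q.C ^ 2 * η ^ 2) (by positivity)
    have a5 : 48 * q.C ^ 2 * η * η ≤ 1 * η := mul_le_mul_of_nonneg_right n3 e0.le
    rw [abs_le] at a1 a2 a3 ⊢
    constructor <;> nlinarith
  · obtain ⟨mu, h0, h1, h2⟩ := hS s
    have d := (h_slave q t0 η ν ρ m p y mu s (j + 1) rg sc h0 h1
      (fun i hi => ⟨hG i (by omega), h2 i (by omega)⟩) b hb).2 z X hz hX hX.1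
    have g := (fflow_gau rg sc h0 h1 (j + 1)).bnd.K b z s X hb hz hX
    have a4 := f4 (j + 1) (2 * q.C ^ 2 * η) (by positivity)
    exact ((d.add g).congr fun Θ => (sub_add_cancel _ _).symm).mono hA (by linarith)
  · refine (((rg.k1 t0 j _ _ _ _ hj b z hb hz).2 X hX).1 σ).mono hA ?_
    rw [pow_succ (16 : ℝ), div_div]
    exact mul_le_mul_of_nonneg_left (pow_le_pow_left₀ r0 r1 _) (by positivity)
  · have := (rg.k1 t0 j _ _ _ _ hj b z hb hz).1 s B hB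
    rw [mul_assoc, ← pow_succ] at this
    exact this
  · have a1 : ν / 16 ^ (j + 1) * (ρ * (21 / 20) ^ (j + 1)) ^ 8 =
        ν * ρ ^ 8 * ((21 / 20) ^ 8 / 16) ^ (j + 1) := by
      rw [mul_pow, div_pow ((21 / 20 : ℝ) ^ 8), ← pow_mul, ← pow_mul, mul_comm 8]
      ring
    have a2 : ((21 / 20 : ℝ) ^ 8 / 16) ^ (j + 1) ≤ 1 := pow_le_one₀ (by norm_num) (by norm_num)
    have a3 : q.C * η ^ 2 ≤ q.C * η := mul_le_mul_of_nonneg_left (by nlinarith) (by linarith)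
    rw [a1]
    exact (mul_le_of_le_one_right (by positivity) a2).trans (by linarith)

theorem t_f_flow (h_abs : S_f_abs) (h_slave : S_f_slave) : S_f_flow := by
  intro q t0 η ν ρ m p y rg sc
  obtain ⟨n0, -, -, n3, -⟩ := fflow_num rg sc
  have e0 := sc.hη.1
  have a5 : 48 * q.C ^ 2 * η * η ≤ 1 * η := mul_le_mul_of_nonneg_right n3 e0.le
  have hw : 0 < 32 * q.C ^ 2 * η ^ 2 := by positivity
  have hI : ∀ s, ∀ x ∈ Set.Icc (p.lam s - 32 * q.C ^ 2 * η ^ 2) (p.lam s + 32 * q.C ^ 2 * η ^ 2),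
      0 ≤ x ∧ x ≤ 3 * η := fun s x hx => by
    obtain ⟨l1, l2⟩ := sc.lam s
    obtain ⟨x1, x2⟩ := hx
    constructor <;> nlinarith
  have z1 : ∀ s, (q.xs m p 0).lam s = p.lam s := fun _ => rfl
  have z2 : ∀ s mu, (q.gau mu 0).lam s = mu := fun _ _ => rfl
  obtain ⟨hG, hS⟩ := h_abs (q.GdAt t0 η ν ρ m p)
    (fun s j mu => (q.xs m p j).lam s - (q.gau mu j).lam s)
    (fun s => p.lam s - 32 * q.C ^ 2 * η ^ 2) (fun s => p.lam s + 32 * q.C ^ 2 * η ^ 2) _ hw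
    (fun s => by linarith)
    (fun s j => continuousOn_const.sub
      ((continuousOn_iff_continuous_restrict.2 ((fflow_cont rg sc j).lam s)).mono (hI s)))
    (fflow_zero rg sc)
    (fun s => by
      simp only [z1, z2]
      exact ⟨by ring, by ring, fun x hx => abs_le.2 ⟨by linarith [hx.2], by linarith [hx.1]⟩⟩)
    (fun s j x hx h => fflow_inc h_slave rg sc (hI s x hx).1 (hI s x hx).2 s j (h j le_rfl).1
      fun i hi => h i hi.le)
    (fun j h1 h2 => fflow_succ h_slave rg sc j h1 fun s => by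
      obtain ⟨x, hx, h⟩ := h2 s
      exact ⟨x, (hI s x hx).1, (hI s x hx).2, h⟩)
  choose f hf hf' using hS
  refine ⟨fun s => if s = 2 then f 1 else f s, rg, sc, hG, by simp, fun s => ?_⟩
  by_cases hs : s = 2
  · subst hs
    obtain ⟨h0, h1⟩ := hI 1 _ (hf 1)
    simp only [if_true]
    refine ⟨h0, h1, fun j => ?_⟩
    unfold Par.ShAt
    rw [← (hG j).str.lam12, ← (fflow_gau rg sc h0 h1 j).str.lam12]
    exact hf' 1 j
  · simp only [if_neg hs]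
    exact ⟨(hI s _ (hf s)).1, (hI s _ (hf s)).2, hf' s⟩

end Pool.Agent.Lib.MP_9cc147_pr.Cx
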