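import Pool.Agent.Lib.MP_9cc147_pr.Cx.K0

/-! A test field of energy one. -/

open scoped Classical
open Finset Real

namespace Pool.Agent.Lib.MP_9cc147_pr.Cx

theorem fg_nsq (a : ℝ) : ‖(a : ℂ)‖ ^ 2 = a ^ 2 := by rw [Complex.norm_real, norm_eq_abs, sq_abs]

theorem fg_n1 (θ : P → ℝ) (x y : ℤ) : n1 (cf θ) (x, y) = 1 / 2 *
    ((θ (x + 1, y + 1) - θ (x + 1, y)) ^ 2 + (θ (x, y + 1) - θ (x + 1, y + 1)) ^ 2 +
      (θ (x, y) - θ (x, y + 1)) ^ 2 + (θ (x + 1, y) - θ (x, y)) ^ 2) := by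
  simp only [n1, dg, cf, ← Complex.ofReal_sub, fg_nsq, Fin.sum_univ_four]
  simp [crn]

theorem fg_n2 (θ : P → ℝ) (x y : ℤ) : n2 (cf θ) (x, y) =
    (θ (x + 1, y) - 2 * θ (x, y) + θ (x - 1, y)) ^ 2 +
      (θ (x, y + 1) - 2 * θ (x, y) + θ (x, y - 1)) ^ 2 +
      (θ (x + 1, y + 1) - θ (x + 1, y) - θ (x, y + 1) + θ (x, y)) ^ 2 := by
  rw [← fg_nsq (_ + θ (x - 1, y)), ← fg_nsq (_ + θ (x, y - 1)), ← fg_nsq (_ + θ (x, y))]
  simp [n2, cf]

theorem fg_En (θ : P → ℝ) (S : Finset P) : En (cf θ) S = (∑ x ∈ S, n1 (cf θ) x : ℝ) := by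
  simp only [En, n1, dg, cf, ← Complex.ofReal_sub, fg_nsq]
  push_cast
  rfl

theorem fg_sin {n : ℕ} (hn : 20 ≤ n) : ∃ s : ℤ → ℝ, (∀ x, s (-x) = -s x) ∧
    (∀ x, s (x + 2 * n) = s x) ∧ (∀ x, s x ^ 2 ≤ 1) ∧ (∀ x, (s (x + 1) - s x) ^ 2 ≤ 16 / n ^ 2) ∧
    (∀ x, (s (x + 1) - 2 * s x + s (x - 1)) ^ 2 ≤ 256 / n ^ 4) ∧
    1 / 50 ≤ (∑ x ∈ Ico (0 : ℤ) n, (s (x + 1) - s x) ^ 2) * ∑ y ∈ Ico (0 : ℤ) n, s y ^ 2 := by
  have n0 : (0 : ℝ) < n := by positivity
  have hp : π / n ≤ 4 / n := by gcongr; exact pi_le_four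
  have p0 : 0 ≤ π / n := by positivity
  refine ⟨fun x => sin (π / n * x), fun x => by simp, fun x => ?_, fun x => sin_sq_le_one _,
    fun x => ?_, fun x => ?_, ?_⟩
  · beta_reduce
    rw [← sin_add_two_pi (π / n * x)]
    congr 1
    push_cast
    field_simp
  · have := abs_sin_sub_sin_le (π / n * (x + 1 : ℤ)) (π / n * x)
    rw [show π / n * (x + 1 : ℤ) - π / n * x = π / n by push_cast; ring, abs_of_nonneg p0] at this
    rw [← sq_abs, show (16 : ℝ) / n ^ 2 = (4 / n) ^ 2 by ring]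
    gcongr
    exact this.trans hp
  · have e : sin (π / n * (x + 1 : ℤ)) - 2 * sin (π / n * x) + sin (π / n * (x - 1 : ℤ)) =
        -(2 * (1 - cos (π / n))) * sin (π / n * x) := by
      push_cast
      rw [mul_add, mul_sub, mul_one, sin_add, sin_sub]
      ring
    have h1 := one_sub_sq_div_two_le_cos (x := π / n)
    have h2 := cos_le_one (π / n)
    have h3 : (π / n) ^ 2 ≤ (4 / n) ^ 2 := by gcongr
    rw [e, mul_pow, neg_sq, show (256 : ℝ) / n ^ 4 = ((4 / n) ^ 2) ^ 2 * 1 by ring]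
    gcongr
    · linarith
    · exact sin_sq_le_one _
  · have sub : ∀ (T : Finset ℕ) (f : ℤ → ℝ), (∀ x, 0 ≤ f x) → (∀ i ∈ T, i < n) →
        ∑ i ∈ T, f i ≤ ∑ x ∈ Ico (0 : ℤ) n, f x := fun T f hf hT => by
      rw [← sum_image (g := (Nat.cast : ℕ → ℤ)) (s := T) fun _ _ _ _ h => by exact_mod_cast h]
      refine sum_le_sum_of_subset_of_nonneg (fun x hx => ?_) fun _ _ _ => hf _
      obtain ⟨i, hi, rfl⟩ := mem_image.1 hx
      have := hT i hi
      rw [mem_Ico]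
      omega
    obtain ⟨k, k1, k2⟩ : ∃ k : ℕ, n ≤ 5 * k ∧ 4 * k ≤ n := ⟨n / 4, by omega, by omega⟩
    have k0 : (0 : ℝ) < k := by exact_mod_cast (by omega : 0 < k)
    have lo : ∀ i : ℕ, k ≤ i → i ≤ 2 * k → (2 / 5 : ℝ) ^ 2 ≤ sin (π / n * (i : ℤ)) ^ 2 := by
      intro i h1 h2
      have a1 : (n : ℝ) ≤ 5 * i := by exact_mod_cast (by omega : n ≤ 5 * i)
      have a2 : (2 * i : ℝ) ≤ n := by exact_mod_cast (by omega : 2 * i ≤ n)
      have := mul_le_sin (x := π / n * i) (by positivity) (by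
        rw [div_mul_eq_mul_div, div_le_div_iff₀ n0 two_pos]; nlinarith [pi_pos])
      have e : 2 / π * (π / n * i) = 2 * i / n := by field_simp
      have l : (2 / 5 : ℝ) ≤ 2 * i / n := by rw [div_le_div_iff₀ (by norm_num) n0]; linarith
      rw [Int.cast_natCast]
      gcongr
      linarith
    have h1 := sub (range k) (fun x => (sin (π / n * (x + 1 : ℤ)) - sin (π / n * x)) ^ 2)
      (fun _ => sq_nonneg _) fun i hi => by have := mem_range.1 hi; omega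
    have h2 := sub (Ico k (2 * k)) (fun x => sin (π / n * x) ^ 2) (fun _ => sq_nonneg _)
      fun i hi => by have := mem_Ico.1 hi; omega
    have h3 := sq_sum_le_card_mul_sum_sq (s := range k)
      (f := fun i : ℕ => sin (π / n * ((i : ℤ) + 1 : ℤ)) - sin (π / n * (i : ℤ)))
    have h4 := sum_range_sub (fun i : ℕ => sin (π / n * (i : ℤ))) k
    simp only [Nat.cast_succ (R := ℤ), Nat.cast_zero, Int.cast_zero, mul_zero, sin_zero,
      sub_zero] at h4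
    rw [h4, card_range] at h3
    have h5 := card_nsmul_le_sum (Ico k (2 * k)) (fun i : ℕ => sin (π / n * (i : ℤ)) ^ 2) _
      fun i hi => lo i (mem_Ico.1 hi).1 (mem_Ico.1 hi).2.le
    rw [Nat.card_Ico, show 2 * k - k = k by omega, nsmul_eq_mul] at h5
    have h6 := (lo k le_rfl (by omega)).trans (h3.trans (mul_le_mul_of_nonneg_left h1 k0.le))
    have h7 := h5.trans h2
    have h8 : 0 ≤ ∑ x ∈ Ico (0 : ℤ) n, (sin (π / n * (x + 1 : ℤ)) - sin (π / n * x)) ^ 2 :=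
      sum_nonneg fun _ _ => sq_nonneg _
    nlinarith [mul_le_mul_of_nonneg_left h7 h8]

theorem fg_theta {n l m : ℕ} (hn : n = l * m) (hl : 20 ≤ l) (hm : 1 ≤ m) : ∃ θ : P → ℝ, Dir n θ ∧
    ∑ x ∈ box n, n1 (cf θ) x = 1 ∧ ∑ B ∈ box m, Nf l (cf θ) (nb l B) ≤ 10 ^ 6 := by
  have hln : l ≤ n := hn ▸ Nat.le_mul_of_pos_right l hm
  obtain ⟨s, s1, s2, s3, s4, s5, s6⟩ := fg_sin (n := n) (by omega)
  have n0 : (0 : ℝ) < n := by exact_mod_cast (by omega : 0 < n)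
  set E := ∑ x ∈ box n, n1 (cf fun p => s p.1 * s p.2) x with hE
  have E1 : 1 / 100 ≤ E := by
    rw [sum_mul_sum, ← sum_product'] at s6
    have : ∑ x ∈ box n, (s (x.1 + 1) - s x.1) ^ 2 * s x.2 ^ 2 ≤ ∑ x ∈ box n,
        2 * n1 (cf fun p => s p.1 * s p.2) x := sum_le_sum fun ⟨x, y⟩ _ => by
      rw [fg_n1]
      nlinarith [sq_nonneg (s (x + 1) * s (y + 1) - s (x + 1) * s y),
        sq_nonneg (s x * s (y + 1) - s (x + 1) * s (y + 1)), sq_nonneg (s x * s y - s x * s (y + 1))]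
    rw [← mul_sum, ← hE] at this
    have := s6.trans this
    linarith
  have E0 : 0 < E := by linarith
  obtain ⟨c, hc⟩ : ∃ c : ℝ, c ^ 2 = E⁻¹ := ⟨√E⁻¹, sq_sqrt (by positivity)⟩
  have c1 : c ^ 2 ≤ 100 := by rw [hc, inv_le_comm₀ E0 (by norm_num)]; linarith
  refine ⟨fun p => c * (s p.1 * s p.2), fun p => by simp [s1, s2], ?_, ?_⟩
  · have : ∀ x, n1 (cf fun p => c * (s p.1 * s p.2)) x =
        c ^ 2 * n1 (cf fun p => s p.1 * s p.2) x := fun ⟨x, y⟩ => by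
      rw [fg_n1, fg_n1]; ring
    simp only [this]
    rw [← mul_sum, ← hE, hc, inv_mul_cancel₀ E0.ne']
  · have pt : ∀ p, n1 (cf fun p => c * (s p.1 * s p.2)) p +
        (l : ℝ) ^ 2 * n2 (cf fun p => c * (s p.1 * s p.2)) p ≤ 100 * (800 / n ^ 2) := by
      rintro ⟨x, y⟩
      have m1 : ∀ {a b u : ℝ}, a ^ 2 ≤ 1 → b ^ 2 ≤ u → a ^ 2 * b ^ 2 ≤ u := fun ha hb =>
        (mul_le_of_le_one_left (sq_nonneg _) ha).trans hb
      have a1 : n1 (cf fun p => c * (s p.1 * s p.2)) (x, y) ≤ c ^ 2 * (32 / n ^ 2) := by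
        rw [fg_n1]
        have := add_le_add (add_le_add (m1 (s3 (x + 1)) (s4 y)) (m1 (s3 (y + 1)) (s4 x)))
          (add_le_add (m1 (s3 x) (s4 y)) (m1 (s3 y) (s4 x)))
        have := mul_le_mul_of_nonneg_left this (sq_nonneg c)
        refine le_trans (le_of_eq ?_) ((mul_le_mul_of_nonneg_left this one_half_pos.le).trans_eq ?_)
        all_goals ring
      have a2 : n2 (cf fun p => c * (s p.1 * s p.2)) (x, y) ≤ c ^ 2 * (768 / n ^ 4) := by
        rw [fg_n2]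
        have := add_le_add (add_le_add (m1 (s3 y) (s5 x)) (m1 (s3 x) (s5 y)))
          (mul_le_mul (s4 x) (s4 y) (sq_nonneg _) (by positivity))
        refine le_trans (le_of_eq ?_) ((mul_le_mul_of_nonneg_left this (sq_nonneg c)).trans_eq ?_)
        all_goals ring
      have a3 : (l : ℝ) ^ 2 ≤ n ^ 2 := by gcongr
      have a4 : (l : ℝ) ^ 2 * (c ^ 2 * (768 / n ^ 4)) ≤ n ^ 2 * (100 * (768 / n ^ 4)) := by gcongr
      have a5 : c ^ 2 * (32 / n ^ 2) ≤ 100 * (32 / n ^ 2) := by gcongr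
      have a6 : (n : ℝ) ^ 2 * (100 * (768 / n ^ 4)) + 100 * (32 / n ^ 2) = 100 * (800 / n ^ 2) := by
        field_simp; ring
      linarith [mul_le_mul_of_nonneg_left a2 (sq_nonneg (l : ℝ))]
    have cd : ∀ B, (nb l B).card ≤ (2 * l) * (2 * l) := fun B => by
      simp only [nb, fat, card_product, Int.card_Icc, add_mul, one_mul]
      exact Nat.mul_le_mul (by omega) (by omega)
    have cb : (box m).card = m * m := by simp [box]
    have := sum_le_card_nsmul (box m) (fun B => Nf l (cf fun p => c * (s p.1 * s p.2)) (nb l B))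
      (((2 * l) * (2 * l) : ℕ) * (100 * (800 / n ^ 2))) fun B _ =>
        (sum_le_card_nsmul _ _ _ fun p _ => pt p).trans (by
          rw [nsmul_eq_mul]; gcongr; exact cd B)
    refine this.trans ?_
    rw [cb, nsmul_eq_mul]
    have e : (n : ℝ) = l * m := by exact_mod_cast hn
    have : ((m * m : ℕ) : ℝ) * (((2 * l) * (2 * l) : ℕ) * (100 * (800 / n ^ 2))) = 320000 := by
      push_cast
      field_simp
      rw [e]
      ring
    rw [this]
    norm_num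

end Pool.Agent.Lib.MP_9cc147_pr.Cx
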