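import Pool.Agent.Lib.MP_9cc147_pr.Cx.K0

/-! The statements about one step, at a fixed choice of the constants. -/

open scoped Classical Topology ComplexConjugate
open Finset MeasureTheory ProbabilityTheory Filter

noncomputable section
namespace Pool.Agent.Lib.MP_9cc147_pr.Cx

def B_gpre (q : Par) : Prop := (Par.PreC fun τ : ℝ => q.gPre τ) ∧ ∃ y, ∀ t0 mu : ℝ, 0 ≤ mu →
  q.PreS t0 (gaussianReal 0 1) (q.gPre mu) ∧ ∀ β, mu ≤ β →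
    q.PreB t0 (gaussianReal 0 1) (q.gPre mu) β (β ^ 2) 0 3 y
def B_init (q : Par) : Prop := ∀ (t0 : ℝ) (m : Measure ℝ) [IsProbabilityMeasure m] (p : Par.Pre)
  (β1 β2 ν ρ : ℝ) y, 0 < t0 → t0 ≤ 1 → m.map (fun x => -x) = m → q.PreS t0 m p →
  q.PreB t0 m p β1 β2 ν ρ y → 0 ≤ β2 → β2 ≤ β1 → β1 ≤ q.ε → 0 ≤ ν → 1 ≤ ρ → ν * ρ ^ 8 ≤ β2 →
  q.Str t0 0 (q.init (mu0 m) p) ∧ q.Bnd t0 0 (q.init (mu0 m) p) (q.C * β1) ν ρ ∧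
  (∀ s b, Par.ok b 0 → q.Dif t0 0 (q.init (mu0 m) p) zero s b (intr (q.m b 0)) (q.C * β2)) ∧
  (β1 ^ 2 ≤ β2 → (∀ b z Θ ω s B, p.I b z Θ ω s B = (q.gPre (p.lam s)).I b z Θ ω s B) →
    (∀ b s B, p.c b s B = 1) →
    ∀ s b, Par.ok b 0 → q.Dif t0 0 (q.init (mu0 m) p) zero s b (box (q.m b 0)) (q.C * β2)) ∧
  ∀ b z θ, Par.ok b 0 → ‖z‖ ≤ t0 → Dir (q.n b) θ →
    (∀ s, ∀ B ∈ box (q.m b 0), q.d0 (mu0 m) p b s B = q.D0 (mu0 m) p b s B) →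
    q.Wpre (mu0 m) p b z (bg (q.n b) z + cf θ) =
      Complex.exp (-∑ B ∈ box (q.m b 0), q.e0 (mu0 m) p b 0 B) *
        q.WW 0 (q.init (mu0 m) p) b z (bg (q.n b) z + cf θ)
def B_initC (q : Par) : Prop := ∀ (T : Type) [TopologicalSpace T] [FirstCountableTopology T]
  (t0 : ℝ) (m : Measure ℝ) [IsProbabilityMeasure m] (p : T → Par.Pre) (β1 β2 ν ρ : ℝ) y,
  0 < t0 → t0 ≤ 1 → (∀ τ, q.PreS t0 m (p τ) ∧ q.PreB t0 m (p τ) β1 β2 ν ρ y) → 0 ≤ β2 → β2 ≤ β1 →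
  β1 ≤ q.ε → 0 ≤ ν → 1 ≤ ρ → ν * ρ ^ 8 ≤ β2 → Par.PreC p → q.Cont 0 fun τ => q.init (mu0 m) (p τ)
def B_ee (q : Par) : Prop := ∀ t0 j x y α ν ρ ν' ρ' s (δ : ℝ), q.Good t0 j x α ν ρ →
  q.Good t0 j y α ν' ρ' → 0 ≤ δ →
  (q.Dif t0 j x y s (1, j + 1) q.ref δ →
    |q.dl j ((x.a (1, j + 1) 0).K s) - q.dl j ((y.a (1, j + 1) 0).K s)| ≤ δ) ∧
  ∀ b z, ∀ B ∈ box (q.m b j), Par.ok b (j + 1) → ‖z‖ ≤ t0 →
    q.Dif t0 j x y s b (near 4 (box (q.m b j)) {B}) δ →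
    ‖q.e j x b z s B - q.e j y b z s B‖ ≤ q.C * (δ + |x.lam s - y.lam s|) ∧
    ‖q.xt b j z (q.lam' j x s) B - q.xt b j z (q.lam' j y s) B‖ ≤
      q.C * |q.lam' j x s - q.lam' j y s|
def B_esy (q : Par) : Prop := ∀ t0 j x α ν ρ, q.Good t0 j x α ν ρ →
  (∀ b s, ∀ B ∈ box (q.m b j), Par.ok b (j + 1) → (q.e j x b 0 s B).im = 0 ∧
    Hz t0 (fun z => q.et j x b z s B) ∧ (∀ z, q.et j x b (-z) s B = q.et j x b z s B) ∧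
    ∀ z, ¬ ab (q.m b (j + 1)) (par q.L B) → q.et j x b z s B = q.e j x b 0 s B) ∧
  (∀ b z s, ∀ B ∈ box (q.m b j), Par.ok b (j + 1) →
    (∀ B', ab (q.m b j) B' → ¬ nr 5 B B') → q.e j x b z s B = q.e j x b 0 s B) ∧
  ∀ b b' g c s, ∀ B ∈ box (q.m b j), Par.ok b j → Par.ok b' j →
    Mv (q.m b j) (q.m b' j) g c (near 4 (box (q.m b j)) {B}) →
    q.e j x b' 0 (pm g c s) (fm g c B) = q.e j x b 0 s B
def B_str (q : Par) : Prop := ∀ t0 j x α ν ρ, q.Good t0 j x α ν ρ → q.Str t0 (j + 1) (q.step j x)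
def B_con (q : Par) : Prop := ∀ (T : Type) [TopologicalSpace T] [FirstCountableTopology T]
  t0 j (x : T → State) α ν ρ, (∀ τ, q.Good t0 j (x τ) α ν ρ) → q.Cont j x →
  q.Cont (j + 1) (fun τ => q.step j (x τ)) ∧
    ∀ b s, ∀ B ∈ box (q.m b j), Par.ok b (j + 1) → Continuous fun τ => q.e j (x τ) b 0 s B
def B_k0 (q : Par) : Prop := ∀ t0 j x y α ν ρ ν' ρ' s (δ : ℝ) b z U, q.Good t0 j x α ν ρ →
  q.Good t0 j y α ν' ρ' → 0 ≤ δ → Par.ok b (j + 1) → ‖z‖ ≤ t0 → Pm (q.m b (j + 1)) U →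
  q.Dif t0 j x y s (1, j + 1) q.ref δ →
  q.Dif t0 j x y s b (near 8 (box (q.m b j)) (under q.L U)) δ →
  q.BdJ b (j + 1) z U (fun Θ => q.K0 j x b z s U Θ - q.K0 j y b z s U Θ)
    (δ / 16 + q.C * α * |x.lam s - y.lam s|)
def B_k1 (q : Par) : Prop := ∀ t0 j x α ν ρ, q.Good t0 j x α ν ρ →
  ∀ b z, Par.ok b (j + 1) → ‖z‖ ≤ t0 →
  (∀ s, ∀ B ∈ box (q.m b (j + 1)), if corner (q.m b (j + 1)) B then
    Real.exp |(q.d' j x b z s B).re| ≤ ρ * (21 / 20) else ‖q.d' j x b z s B‖ ≤ q.ε) ∧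
  ∀ U, Pm (q.m b (j + 1)) U →
    (∀ σ, q.BdJ b (j + 1) z U (((q.step j x).a b z).N U σ)
      (ν / 16 * ρ ^ ncor (q.m b (j + 1)) U)) ∧
    ∀ s, q.BdJ b (j + 1) z U (fun Θ => ((q.step j x).a b z).K s U Θ - q.K0 j x b z s U Θ)
      (q.C * ν * ρ ^ 8)
def B_sid (q : Par) : Prop := ∀ t0 j x α ν ρ, q.Good t0 j x α ν ρ →
  ∀ b z θ, Par.ok b (j + 1) → ‖z‖ ≤ t0 → Dir (q.n b) θ →
  (∀ s, ∀ B ∈ box (q.m b (j + 1)), q.d' j x b z s B = q.D' j x b z s B) →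
  q.Ez b j (q.WW j x b z) (bg (q.n b) z + cf θ) =
    Complex.exp (-∑ B ∈ box (q.m b j), q.et j x b z 0 B) *
      q.WW (j + 1) (q.step j x) b z (bg (q.n b) z + cf θ)
def B_fin (q : Par) : Prop := ∀ t0 b x α ν ρ, Par.ok b b.2 → q.Good t0 b.2 x α ν ρ →
  (∀ s, Hz t0 (fun z => q.fin1 x b z s) ∧ (q.fin1 x b 0 s).im = 0 ∧
    ∀ z, ‖z‖ ≤ t0 → ‖q.fin1 x b z s - 1‖ ≤ q.C * α) ∧
  Hz t0 (q.fin2 x b) ∧ (q.fin2 x b 0).im = 0 ∧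
  (∀ z, ‖z‖ ≤ t0 → ‖q.fin2 x b z‖ ≤ q.C * ν * ρ ^ 4 ∧ q.finW x b (-z) = q.finW x b z) ∧
  ∀ s θ, Dir (q.n b) θ → q.κ * ∑ B ∈ box (q.m b b.2), Nf (q.l b.2) (cf θ) (nb (q.l b.2) B) ≤ 1 →
    ‖W1 (box (q.m b b.2)) (fun B => q.Ih b b.2 0 (x.lam s) B (cf θ))
        (fun X => (x.a b 0).K s X (cf θ)) -
      Complex.exp (-(x.lam s / 2 : ℂ) * En (cf θ) (box (q.n b)))‖ ≤ 100 * q.L ^ 2 / q.A * α
def B_gau (q : Par) : Prop := ∀ t0 mu β : ℝ, 0 < t0 → t0 ≤ 1 → 0 ≤ mu → mu ≤ β →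
  q.C ^ 3 * β ≤ q.ε → (∀ j, q.Good t0 j (q.gau mu j) (3 * β) 0 3 ∧
    (∀ b z s, ((q.gau mu j).a b z).K s = ((q.gau mu j).a b z).K 0 ∧
      (q.gau mu j).lam s = (q.gau mu j).lam 0) ∧
    ∀ s b, Par.ok b j → q.Dif t0 j (q.gau mu j) zero s b (box (q.m b j)) (q.C ^ 2 * β ^ 2)) ∧
  ∀ b z, Par.ok b b.2 → ‖z‖ ≤ t0 →
    Complex.exp (-∑ B ∈ box (q.m b 0), q.e0 PP (q.gPre mu) b 0 B -
      ∑ j ∈ range b.2, ∑ B ∈ box (q.m b j), q.et j (q.gau mu j) b z 0 B) *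
        q.fin1 (q.gau mu b.2) b z 0 =
    Complex.exp (-(mu / 2 : ℂ) * (z ^ 2 * Rt (q.n b) - En (bg (q.n b) z) (cell q.L (0, 0)) -
      En (bg (q.n b) z) (cell q.L ((q.m b 0 : ℤ) - 1, (q.m b 0 : ℤ) - 1)))) *
      ((1 + mu) ^ (-((q.n b : ℝ) - 1) ^ 2 / 2) : ℝ)

/-- everything the flow module uses about the constants -/
structure RG (q : Par) : Prop where
  L : 100 ≤ q.L
  odd : Odd q.L
  A : 1 ≤ q.A
  C : (q.L : ℝ) ^ 2 ≤ q.C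
  ε : 0 < q.ε ∧ q.ε ≤ 1 / 100
  gpre : B_gpre q
  init : B_init q
  initC : B_initC q
  ee : B_ee q
  esy : B_esy q
  str : B_str q
  con : B_con q
  k0 : B_k0 q
  k1 : B_k1 q
  sid : B_sid q
  fin : B_fin q
  gau : B_gau q
  e0 : S_e0
  zel : S_zel
  u : S_u

theorem f_rg (h_gpre : S_gpre) (h_init : S_init) (h_initC : S_initC) (h_ee : S_ee) (h_esy : S_esy) (h_str : S_str)
    (h_con : S_con) (h_k0 : S_k0) (h_k1 : S_k1) (h_sid : S_sid) (h_fin : S_fin) (h_gau : S_gau)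
    (h_e0 : S_e0) (h_zel : S_zel) (h_u : S_u) : ∀ᶠ q in FP, RG q := by
  filter_upwards [fp_L 100, fp_A fun _ => 1, fp_C fun L _ _ _ => (L : ℝ) ^ 2,
    fp_ε (fun _ _ _ _ _ => 1 / 100) (fun _ _ _ _ _ => by norm_num),
    h_gpre, h_init, h_initC, h_ee, h_esy, h_str, h_con, h_k0, h_k1, h_sid, h_fin, h_gau]
    with q h1 h2 h3 h4 g_gpre g_init g_initC g_ee g_esy g_str g_con g_k0 g_k1 g_sid g_fin g_gau
  exact ⟨h1.2, h1.1, h2, h3, h4, g_gpre, g_init, g_initC, g_ee, g_esy, g_str, g_con, g_k0, g_k1, g_sid, g_fin, g_gau,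
    h_e0, h_zel, h_u⟩

end Pool.Agent.Lib.MP_9cc147_pr.Cx
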