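import Pool.Agent.Lib.MP_9cc147_pr.Cx.F.S
import Pool.Agent.Lib.MP_9cc147_pr.Cx.F.Kit

/-! At the tie point the clamp is idle. -/

open scoped Classical Topology ComplexConjugate
open Finset MeasureTheory ProbabilityTheory Filter

noncomputable section
namespace Pool.Agent.Lib.MP_9cc147_pr.Cx

theorem fidle_tail {r M a0 : ℝ} {A : ℕ → ℝ} (hr : 2 ≤ r) (hA : ∀ i, |A i| ≤ M)
    (h : a0 + ∑' i, A i / r ^ i = 0) (j : ℕ) :
    |r ^ j * a0 + ∑ i ∈ range j, r ^ (j - i) * A i| ≤ 2 * M := by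
  have r0 : 0 < r := by linarith
  have M0 : 0 ≤ M := (abs_nonneg _).trans (hA 0)
  have bd : ∀ k i : ℕ, ‖A (i + k) / r ^ i‖ ≤ M * (1 / 2) ^ i := by
    intro k i
    rw [Real.norm_eq_abs, abs_div, abs_of_pos (pow_pos r0 i), one_div, inv_pow, ← div_eq_mul_inv]
    gcongr
    exact hA _
  have hs : HasSum (fun i : ℕ => M * (1 / 2 : ℝ) ^ i) (M * 2) := hasSum_geometric_two.mul_left M
  have sm : Summable fun i => A i / r ^ i := Summable.of_norm_bounded hs.summable (bd 0)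
  have e := sm.sum_add_tsum_nat_add j
  have e2 : r ^ j * ∑' i, A (i + j) / r ^ (i + j) = ∑' i, A (i + j) / r ^ i := by
    rw [← tsum_mul_left]; congr 1; ext i; rw [pow_add]; field_simp
  have e3 : ∑ i ∈ range j, r ^ (j - i) * A i = r ^ j * ∑ i ∈ range j, A i / r ^ i := by
    rw [mul_sum]
    refine sum_congr rfl fun i hi => ?_
    rw [pow_sub₀ _ r0.ne' (mem_range.1 hi).le]; ring
  have t := tsum_of_norm_bounded hs (bd j)
  rw [e3, ← mul_add, show a0 + ∑ i ∈ range j, A i / r ^ i = -∑' i, A (i + j) / r ^ (i + j) by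
    linarith, mul_neg, abs_neg, e2]
  rw [Real.norm_eq_abs] at t
  linarith

theorem fidle_one (h1 : S_f_sum1) {N m' : ℕ} {T : Lab → P → ℝ} {Φ : Lab → ℕ → ℝ} {s : Lab} {p : ℝ}
    {B' : P} (hN : 7 ≤ N) (hB : B' ∈ box m') (hc : ¬ corner m' B') (hT : Can (N * m') T Φ)
    (hs : s = 1 ∨ s = 2) (hp : ∀ d ≤ 6, |Φ 1 d - Φ 2 d| ≤ 2 * p) :
    |∑ B ∈ cell N B', (T s B - T 0 B) - ((N : ℝ) ^ 2 * (av Φ 1 6 - av Φ 0 6) +
      (if deep 1 m' B' then 0 else 1) * (N * (Gs Φ 1 - Gs Φ 0)))| ≤ 8 * p := by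
  have s0 : Equiv.swap (1 : Lab) 2 0 = 0 := by decide
  have a2 : ∀ d, av Φ s d = av Φ 1 d := by
    intro d
    rcases hs with rfl | rfl
    · rfl
    · simp only [av, Equiv.swap_apply_left, Equiv.swap_apply_right]; ring
  have g2 : Gs Φ s = Gs Φ 1 := by simp only [Gs, a2]
  have k0 := h1 N m' T Φ 0 0 B' hN hB hc hT fun d _ => by rw [s0]; simp
  have k1 := h1 N m' T Φ s p B' hN hB hc hT fun d hd => by
    rcases hs with rfl | rfl
    · rw [Equiv.swap_apply_left]; exact hp d hd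
    · rw [Equiv.swap_apply_right, abs_sub_comm]; exact hp d hd
  rw [a2, g2] at k1
  rw [mul_zero, abs_nonpos_iff] at k0
  rw [sum_sub_distrib]
  refine le_trans (le_of_eq (congrArg abs ?_)) k1
  split_ifs at k0 ⊢ <;> linarith

theorem fidle_av {Φ : Lab → ℕ → ℝ} {M : ℝ} (h : ∀ s, ∀ d ≤ 6, |Φ s d| ≤ M) :
    |av Φ 1 6 - av Φ 0 6| ≤ 2 * M ∧ |Gs Φ 1 - Gs Φ 0| ≤ 24 * M := by
  have a : ∀ s, ∀ d ≤ 6, |av Φ s d| ≤ M := by
    intro s d hd
    have h1 := abs_le.1 (h s d hd)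
    have h2 := abs_le.1 (h (Equiv.swap 1 2 s) d hd)
    unfold av
    exact abs_le.2 ⟨by linarith, by linarith⟩
  have g : ∀ s, |Gs Φ s| ≤ 12 * M := by
    intro s
    refine (abs_sum_le_sum_abs _ _).trans ((sum_le_card_nsmul _ _ (2 * M) fun d hd => ?_).trans ?_)
    · refine (abs_sub _ _).trans ?_
      linarith [a s d (mem_range.1 hd).le, a s 6 le_rfl]
    · rw [card_range, nsmul_eq_mul]; push_cast; linarith
  exact ⟨(abs_sub _ _).trans (by linarith [a 1 6 le_rfl, a 0 6 le_rfl]),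
    (abs_sub _ _).trans (by linarith [g 1, g 0])⟩

theorem fidle_rf {L d : ℕ} (hL : 100 ≤ L) (hd : d ≤ 6) :
    rf d ∈ box (L ^ 2) ∧ ¬ corner (L ^ 2) (rf d) := by
  have : 100 ≤ L ^ 2 := hL.trans (Nat.le_self_pow two_ne_zero L)
  generalize L ^ 2 = M at this
  simp only [f_mem_box, corner, rf]
  omega

theorem fidle_cor {L m : ℕ} (hL : 1 ≤ L) {B B' : P} (h : B ∈ cell L B')
    (hc : corner (L * m) B) : corner m B' := by
  rw [← (f_mem_cell hL).1 h]
  have key : ∀ x : ℤ, (x = 0 ∨ x = ((L * m : ℕ) : ℤ) - 1) → (x / L = 0 ∨ x / L = (m : ℤ) - 1) := by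
    rintro x (rfl | rfl)
    · exact .inl (by simp)
    · refine .inr ((f_div_iff hL _ _).2 ?_)
      have : (1 : ℤ) ≤ L := by exact_mod_cast hL
      push_cast
      constructor <;> nlinarith
  exact ⟨key _ hc.1, key _ hc.2⟩

theorem fidle_ab {m : ℕ} {B : P} (h : ab m B) : corner m B := by
  rcases h with rfl | rfl
  · exact ⟨.inl rfl, .inl rfl⟩
  · exact ⟨.inr rfl, .inr rfl⟩

theorem fidle_clamp {q : Par} {x : ℝ} (h : |x| ≤ q.ε) : q.clamp x = x := by
  rw [Par.clamp, min_eq_right (abs_le.1 h).2, max_eq_right (abs_le.1 h).1]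

/-- the energy difference of the phases on a block of scale `j` -/
def fidleF (q : Par) (m : Measure ℝ) (p : Par.Pre) (b : ℕ × ℕ) (s : Lab) (j : ℕ) (B' : P) : ℝ :=
  ∑ B ∈ cell (q.L ^ j) B', (q.T0 (mu0 m) p b s B - q.T0 (mu0 m) p b 0 B) +
    ∑ i ∈ range j, ∑ B ∈ cell (q.L ^ (j - i)) B',
      (q.Tj (q.xs m p i) i b s B - q.Tj (q.xs m p i) i b 0 B)

theorem fidle_succ {q : Par} (hL : 1 ≤ q.L) (m : Measure ℝ) (p : Par.Pre) (b : ℕ × ℕ) (s : Lab)
    (j : ℕ) (B' : P) : fidleF q m p b s (j + 1) B' = ∑ B ∈ cell q.L B', (fidleF q m p b s j B +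
      q.Tj (q.xs m p j) j b s B - q.Tj (q.xs m p j) j b 0 B) := by
  have hp : ∀ k, 1 ≤ q.L ^ k := fun k => Nat.one_le_pow _ _ hL
  simp only [fidleF, add_sub_assoc, sum_add_distrib]
  rw [sum_range_succ, Nat.add_sub_cancel_left, pow_one, pow_succ', f_sum_cell hL (hp j),
    add_assoc, sum_comm (s := cell q.L B') (t := range j)]
  congr 2
  refine sum_congr rfl fun i hi => ?_
  rw [show j + 1 - i = j - i + 1 by have := mem_range.1 hi; omega, pow_succ',
    f_sum_cell hL (hp _)]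

section
variable {q : Par} {t0 η ν ρ : ℝ} {m : Measure ℝ} {p : Par.Pre} {y : ℕ × ℕ → P → Om → ℝ}
  {mu : Lab → ℝ}

theorem fidle_e0 (H : q.Fl t0 η ν ρ m p y mu) {b : ℕ × ℕ} (hb : Par.ok b 0) {B : P}
    (hB : B ∈ box (q.m b 0)) : ∃ E : ℝ, |E| ≤ q.C ∧ ∀ s, q.e0 (mu0 m) p b s B =
      ((p.lam s / 2 * E - Real.log (p.c b s B) : ℝ) : ℂ) := by
  have := H.sc.prob
  obtain ⟨h1, h2, -⟩ := H.rg.e0 q m b B H.rg.L hb hB
  refine ⟨(E0 q (mu0 m) b B).re, ((Complex.abs_re_le_norm _).trans h2).trans H.rg.C, fun s => ?_⟩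
  have e : E0 q (mu0 m) b B = ((E0 q (mu0 m) b B).re : ℂ) := Complex.ext rfl h1
  show (p.lam s / 2 : ℂ) * E0 q (mu0 m) b B - _ = _
  rw [Complex.ofReal_sub, Complex.ofReal_mul, ← e]
  push_cast; rfl

theorem fidle_C (H : q.Fl t0 η ν ρ m p y mu) : 1 ≤ q.C ∧ 0 ≤ q.C * η ∧
    q.C * η ≤ q.C ^ 3 * η ∧ q.C ^ 3 * η ≤ q.C ^ 4 * η ∧ 10 ^ 7 * (q.C ^ 4 * η) ≤ q.ε := by
  have hL : (100 : ℝ) ≤ q.L := by exact_mod_cast H.rg.L
  have c : 1 ≤ q.C := by nlinarith [H.rg.C]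
  have h0 := H.sc.hη.1.le
  refine ⟨c, by positivity, mul_le_mul_of_nonneg_right (le_self_pow₀ c (by norm_num)) h0,
    mul_le_mul_of_nonneg_right (pow_le_pow_right₀ c (by norm_num)) h0, le_trans ?_ H.sc.hη.2⟩
  rw [mul_assoc]
  gcongr
  norm_num

theorem fidle_bd (h_est : S_f_est) (h_can : S_f_can) (h_sum1 : S_f_sum1)
    (H : q.Fl t0 η ν ρ m p y mu) (hT : q.Tie m p) (hC : q.Cs p (1000 * q.C ^ 4 * η))
    {b : ℕ × ℕ} {j : ℕ} (hb : Par.ok b (j + 1)) (s : Lab) {B' : P}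
    (hB : B' ∈ box (q.m b (j + 1))) (hc : ¬ corner (q.m b (j + 1)) B') :
    |fidleF q m p b s (j + 1) B'| ≤ q.ε := by
  obtain ⟨c1, c2, c3, c4, c5⟩ := fidle_C H
  have hL := H.rg.L
  have hL' : (100 : ℝ) ≤ q.L := by exact_mod_cast hL
  by_cases s0 : s = 0
  · subst s0; simp [fidleF, H.rg.ε.1.le]
  have hs : s = 1 ∨ s = 2 := by fin_cases s <;> simp_all
  have z0 : ‖(0 : ℂ)‖ ≤ t0 := by simpa using H.sc.t.1.le
  have hN : ∀ k, 7 ≤ q.L ^ (k + 1) := fun k =>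
    le_trans (by omega) (Nat.le_self_pow (Nat.succ_ne_zero k) q.L)
  have est := fun i (d : ℕ) (hd : d ≤ 6) s => h_est q t0 η ν ρ m p y mu H i (1, i + 1) 0 s (rf d)
    (by rw [q.m_ref]; exact (fidle_rf hL hd).1) (Par.ok_ref i) z0
  have av := fun i => fidle_av (Φ := q.Pj (q.xs m p i) i) (M := 8 * q.C ^ 3 * η) fun s d hd =>
    (Complex.abs_re_le_norm _).trans (est i d hd _).1
  have cl : ∀ (T : Lab → P → ℝ) (d : ℕ), |Ph T 1 d - Ph T 2 d| = |T 1 (rf d) - T 2 (rf d)| := by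
    intro T d
    simp only [Ph, cls]
    split_ifs
    · rfl
    · rw [Equiv.swap_apply_left, Equiv.swap_apply_right, abs_sub_comm]
  have p0 : ∀ d ≤ 6, |q.P0 (mu0 m) p 1 d - q.P0 (mu0 m) p 2 d| ≤ 2 * (1000 * q.C ^ 4 * η) := by
    intro d hd
    have r := fidle_rf hL hd
    rw [← q.m_ref 0] at r
    have o : Par.ok (1, 0 + 1) 0 := (Par.ok_ref 0).pred
    obtain ⟨E, -, hE⟩ := fidle_e0 H o r.1
    have l12 : p.lam 1 = p.lam 2 := (H.gd 0).str.lam12
    have a1 := abs_le.1 (hC _ o 1 _ r.1 r.2)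
    have a2 := abs_le.1 (hC _ o 2 _ r.1 r.2)
    rw [Par.P0, cl]
    simp only [Par.T0, zero_add] at hE a1 a2 ⊢
    rw [hE, hE, Complex.ofReal_re, Complex.ofReal_re, l12]
    exact abs_le.2 ⟨by linarith, by linarith⟩
  have pi : ∀ i, ∀ d ≤ 6, |q.Pj (q.xs m p i) i 1 d - q.Pj (q.xs m p i) i 2 d| ≤
      2 * (3 * q.C ^ 3 * η / 4 ^ i) := by
    intro i d hd
    have a1 := abs_le.1 ((Complex.abs_re_le_norm _).trans (est i d hd 1).2.1)
    have a2 := abs_le.1 ((Complex.abs_re_le_norm _).trans (est i d hd 2).2.1)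
    rw [H.sh.1] at a1
    rw [Complex.sub_re] at a1 a2
    rw [Par.Pj, cl]
    simp only [Par.Tj]
    exact abs_le.2 ⟨by linarith, by linarith⟩
  have can := h_can q t0 η ν ρ m p y mu H b
  have k0 := fidle_one h_sum1 (hN j) hB hc (T := q.T0 (mu0 m) p b) (by
    have := q.m_add (b := b) (i := 0) (j := j + 1) (by have := hb.2.1; omega)
    rw [zero_add] at this
    rw [← this]; exact (can.1 (hb.le (Nat.zero_le _))).1) hs p0
  have ki : ∀ i ∈ range (j + 1), _ := fun i hi => fidle_one h_sum1 (N := q.L ^ (j + 1 - i))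
    (by rw [show j + 1 - i = j - i + 1 by have := mem_range.1 hi; omega]; exact hN _) hB hc
    (T := q.Tj (q.xs m p i) i b) (by
      have hi := mem_range.1 hi
      have := q.m_add (b := b) (i := i) (j := j + 1 - i) (by have := hb.2.1; omega)
      rw [show i + (j + 1 - i) = j + 1 by omega] at this
      rw [← this]; exact (can.2 i (hb.le hi)).1) hs (pi i)
  have ks := (abs_sum_le_sum_abs _ _).trans (sum_le_sum ki)
  have geo : ∑ i ∈ range (j + 1), 8 * (3 * q.C ^ 3 * η / 4 ^ i) ≤ 48 * (q.C ^ 3 * η) := by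
    have g := sum_geometric_two_le (j + 1)
    calc _ ≤ ∑ i ∈ range (j + 1), 24 * (q.C ^ 3 * η) * (1 / 2) ^ i := by
          refine sum_le_sum fun i _ => ?_
          have : (1 / 4 : ℝ) ^ i ≤ (1 / 2) ^ i := by gcongr; norm_num
          calc _ = 24 * (q.C ^ 3 * η) * (1 / 4) ^ i := by rw [one_div, inv_pow]; ring
            _ ≤ _ := mul_le_mul_of_nonneg_left this (by linarith)
      _ ≤ _ := by rw [← mul_sum]; nlinarith
  have t1 := fidle_tail (r := (q.L : ℝ) ^ 2) (by nlinarith) (fun i => (av i).1)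
    (by simpa only [Par.ff, pow_mul] using hT.1) (j + 1)
  have t2 := fidle_tail (r := (q.L : ℝ)) (by linarith) (fun i => (av i).2) hT.2 (j + 1)
  rw [sum_sub_distrib, sum_add_distrib, ← mul_sum] at ks
  simp only [Nat.cast_pow, pow_right_comm (q.L : ℝ) _ 2] at k0 ks
  rw [abs_le] at k0 ks t1 t2 ⊢
  unfold fidleF
  split_ifs at k0 ks <;> constructor <;> linarith [k0.1, k0.2, ks.1, ks.2, t1.1, t1.2, t2.1, t2.2]
end

theorem t_f_idle (h_est : S_f_est) (h_can : S_f_can) (h_sum1 : S_f_sum1) : S_f_idle := by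
  intro q t0 η ν ρ m p y mu H hT hC
  obtain ⟨c1, c2, c3, c4, c5⟩ := fidle_C H
  have hL : 1 ≤ q.L := le_trans (by norm_num) H.rg.L
  have h0 : ∀ b, Par.ok b 0 → ∀ s, ∀ B ∈ box (q.m b 0), ¬ corner (q.m b 0) B →
      q.D0 (mu0 m) p b s B = (fidleF q m p b s 0 B : ℝ) ∧
        q.d0 (mu0 m) p b s B = (fidleF q m p b s 0 B : ℝ) := by
    intro b hb s B hB hc
    obtain ⟨E, h1, hE⟩ := fidle_e0 H hb hB
    have e : q.D0 (mu0 m) p b s B = (fidleF q m p b s 0 B : ℝ) := by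
      simp only [fidleF, pow_zero, f_cell_one, sum_singleton, range_zero, sum_empty, add_zero,
        Par.T0, Par.D0, hE, Complex.ofReal_re, ← Complex.ofReal_sub]
    refine ⟨e, ?_⟩
    rw [Par.d0, if_neg hc, e, Complex.ofReal_re, fidle_clamp]
    simp only [fidleF, pow_zero, f_cell_one, sum_singleton, range_zero, sum_empty, add_zero,
      Par.T0, hE, Complex.ofReal_re]
    have a1 := abs_le.1 (hC b hb s B hB hc)
    have a2 := abs_le.1 (hC b hb 0 B hB hc)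
    have a3 : |(p.lam s - p.lam 0) * E| ≤ η * q.C := by
      rw [abs_mul]
      refine mul_le_mul (abs_le.2 ⟨?_, ?_⟩) h1 (abs_nonneg _) H.sc.hη.1.le <;>
        linarith [H.sc.lam s, H.sc.lam 0]
    rw [abs_le] at a3 ⊢
    constructor <;> linarith [a3.1, a3.2]
  have step : ∀ j b, Par.ok b (j + 1) → ∀ s, (∀ B ∈ box (q.m b j), ¬ corner (q.m b j) B →
        ((q.xs m p j).a b 0).d s B = (fidleF q m p b s j B : ℝ)) →
      ∀ z, ∀ B' ∈ box (q.m b (j + 1)), ¬ corner (q.m b (j + 1)) B' →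
        q.D' j (q.xs m p j) b z s B' = (fidleF q m p b s (j + 1) B' : ℝ) ∧
        q.d' j (q.xs m p j) b z s B' = (fidleF q m p b s (j + 1) B' : ℝ) := by
    intro j b hb s ih z B' hB hc
    have e : ∀ z, q.D' j (q.xs m p j) b z s B' = (fidleF q m p b s (j + 1) B' : ℝ) := by
      intro z
      rw [fidle_succ hL, Complex.ofReal_sum, Par.D']
      refine sum_congr rfl fun B h => ?_
      have hm := q.m_succ hb.pred.2.1
      have b1 : B ∈ box (q.m b j) := by rw [hm]; exact f_cell_sub hL hB h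
      have b2 : ¬ corner (q.m b j) B := fun k => hc (fidle_cor hL h (hm ▸ k))
      have b3 : ¬ ab (q.m b (j + 1)) (par q.L B) := by
        rw [(f_mem_cell hL).1 h]; exact fun k => hc (fidle_ab k)
      have es := fun s => (H.rg.esy _ _ _ _ _ _ (H.gd j)).1 b s B b1 hb
      have re : ∀ s, q.e j (q.xs m p j) b 0 s B = (q.Tj (q.xs m p j) j b s B : ℝ) :=
        fun s => Complex.ext rfl (es s).1
      rw [(H.gd j).str.fard b z s B hb.pred b1 fun k => b2 (fidle_ab k), ih B b1 b2,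
        (es s).2.2.2 z b3, (es 0).2.2.2 z b3, re, re]
      push_cast; rfl
    refine ⟨e z, ?_⟩
    rw [Par.d', if_neg hc, e, Complex.ofReal_re,
      fidle_clamp (fidle_bd h_est h_can h_sum1 H hT hC hb s hB hc)]
  have ind : ∀ j b, Par.ok b j → ∀ s, ∀ B ∈ box (q.m b j), ¬ corner (q.m b j) B →
      ((q.xs m p j).a b 0).d s B = (fidleF q m p b s j B : ℝ) := by
    intro j
    induction j with
    | zero => exact fun b hb s B hB hc => (h0 b hb s B hB hc).2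
    | succ j ih => exact fun b hb s B hB hc => (step j b hb s (ih b hb.pred s) 0 B hB hc).2
  refine ⟨fun b hb s B hB => ?_, fun j b z hb s B hB => ?_⟩
  · by_cases hc : corner (q.m b 0) B
    · rw [Par.d0, if_pos hc]
    · rw [(h0 b hb s B hB hc).1, (h0 b hb s B hB hc).2]
  · by_cases hc : corner (q.m b (j + 1)) B
    · rw [Par.d', if_pos hc]
    · have := step j b hb s (ind j b hb.pred s) z B hB hc
      rw [this.1, this.2]

end Pool.Agent.Lib.MP_9cc147_pr.Cx
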