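import Pool.Agent.Lib.MP_9cc147_pr.Cx.F.S
import Pool.Agent.Lib.MP_9cc147_pr.Cx.F.Kit

/-! Assembly of the flow module from its statements. -/

open scoped Classical Topology ComplexConjugate
open Finset MeasureTheory ProbabilityTheory Filter

noncomputable section
namespace Pool.Agent.Lib.MP_9cc147_pr.Cx

theorem RG.C1 {q : Par} (h : RG q) : 10 ^ 4 ≤ q.C := by
  have h1 : (100 : ℝ) ≤ q.L := by exact_mod_cast h.L
  have := h.C
  nlinarith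

theorem fo_prec (h_pa : S_f_pa) (h_pb : S_f_pb) (h_poly : S_f_poly) (h_cnt : S_f_cnt)
    {q : Par} {t0 η ν ρ : ℝ} {m : Measure ℝ} {p : Par.Pre} {y : ℕ × ℕ → P → Om → ℝ}
    {mu : Lab → ℝ} {lr : ℝ} (H : q.Fl t0 η ν ρ m p y mu) (hI : q.Idle m p)
    (hs : q.Cs p (1000 * q.C ^ 4 * η)) (hc : q.Cc p lr) (s : Lab) (b : ℕ × ℕ)
    (hb : Par.ok b b.2) :
    |q.lp m p mu b s - q.lp m p mu b 0 - q.cr b s * lr| ≤ 2 * 10 ^ 4 * q.C := by
  obtain ⟨α, β, h1⟩ := h_pa q t0 η ν ρ m p y mu lr H hs hc s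
  obtain ⟨α0, β0, h0⟩ := h_pa q t0 η ν ρ m p y mu lr H hs hc 0
  have hn := (h_cnt q H.rg.L H.rg.odd).2.2
  have key := h_poly q.L (4 * (α - α0)) (2 * (β - β0))
    (2 * 10 ^ 4 * q.C + (q.C + 4 * Real.log ρ + 2)) 4 (by have := H.rg.L; omega) fun J hJ => by
      have ok : Par.ok (2, J) (2, J).2 := ⟨Or.inr rfl, le_rfl, hJ⟩
      have a1 := h1 _ ok
      have a0 := h0 _ ok
      have a2 := h_pb q t0 η ν ρ m p y mu H hI s _ ok
      rw [(hn J).2.1 s] at a1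
      rw [(hn J).2.1 0] at a0
      have e : (q.n (2, J) : ℝ) = 2 * (q.L : ℝ) ^ (J + 2) := by simp [Par.n]
      rw [e] at a1 a0
      rw [abs_le] at a1 a0 a2 ⊢
      constructor <;> nlinarith [a1.1, a1.2, a0.1, a0.2, a2.1, a2.2]
  have eα : α = α0 := by linarith [key.1]
  have eβ : β = β0 := by linarith [key.2]
  have a1 := h1 b hb
  have a0 := h0 b hb
  have c0 : q.cr b 0 = 0 := (hn b.2).2.2 b.1
  rw [c0, ← eα, ← eβ] at a0
  rw [abs_le] at a1 a0 ⊢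
  constructor <;> linarith [a1.1, a1.2, a0.1, a0.2]

theorem fo_core (h_pa : S_f_pa) (h_pb : S_f_pb) (h_poly : S_f_poly) (h_cnt : S_f_cnt)
    (h_zdep : S_f_zdep) (h_even : S_f_even) (h_vee : S_f_vee)
    {q : Par} {t0 η ν ρ : ℝ} {m : Measure ℝ} {p : Par.Pre} {y : ℕ × ℕ → P → Om → ℝ}
    {mu : Lab → ℝ} {r : ℝ} (H : q.Fl t0 η ν ρ m p y mu) (hI : q.Idle m p)
    (hs : q.Cs p (1000 * q.C ^ 4 * η)) (hc : q.Cc p (Real.log r)) (hr : 0 < r) (hη : η ≤ 1 / 3)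
    (hlo : ∀ s, η / 2 ≤ mu s) (hgap : mu 0 + η / 4 ≤ mu 1) (k J : ℕ) (hk : k = 1 ∨ k = 2)
    (hJ : 1 ≤ J) : (∃ Z : ℝ, 0 < Z ∧ q.ZZ m p (k, J) 0 = Z) ∧ ∀ t : ℝ, |t| ≤ t0 / 2 → ∃ v : ℝ,
      (if k = 1 then mu 1 - 12 * η * Real.exp (2 * 10 ^ 4 * q.C) / r ≤ v ∧ v ≤ 1
        else 0 ≤ v ∧ v ≤ mu 1 - η * Real.exp (-(2 * 10 ^ 4 * q.C)) / 40) ∧
      ‖q.ZZ m p (k, J) t / q.ZZ m p (k, J) 0 - (1 - v * Rt (q.n (k, J)) * t ^ 2 / 2 : ℝ)‖ ≤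
        100 / t0 ^ 2 * t ^ 2 + Rt (q.n (k, J)) ^ 2 * t ^ 4 := by
  have ok : Par.ok (k, J) (k, J).2 := ⟨hk, le_rfl, hJ⟩
  obtain ⟨Ψ, hΨ, hZ⟩ := h_zdep q t0 η ν ρ m p y mu H hI _ ok
  have ht := H.sc.t.1
  have hη0 := H.sc.hη.1
  have hR : 0 ≤ Rt (q.n (k, J)) :=
    sum_nonneg fun x _ => mul_nonneg (by norm_num) (sum_nonneg fun d _ => by positivity)
  obtain ⟨e0, e1⟩ := h_even t0 (Rt (q.n (k, J))) (fun s => Real.exp (q.lp m p mu (k, J) s)) mu Ψ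
    (q.ZZ m p (k, J)) ht hR (fun s => ⟨Real.exp_pos _, (H.sh.2 s).1,
      by linarith [(H.sh.2 s).2.1], hΨ s⟩) hZ
  have hψ : ∀ s, 1 / 2 ≤ (Ψ s 0).re ∧ (Ψ s 0).re ≤ 2 := fun s => by
    have h1 := (hΨ s).2.2 0 (by simpa using ht)
    have h2 := Complex.abs_re_le_norm (Ψ s 0 - 1)
    rw [Complex.sub_re, Complex.one_re] at h2
    have h3 := abs_le.1 (h2.trans h1)
    constructor <;> linarith [h3.1, h3.2]
  have hC := H.rg.C1
  obtain ⟨v0, v1, v2, v3⟩ := h_vee η (2 * 10 ^ 4 * q.C) r (q.lp m p mu (k, J))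
    (fun s => (Ψ s 0).re) mu hη0 hη (by positivity) hr
    (fun s => ⟨(hψ s).1, (hψ s).2, hlo s, (H.sh.2 s).2.1⟩) H.sh.1 hgap
  have hn := (h_cnt q H.rg.L H.rg.odd).2.2 J
  have pr := fun s => fo_prec h_pa h_pb h_poly h_cnt H hI hs hc s _ ok
  refine ⟨⟨_, sum_pos (fun s _ => mul_pos (Real.exp_pos _) (by linarith [(hψ s).1]))
    univ_nonempty, e0⟩, fun t ht' => ⟨_, ?_, e1 t ht'⟩⟩
  rcases hk with rfl | rfl
  · rw [if_pos rfl]
    refine ⟨v2 ?_, v1⟩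
    have := pr 1
    rwa [hn.1, one_mul] at this
  · rw [if_neg (by norm_num)]
    refine ⟨v0, v3 ?_ ?_⟩
    · have := pr 1
      rwa [hn.2.1, zero_mul, sub_zero] at this
    · have := pr 2
      rwa [hn.2.1, zero_mul, sub_zero] at this

/-- the data at `z = 0` decide the ties -/
theorem fo_tie (h_t0 : S_t0) (q : Par) (o : Mod) (t t' : ℝ) (h : q.Tie o.mh (o.pre q t)) :
    q.Tie o.mh (o.pre q t') := by
  have e1 : ∀ i, q.Pj (q.xs o.mh (o.pre q t') i) i = q.Pj (q.xs o.mh (o.pre q t) i) i := fun i => by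
    have h1 := h_t0 q o t' t i
    have a : (q.xs o.mh (o.pre q t') i).lam = (q.xs o.mh (o.pre q t) i).lam := h1.1
    have b : ∀ b, (q.xs o.mh (o.pre q t') i).a b 0 = (q.xs o.mh (o.pre q t) i).a b 0 := h1.2
    unfold Par.Pj Par.Tj Par.e
    rw [a, b]
  have e0 : q.P0 (mu0 o.mh) (o.pre q t') = q.P0 (mu0 o.mh) (o.pre q t) := by
    have a : (o.pre q t').lam = (o.pre q t).lam := rfl
    have b : (o.pre q t').c = (o.pre q t).c := rfl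
    unfold Par.P0 Par.T0 Par.e0
    rw [a, b]
  unfold Par.Tie Par.ff Par.gg at h ⊢
  simp only [e1, e0]
  exact h

theorem fo_sh (h_t0 : S_t0) (q : Par) (o : Mod) (t t' η : ℝ) (mu : Lab → ℝ)
    (h : q.Sh η o.mh (o.pre q t) mu) : q.Sh η o.mh (o.pre q t') mu := by
  refine ⟨h.1, fun s => ⟨(h.2 s).1, (h.2 s).2.1, fun j => ?_⟩⟩
  have a : (q.xs o.mh (o.pre q t') j).lam = (q.xs o.mh (o.pre q t) j).lam := (h_t0 q o t' t j).1
  have := (h.2 s).2.2 j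
  unfold Par.ShAt at this ⊢
  rwa [a]

theorem fo_nu {C η R : ℝ} (hC : 1 ≤ C) (hη : 0 < η) (hR1 : 1 ≤ R) (hR : C ^ 4 / η ≤ R) :
    0 ≤ (2 * R) ^ (-4 : ℝ) ∧ 1 ≤ C * (2 * R) ^ (1 / 4 : ℝ) ∧
      (2 * R) ^ (-4 : ℝ) * (C * (2 * R) ^ (1 / 4 : ℝ)) ^ 8 ≤ C * η ^ 2 := by
  have h2 : (0 : ℝ) < 2 * R := by linarith
  refine ⟨by positivity, ?_, ?_⟩
  · exact one_le_mul_of_one_le_of_one_le hC (Real.one_le_rpow (by linarith) (by norm_num))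
  · have e1 : ((2 * R) ^ (1 / 4 : ℝ)) ^ 8 = (2 * R) ^ 2 := by
      rw [← Real.rpow_natCast, ← Real.rpow_mul h2.le]; norm_num
    have e2 : (2 * R) ^ (-4 : ℝ) = ((2 * R) ^ 4)⁻¹ := by
      rw [Real.rpow_neg h2.le]; norm_num
    rw [mul_pow, e1, e2]
    have h3 : C ^ 4 ≤ R * η := (div_le_iff₀ hη).1 hR
    have h4 : (C ^ 4) ^ 2 ≤ (R * η) ^ 2 := pow_le_pow_left₀ (by positivity) h3 2
    have e3 : ((2 * R) ^ 4)⁻¹ * (C ^ 8 * (2 * R) ^ 2) = C ^ 8 / (2 * R) ^ 2 := by field_simp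
    rw [e3, div_le_iff₀ (by positivity)]
    have h5 : 0 ≤ (R * η) ^ 2 := by positivity
    nlinarith

theorem fo_R {a b R : ℝ} (ha : 0 < a) (hb : 0 < b) (h : 1 + a + 500 * b ^ 2 ≤ R) :
    1 ≤ R ∧ a ≤ R ∧ 500 * b ^ 2 ≤ R := by
  have : 0 < b ^ 2 := by positivity
  exact ⟨by linarith, by linarith, by linarith⟩

theorem fo_a {η E R x : ℝ} (hη : 0 < η) (hE : 1 ≤ E) (hR : 500 * E ^ 2 ≤ R) (hx : η / 2 ≤ x) :
    0 ≤ x - η * E⁻¹ / 40 ∧ x - η * E⁻¹ / 40 < x - 12 * η * E / (2 * R) := by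
  have hE0 : 0 < E := by linarith
  have h2 : 0 < E ^ 2 := by positivity
  have hi : E⁻¹ ≤ 1 := inv_le_one_of_one_le₀ hE
  refine ⟨by nlinarith, ?_⟩
  have : 12 * η * E / (2 * R) < η * E⁻¹ / 40 := by
    rw [div_lt_div_iff₀ (by linarith) (by norm_num)]
    have e : η * E⁻¹ * (2 * R) = η * (2 * R / E) := by field_simp
    have e2 : 480 * E < 2 * R / E := by rw [lt_div_iff₀ hE0]; nlinarith
    rw [e]; nlinarith
  linarith

theorem fo_K {R K t : ℝ} (hR : 0 ≤ R) (hK : 0 ≤ K) :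
    K * t ^ 2 + R ^ 2 * t ^ 4 ≤ K * t ^ 2 + (R + K) ^ 2 * t ^ 4 := by
  have : R ^ 2 ≤ (R + K) ^ 2 := pow_le_pow_left₀ hR (by linarith) 2
  have h4 : 0 ≤ t ^ 4 := by positivity
  nlinarith

theorem fo_out (h_pa : S_f_pa) (h_pb : S_f_pb) (h_poly : S_f_poly) (h_cnt : S_f_cnt)
    (h_zdep : S_f_zdep) (h_even : S_f_even) (h_vee : S_f_vee) (h_num : S_f_num)
    (h_flow : S_f_flow) (h_tie : S_f_tie) (h_idle : S_f_idle) (h_chain : S_f_chain)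
    (hrg : ∀ᶠ q in FP, RG q) (h_t0 : S_t0) (h_preC : S_preC) (h_preS : S_preS) (h_cp : S_cp)
    (h_preB : S_preB) (h_pid : S_pid) : S_out := by
  intro h hh
  obtain ⟨q, rg, hB, hP⟩ := fp_exists (hrg.and ((h_preB h hh).and h_cp))
  have hC := rg.C1
  have hε := rg.ε
  obtain ⟨η, R, gap, Bw, t0, ⟨⟨ht1, y, hy⟩, hcp⟩, ⟨hη, hη1⟩, ⟨-, hR⟩, hBw, ht0, -⟩ :=
    ((hB.and hP).and ((evm_η (c := q.ε / (10 ^ 7 * q.C ^ 5)) (by have := hε.1; positivity)).and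
      ((evm_R fun η => 1 + q.C ^ 4 / η + 500 * Real.exp (2 * 10 ^ 4 * q.C) ^ 2).and
      ((evm_B fun _ _ _ => 1).and (evm_t (fun _ _ _ _ => 1) fun _ _ _ _ => one_pos))))).exists
  have hη2 : 10 ^ 7 * q.C ^ 5 * η ≤ q.ε := by
    rw [le_div_iff₀ (by positivity)] at hη1; linarith
  have hC5 : q.C ^ 2 ≤ q.C ^ 5 := pow_le_pow_right₀ (by linarith) (by norm_num)
  have hC2 : 1 ≤ q.C ^ 2 := one_le_pow₀ (by linarith)
  have hη3 : q.C ^ 2 * η ≤ 1 / 10 ^ 9 := by nlinarith [hε.2]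
  have hη4 : η ≤ 1 / 10 ^ 9 := by nlinarith [mul_le_mul_of_nonneg_right hC2 hη.le]
  have hx : 0 < q.C ^ 4 / η := by positivity
  obtain ⟨hR1, hR2, hR3⟩ := fo_R hx (Real.exp_pos _) hR
  have hν := fo_nu (by linarith : 1 ≤ q.C) hη hR1 hR2
  set mo := fun τ : rect => Mod.mk' η R gap Bw h τ with hmo
  have hS : ∀ τ t, t ≠ 0 → q.Sc t0 η ((2 * R : ℝ) ^ (-4 : ℝ)) (q.C * (2 * R : ℝ) ^ (1 / 4 : ℝ))
      (mo τ).mh ((mo τ).pre q t) y := fun τ t ht => by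
    obtain ⟨a1, a2, a3⟩ := h_preS q (mo τ) t0 t rg.L rg.odd hh (by show 0 < Bw; linarith)
    obtain ⟨-, -, g1, g2⟩ := h_num η R gap Bw h τ
    refine ⟨⟨ht0, ht1⟩, a1, a2, a3, hy τ t ht, ⟨hη, hη2⟩, hν, fun s => ?_⟩
    show η ≤ (if s = 0 then η else η * (1 + (mo τ).gam)) ∧
      (if s = 0 then η else η * (1 + (mo τ).gam)) ≤ 2 * η
    have g1' : 2 / 5 ≤ (mo τ).gam := g1
    have g2' : (mo τ).gam ≤ 1 := g2
    split_ifs <;> constructor <;> nlinarith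
  have τ0 : rect := ⟨(0, 1 / 2), by constructor <;> constructor <;> norm_num⟩
  obtain ⟨τ, hT, hCs⟩ := h_tie q t0 η _ _ (mo τ0).mh (fun τ => (mo τ).pre q 1) y
    (fun τ => (mo τ).bb) rg (fun τ => hS τ 1 one_ne_zero) (h_preC q η R gap Bw h 1)
    (fun τ b hb s T hT hc => by
      have := hcp h τ b hb s T hT
      simp only [if_neg hc] at this
      exact this)
    (fun τ => (h_num η R gap Bw h τ).1) (fun τ => (h_num η R gap Bw h τ).2.1)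
  obtain ⟨mu, F1⟩ := h_flow q t0 η _ _ _ _ y rg (hS τ 1 one_ne_zero)
  have hF : ∀ t, t ≠ 0 → q.Fl t0 η ((2 * R : ℝ) ^ (-4 : ℝ)) (q.C * (2 * R : ℝ) ^ (1 / 4 : ℝ))
      (mo τ).mh ((mo τ).pre q t) y mu := fun t ht => by
    obtain ⟨mu', F⟩ := h_flow q t0 η _ _ _ _ y rg (hS τ t ht)
    exact ⟨rg, F.sc, F.gd, fo_sh h_t0 q _ 1 t η mu F1.sh⟩
  have hCs' : ∀ t, q.Cs ((mo τ).pre q t) (1000 * q.C ^ 4 * η) := fun t => hCs
  have hI : ∀ t, t ≠ 0 → q.Idle (mo τ).mh ((mo τ).pre q t) := fun t ht =>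
    h_idle q t0 η _ _ _ _ y mu (hF t ht) (fo_tie h_t0 q _ 1 t hT) (hCs' t)
  have hCc : ∀ t, q.Cc ((mo τ).pre q t) (Real.log (2 * R)) := fun t b hb s T hT hc => by
    have := hcp h τ b hb s T hT
    simp only [if_pos hc] at this
    refine le_trans this ?_
    have := Real.log_le_sub_one_of_pos (by linarith : 0 < q.C)
    linarith
  have hg := (h_num η R gap Bw h τ).2.2
  have hw : 32 * q.C ^ 2 * η ^ 2 ≤ η / 100 := by nlinarith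
  have m0 : |η - mu 0| ≤ η / 100 := by
    have := (F1.sh.2 0).2.2 0
    simp only [Par.ShAt, pow_zero, div_one] at this
    exact le_trans this hw
  have m1 : |η * (1 + (mo τ).gam) - mu 1| ≤ η / 100 := by
    have := (F1.sh.2 1).2.2 0
    simp only [Par.ShAt, pow_zero, div_one] at this
    exact le_trans this hw
  have g1 : 2 / 5 ≤ (mo τ).gam := hg.1
  rw [abs_le] at m0 m1
  have hgap : mu 0 + η / 4 ≤ mu 1 := by nlinarith [m0.1, m0.2, m1.1, m1.2]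
  have hlo : ∀ s, η / 2 ≤ mu s := fun s => by
    have := F1.sh.1
    fin_cases s
    · show η / 2 ≤ mu 0; linarith [m0.2]
    · show η / 2 ≤ mu 1; linarith [m0.2]
    · show η / 2 ≤ mu 2; linarith [m0.2]
  have hr : (0 : ℝ) < 2 * R := by linarith
  have core := fun t ht => fo_core h_pa h_pb h_poly h_cnt h_zdep h_even h_vee (hF t ht) (hI t ht)
    (hCs' t) (hCc t) hr (by linarith) hlo hgap
  have tot : ∀ (t z : ℝ) (k J : ℕ), t ≠ 0 → (z = t ∨ z = 0) → |z| ≤ t0 → (k = 1 ∨ k = 2) → 1 ≤ J →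
      Tot q.L (q.n (k, J)) J (W0 (mo τ).nu (q.n (k, J))) (bg (q.n (k, J)) z) =
        (((mo τ).r ^ (q.n (k, J)) ^ 2 : ℝ) : ℂ) * q.ZZ (mo τ).mh ((mo τ).pre q t) (k, J) z :=
    fun t z k J ht hz hz' hk hJ =>
      (h_chain q t0 η _ _ _ _ y mu (hF t ht) (hI t ht) (k, J) z ⟨hk, le_rfl, hJ⟩
        (by simpa using hz')).1 _ _ fun θ hθ =>
        h_pid q (mo τ) t z (k, J) θ rg.L hh (by show 0 < Bw; linarith) hη
          (by show η ≤ 1 / 2; linarith) (by show 1 ≤ R; exact_mod_cast hR1) τ.2 ht hz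
          ⟨hk, Nat.zero_le _, hJ⟩ hθ
  have hE1 : 1 ≤ Real.exp (2 * 10 ^ 4 * q.C) := Real.one_le_exp (by positivity)
  have ha := fo_a hη hE1 hR3 (hlo 1)
  rw [← Real.exp_neg] at ha
  refine ⟨q, mo τ, by have := rg.L; omega, rfl, hη, by show 0 < Bw; linarith, τ.2,
    _, _, 100 / t0 ^ 2, t0 / 2, ha.1, ha.2, by linarith, ?_⟩
  · filter_upwards [eventually_ge_atTop 1] with J hJ k hk
    have hp : 0 < (mo τ).r ^ (q.n (k, J)) ^ 2 := pow_pos hr _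
    obtain ⟨⟨Z, Z0, Z1⟩, -⟩ := core 1 one_ne_zero k J hk hJ
    have t1 := tot 1 0 k J one_ne_zero (Or.inr rfl) (by simpa using ht0.le) hk hJ
    rw [Complex.ofReal_zero, Z1] at t1
    refine ⟨(mo τ).r ^ (q.n (k, J)) ^ 2 * Z, mul_pos hp Z0, by rw [t1]; push_cast; ring,
      fun t ht ht' => ?_⟩
    obtain ⟨v, v1, v2⟩ := (core t ht k J hk hJ).2 t ht'
    refine ⟨v, v1, ?_⟩
    have t2 := tot t 0 k J ht (Or.inr rfl) (by simpa using ht0.le) hk hJ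
    rw [Complex.ofReal_zero, t1] at t2
    have hp' : (((mo τ).r ^ (q.n (k, J)) ^ 2 : ℝ) : ℂ) ≠ 0 := by exact_mod_cast hp.ne'
    rw [tot t t k J ht (Or.inl rfl) (by linarith) hk hJ, Complex.ofReal_mul, t2,
      mul_div_mul_left _ _ hp']
    exact v2.trans (fo_K (sum_nonneg fun x _ => mul_nonneg (by norm_num)
      (sum_nonneg fun d _ => by positivity)) (by positivity))

end Pool.Agent.Lib.MP_9cc147_pr.Cx
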