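import Pool.Agent.Lib.MP_9cc147_pr.Cx.F.S
import Pool.Agent.Lib.MP_9cc147_pr.Cx.F.Kit

/-! The logarithm of the weight of a phase is a polynomial in the side plus a corner term. -/

open scoped Classical Topology ComplexConjugate
open Finset MeasureTheory ProbabilityTheory Filter

noncomputable section
namespace Pool.Agent.Lib.MP_9cc147_pr.Cx

theorem fpa_geo (K : ℝ) : HasSum (fun j : ℕ => K / 4 ^ j) (K * (4 / 3)) := by
  have h := (hasSum_geometric_of_lt_one (r := (1 / 4 : ℝ)) (by norm_num) (by norm_num)).mul_left K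
  have e : (fun j : ℕ => K / 4 ^ j) = fun i => K * (1 / 4) ^ i := by
    ext j
    rw [one_div_pow, mul_one_div]
  rw [e, show (4 / 3 : ℝ) = (1 - 1 / 4)⁻¹ by norm_num]
  exact h

theorem fpa_series {S v : ℕ → ℝ} {V K : ℝ} (J : ℕ) (hv : HasSum v V)
    (h1 : ∀ j < J, |S j - v j| ≤ K / 4 ^ j) (h2 : ∀ j, J ≤ j → |v j| ≤ K / 4 ^ j) :
    |∑ j ∈ range J, S j - V| ≤ K * (4 / 3) := by
  have h0 : HasSum (fun j => if j < J then S j else 0) (∑ j ∈ range J, S j) := by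
    have := hasSum_sum_of_ne_finset_zero (f := fun j => if j < J then S j else 0) (s := range J)
      (L := SummationFilter.unconditional ℕ) fun j hj => if_neg (by simpa using hj)
    rwa [sum_congr rfl fun j hj => if_pos (mem_range.1 hj)] at this
  refine (h0.sub hv).norm_le_of_bounded (fpa_geo K) fun j => ?_
  rw [Real.norm_eq_abs]
  split_ifs with h
  · exact h1 j h
  · rw [zero_sub, abs_neg]
    exact h2 j (not_lt.1 h)

theorem fpa_av {Φ : Lab → ℕ → ℝ} {M : ℝ} (h : ∀ s, ∀ d ≤ 6, |Φ s d| ≤ M) (s : Lab) :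
    |av Φ s 6| ≤ M ∧ |Gs Φ s| ≤ 12 * M := by
  have h1 : ∀ d ≤ 6, |av Φ s d| ≤ M := fun d hd => by
    have a := abs_le.1 (h s d hd)
    have b := abs_le.1 (h (Equiv.swap 1 2 s) d hd)
    rw [av, abs_le]
    constructor <;> linarith [a.1, a.2, b.1, b.2]
  refine ⟨h1 6 le_rfl, (abs_sum_le_sum_abs _ _).trans ?_⟩
  refine (sum_le_card_nsmul _ _ (2 * M) fun d hd => ?_).trans (by simp; linarith)
  have := h1 d (mem_range.1 hd).le
  have := h1 6 le_rfl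
  linarith [abs_sub (av Φ s d) (av Φ s 6)]

theorem fpa_rf {m d : ℕ} (hm : 100 ≤ m) (hd : d ≤ 6) : rf d ∈ box m ∧ ¬ corner m (rf d) := by
  refine ⟨f_mem_box.2 ?_, fun h => ?_⟩
  · simp only [rf]
    omega
  · have := h.1
    simp only [rf] at this
    omega

theorem fpa_cz {m : ℕ} {B : P} (h : corner m B) : cz m B := by
  obtain ⟨h1, h2⟩ := h
  unfold cz dp
  omega

theorem fpa_small {q : Par} {η : ℝ} (hL : 100 ≤ q.L) (hC : (q.L : ℝ) ^ 2 ≤ q.C)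
    (hε : q.ε ≤ 1 / 100) (hη : 0 < η ∧ 10 ^ 7 * q.C ^ 5 * η ≤ q.ε) :
    10 ^ 4 ≤ q.C ∧ η ≤ 1 ∧ q.C * η ≤ 1 ∧ 1000 * q.C ^ 4 * η ≤ 1 := by
  have h1 : (100 : ℝ) ≤ q.L := by exact_mod_cast hL
  have h2 : 10 ^ 4 ≤ q.C := by nlinarith
  have h3 : 1 ≤ q.C := by linarith
  have h4 : q.C ^ 4 ≤ q.C ^ 5 := pow_le_pow_right₀ h3 (by norm_num)
  have h5 : q.C ^ 1 ≤ q.C ^ 5 := pow_le_pow_right₀ h3 (by norm_num)
  have h6 : 1 ≤ q.C ^ 5 := one_le_pow₀ h3
  rw [pow_one] at h5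
  have := hη.1
  have := hη.2
  refine ⟨h2, ?_, ?_, ?_⟩ <;> nlinarith

theorem fpa_tile {q : Par} {t0 η ν ρ : ℝ} {m : Measure ℝ} {p : Par.Pre}
    {y : ℕ × ℕ → P → Om → ℝ} {mu : Lab → ℝ} (F : q.Fl t0 η ν ρ m p y mu) {b : ℕ × ℕ}
    (hb : Par.ok b 0) (s : Lab) {B : P} (hB : B ∈ box (q.m b 0)) :
    |q.T0 (mu0 m) p b s B - q.T0 PP (q.gPre (mu s)) b 0 B + Real.log (p.c b s B)| ≤ q.C * η := by
  have := F.sc.prob
  obtain ⟨-, h2, h3, -⟩ := F.rg.e0 q m b B F.rg.L hb hB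
  have e : q.T0 (mu0 m) p b s B - q.T0 PP (q.gPre (mu s)) b 0 B + Real.log (p.c b s B) =
      (p.lam s - mu s) / 2 * (E0 q (mu0 m) b B).re := by
    have a1 : q.e0 (mu0 m) p b s B =
      ((p.lam s / 2 : ℝ) : ℂ) * E0 q (mu0 m) b B - (Real.log (p.c b s B) : ℝ) := by
      push_cast
      rfl
    have a2 : q.e0 PP (q.gPre (mu s)) b 0 B =
      ((mu s / 2 : ℝ) : ℂ) * E0 q PP b B - (Real.log 1 : ℝ) := by
      push_cast
      rfl
    rw [Par.T0, Par.T0, a1, a2, ← h3]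
    simp only [Complex.sub_re, Complex.re_ofReal_mul, Complex.ofReal_re, Real.log_one]
    ring
  have h4 : |(E0 q (mu0 m) b B).re| ≤ q.C :=
    (Complex.abs_re_le_norm _).trans (h2.trans (by exact_mod_cast F.rg.C))
  have h5 : |(p.lam s - mu s) / 2| ≤ η := by
    have a := F.sc.lam s
    have b := F.sh.2 s
    rw [abs_le]
    constructor <;> linarith [a.1, a.2, b.1, b.2.1, F.sc.hη.1]
  rw [e, abs_mul, mul_comm q.C]
  exact mul_le_mul h5 h4 (abs_nonneg _) F.sc.hη.1.le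

theorem t_f_pa (h_est : S_f_est) (h_can : S_f_can) (h_sum2 : S_f_sum2) : S_f_pa := by
  intro q t0 η ν ρ m p y mu lr F hs hc s
  have hL := F.rg.L
  obtain ⟨c1, c2, c3, c4⟩ := fpa_small hL F.rg.C F.rg.ε.2 F.sc.hη
  have hη := F.sc.hη.1
  have hL' : (100 : ℝ) ≤ q.L := by exact_mod_cast hL
  have hC := F.rg.C
  have hm : ∀ b j, Par.ok b j → 100 ≤ q.m b j := fun b j h => hL.trans (q.L_le_m (by omega) h)
  let Φ0 : Lab → ℕ → ℝ := fun s d => q.P0 (mu0 m) p s d -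
    Ph (fun s => q.T0 PP (q.gPre (mu s)) (1, 1) 0) s d
  let Φ : ℕ → Lab → ℕ → ℝ := fun j s d => q.Pj (q.xs m p j) j s d -
    Ph (fun s => q.Tj (q.gau (mu s) j) j (1, j + 1) 0) s d
  have hoff : ∀ b, Par.ok b 0 → ∀ s, ∀ B ∈ box (q.m b 0), ¬ corner (q.m b 0) B →
      |q.T0 (mu0 m) p b s B - q.T0 PP (q.gPre (mu s)) b 0 B| ≤ 2 * q.C := by
    intro b hb s B hB hn
    have a := abs_le.1 (fpa_tile F hb s hB)
    have b := abs_le.1 (hs b hb s B hB hn)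
    rw [abs_le]
    constructor <;> linarith [a.1, a.2, b.1, b.2]
  have o11 : Par.ok (1, 1) 0 := ⟨Or.inl rfl, by simp, le_rfl⟩
  have b0 : ∀ s, ∀ d ≤ 6, |Φ0 s d| ≤ 2 * q.C := fun s d hd =>
    hoff (1, 1) o11 _ _ (fpa_rf (hm _ _ o11) hd).1 (fpa_rf (hm _ _ o11) hd).2
  have hj : ∀ j b, Par.ok b (j + 1) → ∀ s, ∀ B ∈ box (q.m b j),
      |q.Tj (q.xs m p j) j b s B - q.Tj (q.gau (mu s) j) j b 0 B| ≤ 3 * q.C ^ 3 * η / 4 ^ j := by
    intro j b hb s B hB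
    have := (h_est q t0 η ν ρ m p y mu F j b 0 s B hB hb (by simpa using F.sc.t.1.le)).2.1
    rw [Par.Tj, Par.Tj, ← Complex.sub_re]
    exact (Complex.abs_re_le_norm _).trans this
  have bj : ∀ j s, ∀ d ≤ 6, |Φ j s d| ≤ 3 * q.C ^ 3 * η / 4 ^ j := fun j s d hd =>
    hj j (1, j + 1) (Par.ok_ref j) _ _ (fpa_rf (hm _ _ (Par.ok_ref j).pred) hd).1
  have hp : ∀ j : ℕ, (1 : ℝ) ≤ (q.L : ℝ) ^ (j + 1) := fun j => one_le_pow₀ (by linarith)
  have s1 : Summable fun j => av (Φ j) s 6 / ((q.L : ℝ) ^ (j + 1)) ^ 2 :=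
    (fpa_geo (3 * q.C ^ 3 * η)).summable.of_norm_bounded fun j => by
      rw [Real.norm_eq_abs, abs_div, abs_of_nonneg (sq_nonneg ((q.L : ℝ) ^ (j + 1)))]
      exact (div_le_self (abs_nonneg _) (one_le_pow₀ (hp j))).trans (fpa_av (bj j) s).1
  have s2 : Summable fun j => 4 * Gs (Φ j) s / (q.L : ℝ) ^ (j + 1) :=
    (fpa_geo (48 * (3 * q.C ^ 3 * η))).summable.of_norm_bounded fun j => by
      rw [Real.norm_eq_abs, abs_div, abs_of_nonneg (zero_le_one.trans (hp j)), abs_mul,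
        mul_div_assoc 48]
      refine (div_le_self (by positivity) (hp j)).trans ?_
      have := (fpa_av (bj j) s).2
      rw [abs_of_pos (by norm_num : (0 : ℝ) < 4)]
      linarith
  refine ⟨-(av Φ0 s 6 / (q.L : ℝ) ^ 2 + ∑' j, av (Φ j) s 6 / ((q.L : ℝ) ^ (j + 1)) ^ 2) -
    Real.log (1 + mu s) / 2, -(4 * Gs Φ0 s / q.L + ∑' j, 4 * Gs (Φ j) s / (q.L : ℝ) ^ (j + 1)) +
    Real.log (1 + mu s), fun b hb => ?_⟩
  have hb0 : Par.ok b 0 := hb.le (Nat.zero_le _)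
  have hn : ∀ j ≤ b.2, (q.m b j : ℝ) = q.n b / (q.L : ℝ) ^ (j + 1) := fun j h => by
    rw [q.n_eq (show j ≤ b.2 + 1 by omega), Par.l]
    have := hp j
    push_cast
    field_simp
  have r0 := h_sum2 (q.m b 0) (fun s B => q.T0 (mu0 m) p b s B - q.T0 PP (q.gPre (mu s)) b 0 B +
      if corner (q.m b 0) B then cor (q.n b) (cell q.L B) s * lr else 0) Φ0 s (2 * q.C)
    (by have := hm b 0 hb0; omega) (fun B hB hz => by
      obtain ⟨a1, a2⟩ := (h_can q t0 η ν ρ m p y mu F b).1 hb0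
      have a3 := a2 s B hB hz
      dsimp only at a3 ⊢
      rw [if_neg fun h => hz (fpa_cz h), add_zero, a1 s B hB hz, a3])
    (fun d hd => ⟨b0 _ d hd, b0 _ d hd⟩) (fun B hB _ => by
      split_ifs with h
      · have a := abs_le.1 (fpa_tile F hb0 s hB)
        have b := abs_le.1 (hc b hb0 s B hB h)
        rw [abs_le]
        constructor <;> linarith [a.1, a.2, b.1, b.2]
      · rw [add_zero]
        exact hoff b hb0 s B hB h)
  rw [sum_add_distrib, ← sum_filter, ← sum_mul, hn 0 (Nat.zero_le _)] at r0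
  have hK : ∀ j : ℕ, 0 ≤ 3 * q.C ^ 3 * η / 4 ^ j := fun j => by
    have : 0 ≤ q.C := by linarith
    positivity
  have e5 : ∀ j : ℕ, 5 * q.C * (3 * q.C ^ 3 * η) / 4 ^ j = 5 * q.C * (3 * q.C ^ 3 * η / 4 ^ j) :=
    fun j => mul_div_assoc _ _ _
  have t1 := fpa_series (S := fun j => ∑ B ∈ box (q.m b j),
      (q.Tj (q.xs m p j) j b s B - q.Tj (q.gau (mu s) j) j b 0 B))
    (K := 5 * q.C * (3 * q.C ^ 3 * η)) b.2
    ((s1.hasSum.mul_left ((q.n b : ℝ) ^ 2)).add (s2.hasSum.mul_left (q.n b : ℝ)))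
    (fun j hjb => by
      have ho : Par.ok b (j + 1) := hb.le hjb
      have := h_sum2 (q.m b j) (fun s B => q.Tj (q.xs m p j) j b s B -
          q.Tj (q.gau (mu s) j) j b 0 B) (Φ j) s (3 * q.C ^ 3 * η / 4 ^ j)
        (by have := hm b j ho.pred; omega) (fun B hB hz => by
          obtain ⟨a1, a2⟩ := (h_can q t0 η ν ρ m p y mu F b).2 j ho
          have a3 := a2 s B hB hz
          dsimp only at a3 ⊢
          rw [a1 s B hB hz, a3])
        (fun d hd => ⟨bj j _ d hd, bj j _ d hd⟩) fun B hB _ => hj j b ho s B hB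
      rw [hn j hjb.le] at this
      rw [e5]
      refine le_trans (le_of_eq ?_) (this.trans (mul_le_mul_of_nonneg_right (by linarith) (hK j)))
      congr 2
      ring)
    (fun j hjb => by
      have h1 : (q.n b : ℝ) / (q.L : ℝ) ^ (j + 1) ≤ 2 * q.L := by
        rw [div_le_iff₀ (by positivity), Par.n]
        have a1 : (b.1 : ℝ) ≤ 2 := by rcases hb.1 with h | h <;> rw [h] <;> norm_num
        have a2 : (q.L : ℝ) ^ (b.2 + 2) ≤ (q.L : ℝ) ^ (j + 1 + 1) :=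
          pow_le_pow_right₀ (by linarith) (by omega)
        push_cast
        rw [mul_assoc, ← pow_succ']
        exact mul_le_mul a1 a2 (by positivity) (by norm_num)
      have h0 : 0 ≤ (q.n b : ℝ) / (q.L : ℝ) ^ (j + 1) := by positivity
      obtain ⟨a1, a2⟩ := fpa_av (bj j) s
      have e : (q.n b : ℝ) ^ 2 * (av (Φ j) s 6 / ((q.L : ℝ) ^ (j + 1)) ^ 2) +
          q.n b * (4 * Gs (Φ j) s / (q.L : ℝ) ^ (j + 1)) =
          (q.n b / (q.L : ℝ) ^ (j + 1)) ^ 2 * av (Φ j) s 6 +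
            4 * (q.n b / (q.L : ℝ) ^ (j + 1)) * Gs (Φ j) s := by ring
      rw [e, e5]
      have := hK j
      generalize (q.n b : ℝ) / (q.L : ℝ) ^ (j + 1) = x at h0 h1 ⊢
      generalize 3 * q.C ^ 3 * η / 4 ^ j = M at a1 a2 this ⊢
      refine (abs_add_le _ _).trans ?_
      rw [abs_mul, abs_mul, abs_of_nonneg (sq_nonneg x), abs_of_nonneg (by linarith : 0 ≤ 4 * x)]
      have u1 : x ^ 2 ≤ 4 * q.C := by nlinarith
      have u2 : 4 * x * 12 ≤ q.C := by nlinarith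
      have u3 := mul_le_mul u1 a1 (abs_nonneg _) (by linarith)
      have u4 := mul_le_mul_of_nonneg_left a2 (by linarith : 0 ≤ 4 * x)
      have u5 := mul_le_mul_of_nonneg_right u2 this
      nlinarith)
  have hmu := F.sh.2 s
  have l1 : 0 ≤ Real.log (1 + mu s) := Real.log_nonneg (by linarith [hmu.1])
  have l2 : Real.log (1 + mu s) ≤ mu s := by
    linarith [Real.log_le_sub_one_of_pos (show 0 < 1 + mu s by linarith [hmu.1])]
  have a0 := abs_le.1 r0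
  have a1 := abs_le.1 t1
  have e0 : ((q.n b : ℝ) / (q.L : ℝ) ^ (0 + 1)) ^ 2 * av Φ0 s 6 +
      4 * ((q.n b : ℝ) / (q.L : ℝ) ^ (0 + 1)) * Gs Φ0 s =
      av Φ0 s 6 / (q.L : ℝ) ^ 2 * (q.n b : ℝ) ^ 2 + 4 * Gs Φ0 s / q.L * q.n b := by ring
  rw [e0] at a0
  have e1 : 5 * q.C * (3 * q.C ^ 3 * η) * (4 / 3) = 20 * (q.C ^ 4 * η) := by ring
  rw [e1] at a1
  unfold Par.lp Par.cr
  rw [abs_le]
  constructor <;> nlinarith [a0.1, a0.2, a1.1, a1.2, hmu.2.1]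

end Pool.Agent.Lib.MP_9cc147_pr.Cx
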