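import Pool.Agent.Lib.MP_9cc147_pr.Cx.F.Kit

/-! Sums of the checkerboard sign over rectangles. -/

open scoped Classical
open Finset

noncomputable section
namespace Pool.Agent.Lib.MP_9cc147_pr.Cx

/-- the sign of the parity of an integer -/
def f_sg (a : ℤ) : ℝ := if Even a then 1 else -1

theorem f_sg_add (a c : ℤ) : f_sg (a + c) = f_sg a * f_sg c := by
  unfold f_sg
  by_cases h1 : Even a <;> by_cases h2 : Even c <;> simp [Int.even_add, h1, h2]

theorem f_sg_succ (a : ℤ) : f_sg (a + 1) = -f_sg a := by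
  rw [f_sg_add]; simp [f_sg]

theorem f_sg_abs (a : ℤ) : |f_sg a| = 1 := by
  unfold f_sg; split_ifs <;> simp

theorem f_sg_sum (a : ℤ) (p : ℕ) :
    ∑ i ∈ Ico a (a + p), f_sg i = (f_sg a - f_sg (a + p)) / 2 := by
  induction p with
  | zero => simp
  | succ p ih =>
    have e : Ico a (a + (p + 1 : ℕ)) = insert (a + p) (Ico a (a + p)) := by
      ext i; simp only [mem_Ico, mem_insert]; push_cast; omega
    rw [e, sum_insert (by simp), ih]
    push_cast
    rw [← add_assoc, f_sg_succ]; ring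

theorem f_sg_Ico (a c : ℤ) : |∑ i ∈ Ico a c, f_sg i| ≤ 1 := by
  by_cases h : a ≤ c
  · obtain ⟨p, rfl⟩ : ∃ p : ℕ, c = a + p := ⟨(c - a).toNat, by omega⟩
    rw [f_sg_sum, abs_div, abs_two]
    have := abs_sub (f_sg a) (f_sg (a + p))
    rw [f_sg_abs, f_sg_abs] at this
    linarith
  · rw [Ico_eq_empty (by omega)]; simp

theorem f_sg_rect (a c a' c' : ℤ) :
    |∑ x ∈ Ico a c ×ˢ Ico a' c', f_sg (x.1 + x.2)| ≤ 1 := by
  simp only [f_sg_add]
  rw [sum_product, ← sum_mul_sum, abs_mul]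
  exact mul_le_one₀ (f_sg_Ico _ _) (abs_nonneg _) (f_sg_Ico _ _)

/-- a function of the parity, summed over a rectangle -/
theorem f_par_rect (a c a' c' : ℤ) (u v : ℝ) :
    |∑ x ∈ Ico a c ×ˢ Ico a' c', (if Even (x.1 + x.2) then u else v) -
      (Ico a c ×ˢ Ico a' c').card * ((u + v) / 2)| ≤ |u - v| / 2 := by
  have e : ∀ x : P, (if Even (x.1 + x.2) then u else v) =
      (u + v) / 2 + (u - v) / 2 * f_sg (x.1 + x.2) := fun x => by
    unfold f_sg; split_ifs <;> ring
  simp only [e, sum_add_distrib, sum_const, nsmul_eq_mul, ← mul_sum]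
  rw [add_sub_cancel_left, abs_mul, abs_div, abs_two]
  exact mul_le_of_le_one_right (by positivity) (f_sg_rect _ _ _ _)

end Pool.Agent.Lib.MP_9cc147_pr.Cx
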