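import Pool.Agent.Lib.MP_9cc147_pr.Cx.F.S
import Pool.Agent.Lib.MP_9cc147_pr.Cx.F.Kit

/-! A priori bound on the differences of the weights of the phases. -/

open scoped Classical Topology
open Finset MeasureTheory ProbabilityTheory Filter

noncomputable section
namespace Pool.Agent.Lib.MP_9cc147_pr.Cx

theorem fpb_bg (n : ℕ) : bg n 0 = 0 := by ext p; simp [bg]

theorem fpb_en (S : Finset P) : En 0 S = 0 := by simp [En, dg]

theorem fpb_et (q : Par) (j : ℕ) (x : State) (b : ℕ × ℕ) (s : Lab) (B : P) :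
    q.et j x b 0 s B = q.e j x b 0 s B := by
  simp [Par.et, Par.xt, fpb_bg, fpb_en]

theorem fpb_cor (m : ℕ) : ((box m).filter (corner m)).card ≤ 4 := by
  have : (box m).filter (corner m) ⊆ ({0, (m : ℤ) - 1} : Finset ℤ) ×ˢ ({0, (m : ℤ) - 1} : Finset ℤ) :=
    fun B hB => by simpa [corner] using (mem_filter.1 hB).2
  refine (card_le_card this).trans ?_
  rw [card_product]
  exact Nat.mul_le_mul card_le_two card_le_two

theorem fpb_log {w : ℂ} (h : ‖w - 1‖ ≤ 1 / 2) : 0 < ‖w‖ ∧ |Real.log ‖w‖| ≤ 1 := by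
  have h1 := abs_le.1 ((abs_norm_sub_norm_le w 1).trans h)
  rw [norm_one] at h1
  have h0 : 0 < ‖w‖ := by linarith [h1.1]
  have h2 := Real.log_le_sub_one_of_pos h0
  have h3 := Real.one_sub_inv_le_log_of_pos h0
  have h4 : ‖w‖⁻¹ ≤ 2 := by
    rw [inv_le_comm₀ h0 (by norm_num)]; linarith [h1.1]
  exact ⟨h0, abs_le.2 ⟨by linarith, by linarith [h1.2]⟩⟩

theorem t_f_pb (h_chain : S_f_chain) : S_f_pb := by
  intro q t0 η ν ρ m p y mu H hI s b hb
  obtain ⟨t1, t2⟩ := H.sc.t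
  obtain ⟨e1, e2⟩ := H.sc.hη
  obtain ⟨-, r1, -⟩ := H.sc.hν
  obtain ⟨ε0, ε1⟩ := H.rg.ε
  have hL : (100 : ℝ) ≤ q.L := by exact_mod_cast H.rg.L
  have hC := H.rg.C
  have hC1 : 1 ≤ q.C := by nlinarith
  have z0 : ‖(0 : ℂ)‖ ≤ t0 := by rw [norm_zero]; exact t1.le
  have p1 : q.C * η ≤ q.C ^ 5 * η := by gcongr; exact le_self_pow₀ hC1 (by norm_num)
  have p3 : q.C ^ 3 * η ≤ q.C ^ 5 * η := by gcongr; norm_num
  have p0 : 0 ≤ q.C ^ 3 * η := by positivity
  have hg : ∀ s, |∑ B ∈ box (q.m b 0), q.T0 PP (q.gPre (mu s)) b 0 B +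
      ∑ j ∈ range b.2, ∑ B ∈ box (q.m b j), q.Tj (q.gau (mu s) j) j b 0 B -
      ((q.n b : ℝ) - 1) ^ 2 / 2 * Real.log (1 + mu s)| ≤ 1 := by
    intro s
    obtain ⟨m0, m1, -⟩ := H.sh.2 s
    obtain ⟨g1, g2⟩ := H.rg.gau t0 (mu s) (3 * η) t1 t2 m0 m1 (by nlinarith)
    have f1 := ((H.rg.fin t0 b _ _ _ _ hb (g1 b.2).1).1 0).2.2 0 z0
    obtain ⟨l0, l1⟩ := fpb_log (f1.trans (by nlinarith))
    have k := congrArg (fun w : ℂ => Real.log ‖w‖) (g2 b 0 hb z0)
    have m2 : 0 < 1 + mu s := by linarith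
    simp only [fpb_bg, fpb_en, fpb_et, norm_mul, Complex.norm_exp, Complex.norm_real,
      Real.norm_of_nonneg (Real.rpow_nonneg m2.le _)] at k
    rw [Real.log_mul (Real.exp_pos _).ne' l0.ne', Real.log_mul (Real.exp_pos _).ne'
      (Real.rpow_pos_of_pos m2 _).ne', Real.log_exp, Real.log_exp, Real.log_rpow m2] at k
    simp only [Complex.sub_re, Complex.neg_re, Complex.re_sum, ne_eq, OfNat.ofNat_ne_zero,
      not_false_eq_true, zero_pow, zero_mul, sub_zero, mul_zero, Complex.zero_re, zero_add] at k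
    simp only [Par.T0, Par.Tj]
    convert l1 using 2
    linarith
  have hd := congrArg Complex.re ((h_chain q t0 η ν ρ m p y mu H hI b 0 hb z0).2 s)
  simp only [fpb_et, Complex.add_re, Complex.re_sum, Complex.sub_re, sum_sub_distrib] at hd
  have hb1 : |∑ B ∈ box (q.m b b.2), (((q.xs m p b.2).a b 0).d s B).re| ≤
      q.C + 4 * Real.log ρ + 4 * b.2 := by
    have hl : Real.log (ρ * (21 / 20) ^ b.2) ≤ Real.log ρ + b.2 := by
      rw [Real.log_mul (by positivity) (by positivity), Real.log_pow]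
      have := Real.log_le_sub_one_of_pos (show (0 : ℝ) < 21 / 20 by norm_num)
      have h2 : (b.2 : ℝ) * Real.log (21 / 20) ≤ b.2 * 1 := by gcongr; linarith
      linarith
    have l0 : 0 ≤ Real.log ρ + b.2 := add_nonneg (Real.log_nonneg r1) (by positivity)
    have one : ∀ B ∈ box (q.m b b.2), |(((q.xs m p b.2).a b 0).d s B).re| ≤
        q.ε + if corner (q.m b b.2) B then Real.log ρ + b.2 else 0 := by
      intro B hB
      have := (H.gd b.2).bnd.d b 0 s B hb z0 hB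
      split_ifs at this ⊢
      · have h2 := (Real.le_log_iff_exp_le (by positivity)).2 this
        linarith
      · linarith [Complex.abs_re_le_norm (((q.xs m p b.2).a b 0).d s B)]
    refine (abs_sum_le_sum_abs _ _).trans ((sum_le_sum one).trans ?_)
    rw [sum_add_distrib, ← sum_filter, sum_const, sum_const, f_card_box, q.m_top, nsmul_eq_mul,
      nsmul_eq_mul]
    have c1 : (((box (b.1 * q.L)).filter (corner (b.1 * q.L))).card : ℝ) ≤ 4 := by
      exact_mod_cast fpb_cor _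
    have c2 : (((b.1 * q.L) ^ 2 : ℕ) : ℝ) ≤ 4 * q.C := by
      rcases hb.1 with e | e <;> rw [e] <;> push_cast <;> nlinarith
    have c3 : (((b.1 * q.L) ^ 2 : ℕ) : ℝ) * q.ε ≤ 4 * q.C * (1 / 100) := by gcongr
    have c4 := mul_le_mul_of_nonneg_right c1 l0
    linarith
  have a1 := abs_le.1 (hg s)
  have a2 := abs_le.1 (hg 0)
  have a3 := abs_le.1 hb1
  simp only [Par.lp, sum_sub_distrib, Par.T0, Par.Tj] at *
  exact abs_le.2 ⟨by linarith, by linarith⟩

end Pool.Agent.Lib.MP_9cc147_pr.Cx
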