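import Pool.Agent.Lib.MP_9cc147_pr.Cx.F.Hyp

/-! Definitions and statements of the flow module. -/

open scoped Classical Topology ComplexConjugate
open Finset MeasureTheory ProbabilityTheory Filter

noncomputable section
namespace Pool.Agent.Lib.MP_9cc147_pr.Cx

/-- the phase seen from an even block -/
def cls (s : Lab) (B : P) : Lab := if Even (B.1 + B.2) then s else Equiv.swap 1 2 s
def dp (m : ℕ) (x : ℤ) : ℕ := min 6 (min x (m - 1 - x)).toNat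
def dep (m : ℕ) (B : P) : ℕ := min (dp m B.1) (dp m B.2)
/-- corner zone -/
def cz (m : ℕ) (B : P) : Prop := dp m B.1 < 6 ∧ dp m B.2 < 6
/-- off the corner zones `T` depends only on the class and on the depth -/
def Can (m : ℕ) (T : Lab → P → ℝ) (Φ : Lab → ℕ → ℝ) : Prop :=
  ∀ s, ∀ B ∈ box m, ¬ cz m B → T s B = Φ (cls s B) (dep m B)
def av (Φ : Lab → ℕ → ℝ) (s : Lab) (d : ℕ) : ℝ := (Φ s d + Φ (Equiv.swap 1 2 s) d) / 2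
def Gs (Φ : Lab → ℕ → ℝ) (s : Lab) : ℝ := ∑ d ∈ range 6, (av Φ s d - av Φ s 6)
def rf (d : ℕ) : P := (10, (d : ℤ))
def Ph (T : Lab → P → ℝ) (s : Lab) (d : ℕ) : ℝ := T (cls s (rf d)) (rf d)

namespace Par
variable (q : Par)
def xs (m : Measure ℝ) (p : Pre) (j : ℕ) : State := q.flow (q.init (mu0 m) p) j
def T0 (μ : Measure Om) (p : Pre) (b : ℕ × ℕ) (s : Lab) (B : P) : ℝ := (q.e0 μ p b s B).re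
def Tj (x : State) (j : ℕ) (b : ℕ × ℕ) (s : Lab) (B : P) : ℝ := (q.e j x b 0 s B).re
def P0 (μ : Measure Om) (p : Pre) : Lab → ℕ → ℝ := Ph (q.T0 μ p (1, 1))
def Pj (x : State) (j : ℕ) : Lab → ℕ → ℝ := Ph (q.Tj x j (1, j + 1))
/-- bulk and side energy of the checkerboard phases relative to phase 0 -/
def ff (m : Measure ℝ) (p : Pre) : ℝ := av (q.P0 (mu0 m) p) 1 6 - av (q.P0 (mu0 m) p) 0 6 +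
  ∑' i, (av (q.Pj (q.xs m p i) i) 1 6 - av (q.Pj (q.xs m p i) i) 0 6) / (q.L : ℝ) ^ (2 * i)
def gg (m : Measure ℝ) (p : Pre) : ℝ := Gs (q.P0 (mu0 m) p) 1 - Gs (q.P0 (mu0 m) p) 0 +
  ∑' i, (Gs (q.Pj (q.xs m p i) i) 1 - Gs (q.Pj (q.xs m p i) i) 0) / (q.L : ℝ) ^ i
def Tie (m : Measure ℝ) (p : Pre) : Prop := q.ff m p = 0 ∧ q.gg m p = 0

/-- standing assumptions on the data at scale 0 -/
structure Sc (t0 η ν ρ : ℝ) (m : Measure ℝ) (p : Pre) (y : ℕ × ℕ → P → Om → ℝ) : Prop where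
  t : 0 < t0 ∧ t0 ≤ 1
  prob : IsProbabilityMeasure m
  neg : m.map (fun x => -x) = m
  S : q.PreS t0 m p
  B : q.PreB t0 m p (q.C * η) (q.C * η ^ 2) ν ρ y
  hη : 0 < η ∧ 10 ^ 7 * q.C ^ 5 * η ≤ q.ε
  hν : 0 ≤ ν ∧ 1 ≤ ρ ∧ ν * ρ ^ 8 ≤ q.C * η ^ 2
  lam : ∀ s, η ≤ p.lam s ∧ p.lam s ≤ 2 * η
def GdAt (t0 η ν ρ : ℝ) (m : Measure ℝ) (p : Pre) (j : ℕ) : Prop :=
  q.Good t0 j (q.xs m p j) (4 * q.C ^ 2 * η) (ν / 16 ^ j) (ρ * (21 / 20) ^ j)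
/-- the coupling of phase `s` is shadowed at scale `j` by the Gaussian flow `mu` -/
def ShAt (η : ℝ) (m : Measure ℝ) (p : Pre) (mu : ℝ) (s : Lab) (j : ℕ) : Prop :=
  |(q.xs m p j).lam s - (q.gau mu j).lam s| ≤ 32 * q.C ^ 2 * η ^ 2 / 4 ^ j
def Sh (η : ℝ) (m : Measure ℝ) (p : Pre) (mu : Lab → ℝ) : Prop :=
  mu 1 = mu 2 ∧ ∀ s, 0 ≤ mu s ∧ mu s ≤ 3 * η ∧ ∀ j, q.ShAt η m p (mu s) s j
/-- the whole package for one flow -/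
structure Fl (t0 η ν ρ : ℝ) (m : Measure ℝ) (p : Pre) (y : ℕ × ℕ → P → Om → ℝ) (mu : Lab → ℝ) :
    Prop where
  rg : RG q
  sc : q.Sc t0 η ν ρ m p y
  gd : ∀ j, q.GdAt t0 η ν ρ m p j
  sh : q.Sh η m p mu
/-- the clamp is idle -/
def Idle (m : Measure ℝ) (p : Pre) : Prop :=
  (∀ b, ok b 0 → ∀ s, ∀ B ∈ box (q.m b 0), q.d0 (mu0 m) p b s B = q.D0 (mu0 m) p b s B) ∧
  ∀ j b z, ok b (j + 1) → ∀ s, ∀ B ∈ box (q.m b (j + 1)),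
    q.d' j (q.xs m p j) b z s B = q.D' j (q.xs m p j) b z s B
def Cn (p : Pre) (a bb η : ℝ) : Prop := ∀ b, ok b 0 → ∀ s, ∀ T ∈ box (q.m b 0),
  ¬ corner (q.m b 0) T → |Real.log (p.c b s T) - (nbe (q.n b) q.L s T False * a +
    nbe (q.n b) q.L s T True * bb)| ≤ η
def Cs (p : Pre) (σ : ℝ) : Prop := ∀ b, ok b 0 → ∀ s, ∀ T ∈ box (q.m b 0),
  ¬ corner (q.m b 0) T → |Real.log (p.c b s T)| ≤ σ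
def Cc (p : Pre) (lr : ℝ) : Prop := ∀ b, ok b 0 → ∀ s, ∀ T ∈ box (q.m b 0),
  corner (q.m b 0) T → |Real.log (p.c b s T) - cor (q.n b) (cell q.L T) s * lr| ≤ q.C
def cr (b : ℕ × ℕ) (s : Lab) : ℝ :=
  ∑ T ∈ (box (q.m b 0)).filter (corner (q.m b 0)), cor (q.n b) (cell q.L T) s
/-- logarithm of the weight of phase `s` in the box `b` -/
def lp (m : Measure ℝ) (p : Pre) (mu : Lab → ℝ) (b : ℕ × ℕ) (s : Lab) : ℝ :=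
  -(∑ B ∈ box (q.m b 0), (q.T0 (mu0 m) p b s B - q.T0 PP (q.gPre (mu s)) b 0 B) +
    ∑ j ∈ range b.2, ∑ B ∈ box (q.m b j),
      (q.Tj (q.xs m p j) j b s B - q.Tj (q.gau (mu s) j) j b 0 B)) -
    ((q.n b : ℝ) - 1) ^ 2 / 2 * Real.log (1 + mu s)
def ZZ (m : Measure ℝ) (p : Pre) (b : ℕ × ℕ) (z : ℂ) : ℂ :=
  Complex.exp (-∑ B ∈ box (q.m b 0), q.e0 (mu0 m) p b 0 B -
    ∑ j ∈ range b.2, ∑ B ∈ box (q.m b j), q.et j (q.xs m p j) b z 0 B) * q.finW (q.xs m p b.2) b z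
end Par

/-! pure analysis -/
def S_f_abs : Prop := ∀ (G : ℕ → Prop) (Δ : Lab → ℕ → ℝ → ℝ) (a b : Lab → ℝ) (w : ℝ), 0 < w →
  (∀ s, a s ≤ b s) → (∀ s j, ContinuousOn (Δ s j) (Set.Icc (a s) (b s))) → G 0 →
  (∀ s, Δ s 0 (a s) = w ∧ Δ s 0 (b s) = -w ∧ ∀ x ∈ Set.Icc (a s) (b s), |Δ s 0 x| ≤ w) →
  (∀ s j, ∀ x ∈ Set.Icc (a s) (b s), (∀ i ≤ j, G i ∧ |Δ s i x| ≤ w / 4 ^ i) →
    |Δ s (j + 1) x - Δ s j x| ≤ w / 4 ^ j / 2) →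
  (∀ j, (∀ i ≤ j, G i) → (∀ s, ∃ x ∈ Set.Icc (a s) (b s), ∀ i ≤ j, |Δ s i x| ≤ w / 4 ^ i) →
    G (j + 1)) →
  (∀ j, G j) ∧ ∀ s, ∃ x ∈ Set.Icc (a s) (b s), ∀ j, |Δ s j x| ≤ w / 4 ^ j
def S_f_mir : Prop := ∀ f g : rect → ℝ, Continuous f → Continuous g →
  (∀ τ : rect, τ.1.1 = -(1 / 100) → 0 < f τ) → (∀ τ : rect, τ.1.1 = 1 / 100 → f τ < 0) →
  (∀ τ : rect, τ.1.2 = 1 / 10 → 0 < g τ) → (∀ τ : rect, τ.1.2 = 9 / 10 → g τ < 0) →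
  ∃ τ, f τ = 0 ∧ g τ = 0
def S_f_poly : Prop := ∀ (L : ℕ) (α β c1 c2 : ℝ), 2 ≤ L →
  (∀ J : ℕ, 1 ≤ J → |α * ((L : ℝ) ^ (J + 2)) ^ 2 + β * (L : ℝ) ^ (J + 2)| ≤ c1 + c2 * J) →
  α = 0 ∧ β = 0
def S_f_even : Prop := ∀ (t0 R : ℝ) (w mu : Lab → ℝ) (Ψ : Lab → ℂ → ℂ) (Z : ℂ → ℂ), 0 < t0 →
  0 ≤ R → (∀ s, 0 < w s ∧ 0 ≤ mu s ∧ mu s ≤ 1 ∧ DifferentiableOn ℂ (Ψ s) (Metric.ball 0 t0) ∧
    (Ψ s 0).im = 0 ∧ ∀ z, ‖z‖ < t0 → ‖Ψ s z - 1‖ ≤ 1 / 10) →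
  (∀ z, ‖z‖ < t0 → Z (-z) = Z z ∧
    Z z = ∑ s, w s * Ψ s z * Complex.exp (-(mu s / 2 : ℂ) * z ^ 2 * R)) →
  Z 0 = (∑ s, w s * (Ψ s 0).re : ℝ) ∧ ∀ t : ℝ, |t| ≤ t0 / 2 →
    ‖Z t / Z 0 - (1 - (∑ s, w s * (Ψ s 0).re * mu s) / (∑ s, w s * (Ψ s 0).re) * R * t ^ 2 / 2 : ℝ)‖
      ≤ 100 / t0 ^ 2 * t ^ 2 + R ^ 2 * t ^ 4
def S_f_num : Prop := ∀ η R gap Bw h (τ : rect), let o := Mod.mk' η R gap Bw h τ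
  (τ.1.2 = 1 / 10 → o.bb - τ.1.1 ≤ -(1 / 50)) ∧ (τ.1.2 = 9 / 10 → 1 / 50 ≤ o.bb - τ.1.1) ∧
    2 / 5 ≤ o.gam ∧ o.gam ≤ 1
/-- the arithmetic of the mean stiffness -/
def S_f_vee : Prop := ∀ (η c r : ℝ) (l ψ mu : Lab → ℝ), 0 < η → η ≤ 1 / 3 → 0 ≤ c → 0 < r →
  (∀ s, 1 / 2 ≤ ψ s ∧ ψ s ≤ 2 ∧ η / 2 ≤ mu s ∧ mu s ≤ 3 * η) → mu 1 = mu 2 → mu 0 + η / 4 ≤ mu 1 →
  let v := (∑ s, Real.exp (l s) * ψ s * mu s) / ∑ s, Real.exp (l s) * ψ s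
  0 ≤ v ∧ v ≤ 1 ∧ (|l 1 - l 0 - Real.log r| ≤ c → mu 1 - 12 * η * Real.exp c / r ≤ v) ∧
    (|l 1 - l 0| ≤ c → |l 2 - l 0| ≤ c → v ≤ mu 1 - η * Real.exp (-c) / 40)

/-! lattice sums -/
def S_f_canon : Prop := ∀ (m m0 : ℕ) (T T0 : Lab → P → ℝ), 30 ≤ m → 30 ≤ m0 →
  (∀ g c s, ∀ B ∈ box m, Mv m m0 g c (near 4 (box m) {B}) → T0 (pm g c s) (fm g c B) = T s B) →
  Can m T (Ph T0)
def S_f_sum1 : Prop := ∀ (N m' : ℕ) (T : Lab → P → ℝ) (Φ : Lab → ℕ → ℝ) (s : Lab) (p : ℝ) (B' : P),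
  7 ≤ N → B' ∈ box m' → ¬ corner m' B' → Can (N * m') T Φ →
  (∀ d ≤ 6, |Φ s d - Φ (Equiv.swap 1 2 s) d| ≤ 2 * p) →
  |∑ B ∈ cell N B', T s B - ((N : ℝ) ^ 2 * av Φ s 6 + if deep 1 m' B' then 0 else N * Gs Φ s)| ≤
    8 * p
def S_f_sum2 : Prop := ∀ (m : ℕ) (T : Lab → P → ℝ) (Φ : Lab → ℕ → ℝ) (s : Lab) (M : ℝ), 13 ≤ m →
  (∀ B ∈ box m, ¬ cz m B → T s B = Φ (cls s B) (dep m B)) →
  (∀ d ≤ 6, |Φ s d| ≤ M ∧ |Φ (Equiv.swap 1 2 s) d| ≤ M) → (∀ B ∈ box m, cz m B → |T s B| ≤ M) →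
  |∑ B ∈ box m, T s B - ((m : ℝ) ^ 2 * av Φ s 6 + 4 * m * Gs Φ s)| ≤ 1000 * M
def S_f_cnt : Prop := ∀ q : Par, 100 ≤ q.L → Odd q.L →
  (∀ n s T side, nbe n q.L s T side ≤ q.L ^ 2 ∧ nbe n q.L 0 T side = 0) ∧
  (∀ d ≤ 6, nbe (q.n (1, 1)) q.L 1 (rf d) True + nbe (q.n (1, 1)) q.L 2 (rf d) True =
      (if d = 0 then q.L else 0) ∧
    nbe (q.n (1, 1)) q.L 1 (rf d) False + nbe (q.n (1, 1)) q.L 2 (rf d) False +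
      (if d = 0 then q.L else 0) = q.L ^ 2) ∧
  ∀ J, q.cr (1, J) 1 = 1 ∧ (∀ s, q.cr (2, J) s = 0) ∧ ∀ k, q.cr (k, J) 0 = 0

/-! the flow -/
def S_f_slave : Prop := ∀ (q : Par) t0 η ν ρ m p y (mu : ℝ) s j, RG q → q.Sc t0 η ν ρ m p y →
  0 ≤ mu → mu ≤ 3 * η → (∀ i < j, q.GdAt t0 η ν ρ m p i ∧ q.ShAt η m p mu s i) →
  ∀ b, Par.ok b j →
    q.Dif t0 j (q.xs m p j) (q.gau mu j) s b (intr (q.m b j)) (16 * q.C ^ 2 * η ^ 2 / 4 ^ j) ∧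
    q.Dif t0 j (q.xs m p j) (q.gau mu j) s b (box (q.m b j)) (2 * q.C ^ 2 * η / 4 ^ j)
def S_f_flow : Prop := ∀ (q : Par) t0 η ν ρ m p y, RG q → q.Sc t0 η ν ρ m p y →
  ∃ mu, q.Fl t0 η ν ρ m p y mu
def S_f_est : Prop := ∀ (q : Par) t0 η ν ρ m p y mu, q.Fl t0 η ν ρ m p y mu →
  ∀ j b z s, ∀ B ∈ box (q.m b j), Par.ok b (j + 1) → ‖z‖ ≤ t0 →
    ‖q.e j (q.xs m p j) b z s B‖ ≤ 8 * q.C ^ 3 * η ∧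
    ‖q.e j (q.xs m p j) b z s B - q.e j (q.gau (mu s) j) b z 0 B‖ ≤ 3 * q.C ^ 3 * η / 4 ^ j ∧
    ‖q.et j (q.xs m p j) b z s B - q.et j (q.gau (mu s) j) b z 0 B‖ ≤ 4 * q.C ^ 3 * η / 4 ^ j
/-- canonical forms of the energies of the model and of the Gaussian flows -/
def S_f_can : Prop := ∀ (q : Par) t0 η ν ρ m p y mu, q.Fl t0 η ν ρ m p y mu → ∀ b,
  (Par.ok b 0 → Can (q.m b 0) (q.T0 (mu0 m) p b) (q.P0 (mu0 m) p) ∧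
    Can (q.m b 0) (fun s => q.T0 PP (q.gPre (mu s)) b 0)
      (Ph fun s => q.T0 PP (q.gPre (mu s)) (1, 1) 0)) ∧
  ∀ j, Par.ok b (j + 1) → Can (q.m b j) (q.Tj (q.xs m p j) j b) (q.Pj (q.xs m p j) j) ∧
    Can (q.m b j) (fun s => q.Tj (q.gau (mu s) j) j b 0)
      (Ph fun s => q.Tj (q.gau (mu s) j) j (1, j + 1) 0)
def S_f_chain : Prop := ∀ (q : Par) t0 η ν ρ m p y mu, q.Fl t0 η ν ρ m p y mu → q.Idle m p →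
  ∀ b z, Par.ok b b.2 → ‖z‖ ≤ t0 →
    (∀ (F : Fld → ℂ) (c : ℂ), (∀ θ, Dir (q.n b) θ →
      F (bg (q.n b) z + cf θ) = c * q.Wpre (mu0 m) p b z (bg (q.n b) z + cf θ)) →
      Tot q.L (q.n b) b.2 F (bg (q.n b) z) = c * q.ZZ m p b z) ∧
    ∀ s, ∑ B ∈ box (q.m b b.2), ((q.xs m p b.2).a b z).d s B =
      ∑ B ∈ box (q.m b 0), (q.e0 (mu0 m) p b s B - q.e0 (mu0 m) p b 0 B) +
        ∑ j ∈ range b.2, ∑ B ∈ box (q.m b j),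
          (q.et j (q.xs m p j) b z s B - q.et j (q.xs m p j) b z 0 B)
def S_f_tie : Prop := ∀ (q : Par) t0 η ν ρ m (p : rect → Par.Pre) y (bb : rect → ℝ), RG q →
  (∀ τ, q.Sc t0 η ν ρ m (p τ) y) → Par.PreC p → (∀ τ, q.Cn (p τ) τ.1.1 (bb τ) η) →
  (∀ τ : rect, τ.1.2 = 1 / 10 → bb τ - τ.1.1 ≤ -(1 / 50)) →
  (∀ τ : rect, τ.1.2 = 9 / 10 → 1 / 50 ≤ bb τ - τ.1.1) →
  ∃ τ, q.Tie m (p τ) ∧ q.Cs (p τ) (1000 * q.C ^ 4 * η)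
def S_f_idle : Prop := ∀ (q : Par) t0 η ν ρ m p y mu, q.Fl t0 η ν ρ m p y mu → q.Tie m p →
  q.Cs p (1000 * q.C ^ 4 * η) → q.Idle m p
def S_f_pa : Prop := ∀ (q : Par) t0 η ν ρ m p y mu (lr : ℝ), q.Fl t0 η ν ρ m p y mu →
  q.Cs p (1000 * q.C ^ 4 * η) → q.Cc p lr → ∀ s, ∃ α β : ℝ, ∀ b, Par.ok b b.2 →
    |q.lp m p mu b s - (α * (q.n b : ℝ) ^ 2 + β * q.n b + q.cr b s * lr)| ≤ 10 ^ 4 * q.C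
def S_f_pb : Prop := ∀ (q : Par) t0 η ν ρ m p y mu, q.Fl t0 η ν ρ m p y mu → q.Idle m p →
  ∀ s b, Par.ok b b.2 →
    |q.lp m p mu b s - q.lp m p mu b 0| ≤ q.C + 4 * Real.log ρ + 2 + 4 * b.2
def S_f_zdep : Prop := ∀ (q : Par) t0 η ν ρ m p y mu, q.Fl t0 η ν ρ m p y mu → q.Idle m p →
  ∀ b, Par.ok b b.2 → ∃ Ψ : Lab → ℂ → ℂ, (∀ s, DifferentiableOn ℂ (Ψ s) (Metric.ball 0 t0) ∧
    (Ψ s 0).im = 0 ∧ ∀ z, ‖z‖ < t0 → ‖Ψ s z - 1‖ ≤ 1 / 10) ∧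
    ∀ z, ‖z‖ < t0 → q.ZZ m p b (-z) = q.ZZ m p b z ∧ q.ZZ m p b z =
      ∑ s, (Real.exp (q.lp m p mu b s) : ℝ) * Ψ s z *
        Complex.exp (-(mu s / 2 : ℂ) * z ^ 2 * Rt (q.n b))

end Pool.Agent.Lib.MP_9cc147_pr.Cx
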