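import Pool.Agent.Lib.MP_9cc147_pr.Cx.F.S
import Pool.Agent.Lib.MP_9cc147_pr.Cx.F.Kit

/-! The neutral activities follow the Gaussian flow that shadows the coupling. -/

open scoped Classical Topology
open Finset MeasureTheory ProbabilityTheory Filter

namespace Pool.Agent.Lib.MP_9cc147_pr.Cx

theorem fslave_ref {q : Par} (hL : 100 ≤ q.L) : q.ref ⊆ intr (q.L ^ 2) := by
  intro B hB
  obtain ⟨h1, a, ha, h2⟩ := mem_filter.1 hB
  refine mem_filter.2 ⟨h1, ?_⟩
  have h3 : 100 * 100 ≤ q.L ^ 2 := by rw [sq]; exact Nat.mul_le_mul hL hL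
  simp only [mem_insert, mem_singleton, Par.Bc] at ha
  unfold nr at h2
  unfold deep
  generalize q.L ^ 2 = N at *
  rw [abs_le, abs_le] at h2
  rcases ha with rfl | rfl <;> simp only [Prod.fst_add, Prod.snd_add] at h2 <;> omega

theorem fslave_near {L m : ℕ} (hL : 100 ≤ L) {U : Finset P} (hU : U ⊆ intr m) :
    near 8 (box (L * m)) (under L U) ⊆ intr (L * m) := by
  intro B hB
  obtain ⟨h1, a, ha, h2⟩ := mem_filter.1 hB
  refine mem_filter.2 ⟨h1, ?_⟩
  obtain ⟨B', hB', ha⟩ := mem_biUnion.1 ha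
  obtain ⟨-, d1, d2, d3, d4⟩ := mem_filter.1 (hU hB')
  obtain ⟨⟨c1, c2⟩, c3, c4⟩ := f_mem_cell'.1 ha
  unfold nr at h2
  rw [abs_le, abs_le] at h2
  have hL' : (100 : ℤ) ≤ L := by exact_mod_cast hL
  push_cast at *
  have e1 : (1 : ℤ) * L ≤ B'.1 * L := by gcongr
  have e2 : (B'.1 + 2) * L ≤ (m : ℤ) * L := by gcongr; omega
  have e3 : (1 : ℤ) * L ≤ B'.2 * L := by gcongr
  have e4 : (B'.2 + 2) * L ≤ (m : ℤ) * L := by gcongr; omega
  unfold deep
  push_cast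
  refine ⟨?_, ?_, ?_, ?_⟩ <;> nlinarith

theorem fslave_nu {ν ρ c : ℝ} (h0 : 0 ≤ ν) (h : ν * ρ ^ 8 ≤ c) (j : ℕ) :
    ν / 16 ^ j * (ρ * (21 / 20) ^ j) ^ 8 ≤ c / 4 ^ j := by
  have h1 : ((21 / 20 : ℝ) ^ j) ^ 8 ≤ 4 ^ j := by
    rw [← pow_mul, mul_comm, pow_mul]; gcongr; norm_num
  have h2 : (16 : ℝ) ^ j = 4 ^ j * 4 ^ j := by rw [← mul_pow]; norm_num
  have h3 : 0 ≤ ν * ρ ^ 8 := by positivity
  calc _ = ν * ρ ^ 8 * ((21 / 20 : ℝ) ^ j) ^ 8 / 16 ^ j := by ring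
    _ ≤ c * 4 ^ j / 16 ^ j := by gcongr; linarith
    _ = c / 4 ^ j := by rw [h2]; field_simp

theorem t_f_slave : S_f_slave := by
  intro q t0 η ν ρ m p y mu s j rg sc hmu0 hmu
  have hL : (100 : ℝ) ≤ q.L := by exact_mod_cast rg.L
  have hC : (10000 : ℝ) ≤ q.C := by nlinarith [rg.C]
  have hA : 0 ≤ q.A := by linarith [rg.A]
  obtain ⟨η0, hη⟩ := sc.hη
  obtain ⟨ε0, ε1⟩ := rg.ε
  have C1 : (1 : ℝ) ≤ q.C := by linarith
  have p1 : ∀ k, k ≤ 5 → q.C ^ k * η ≤ q.C ^ 5 * η := fun k hk => by gcongr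
  have a5 : 0 ≤ q.C ^ 5 * η := by positivity
  have η1 : η ≤ 1 / 100 := by have := p1 0 (by norm_num); simp only [pow_zero] at this; linarith
  have hg := (rg.gau t0 mu (3 * η) sc.t.1 sc.t.2 hmu0 hmu
    (by have := p1 3 (by norm_num); linarith)).1
  have c2 : 0 ≤ q.C ^ 2 * η := by positivity
  have c3 : 0 ≤ q.C ^ 2 * η ^ 2 := by positivity
  have c4 : q.C ^ 2 * η ^ 2 ≤ q.C ^ 2 * η / 100 := by nlinarith
  induction j with
  | zero =>
    intro _ b hb
    have := sc.prob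
    obtain ⟨-, i2, i3, -⟩ := rg.init t0 m p _ _ ν ρ y sc.t.1 sc.t.2 sc.neg sc.S sc.B (by positivity)
      (by nlinarith [mul_pos (lt_of_lt_of_le one_pos C1) η0])
      (by have := p1 1 (by norm_num); simp only [pow_one] at this; linarith)
      sc.hν.1 sc.hν.2.1 sc.hν.2.2
    have g := ((hg 0).2.2 s b hb).symm
    refine ⟨((i3 s b hb).trans (g.sub (filter_subset _ _))).mono hA subset_rfl ?_,
      ((Par.Dif.zero_of_bnd i2 hb).trans g).mono hA subset_rfl ?_⟩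
    · simp only [pow_zero]; nlinarith
    · simp only [pow_zero]; nlinarith
  | succ j ih =>
    intro h b hb
    have ih' := ih fun i hi => h i (by omega)
    obtain ⟨gx, sx⟩ := h j (by omega)
    have gg : q.Good t0 j (q.gau mu j) (4 * q.C ^ 2 * η) 0 3 :=
      (hg j).1.monoA hA (by nlinarith [mul_nonneg (by nlinarith : 0 ≤ q.C ^ 2 - 3) η0.le]) gx.a.2
    have f4 : (0 : ℝ) < 4 ^ j := by positivity
    have n1 := fslave_nu sc.hν.1 sc.hν.2.2 j
    have key : ∀ (δ : ℝ) (V : Finset P), 0 ≤ δ →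
        q.Dif t0 j (q.xs m p j) (q.gau mu j) s (1, j + 1) q.ref δ →
        (∀ U ⊆ V, q.Dif t0 j (q.xs m p j) (q.gau mu j) s b
          (near 8 (box (q.m b j)) (under q.L U)) δ) →
        q.Dif t0 (j + 1) (q.xs m p (j + 1)) (q.gau mu (j + 1)) s b V
          (δ / 16 + 2 * q.C ^ 2 * η ^ 2 / 4 ^ j) := by
      intro δ V hδ d1 d2 z U hz hU hV
      have k1 := ((rg.k1 t0 j _ _ _ _ gx b z hb hz).2 U hU).2 s
      have k2 := ((rg.k1 t0 j _ _ _ _ gg b z hb hz).2 U hU).2 s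
      have k0 := rg.k0 t0 j _ _ _ _ _ _ _ s δ b z U gx gg hδ hb hz hU d1 (d2 U hV)
      refine (((k1.add k0).sub k2).congr fun Θ => ?_).mono hA ?_
      · show ((q.step j (q.xs m p j)).a b z).K s U Θ - ((q.step j (q.gau mu j)).a b z).K s U Θ = _
        ring
      · have b1 : q.C * (ν / 16 ^ j) * (ρ * (21 / 20) ^ j) ^ 8 ≤ q.C ^ 2 * η ^ 2 / 4 ^ j := by
          rw [mul_assoc]
          refine (mul_le_mul_of_nonneg_left n1 (by linarith)).trans_eq (by ring)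
        have b2 : q.C * (4 * q.C ^ 2 * η) * |(q.xs m p j).lam s - (q.gau mu j).lam s| ≤
            q.C ^ 2 * η ^ 2 / 4 ^ j := by
          refine (mul_le_mul_of_nonneg_left sx (by positivity)).trans ?_
          rw [← mul_div_assoc]
          refine div_le_div_of_nonneg_right ?_ f4.le
          have := p1 3 (by norm_num)
          nlinarith
        have : 2 * q.C ^ 2 * η ^ 2 / 4 ^ j = 2 * (q.C ^ 2 * η ^ 2 / 4 ^ j) := by ring
        linarith
    have r := ih' (1, j + 1) (Par.ok_ref j).pred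
    have r' := ih' b hb.pred
    constructor
    · refine (key _ _ (by positivity) (r.1.sub ?_) fun U hU => r'.1.sub ?_).mono hA subset_rfl ?_
      · rw [q.m_ref]; exact fslave_ref rg.L
      · rw [q.m_succ hb.pred.2.1]; exact fslave_near rg.L hU
      · rw [pow_succ]
        have : 0 ≤ q.C ^ 2 * η ^ 2 / 4 ^ j := by positivity
        calc _ = 3 * (q.C ^ 2 * η ^ 2 / 4 ^ j) := by ring
          _ ≤ 4 * (q.C ^ 2 * η ^ 2 / 4 ^ j) := by linarith
          _ = _ := by field_simp; ring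
    · refine (key _ _ (by positivity) (r.2.sub ?_) fun U _ => r'.2.sub (f_near_sub _ _ _)).mono hA
        subset_rfl ?_
      · rw [q.m_ref]; exact f_near_sub _ _ _
      · rw [pow_succ]
        calc _ = (q.C ^ 2 * η / 8 + 2 * (q.C ^ 2 * η ^ 2)) / 4 ^ j := by ring
          _ ≤ (q.C ^ 2 * η / 2) / 4 ^ j := div_le_div_of_nonneg_right (by linarith) f4.le
          _ = _ := by field_simp; ring

end Pool.Agent.Lib.MP_9cc147_pr.Cx
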