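import Pool.Agent.Lib.MP_9cc147_pr.Cx.F.S
import Pool.Agent.Lib.MP_9cc147_pr.Cx.F.Par

/-! Lattice sums of functions of the parity and of the depth. -/

open scoped Classical
open Finset

noncomputable section
namespace Pool.Agent.Lib.MP_9cc147_pr.Cx

theorem fsum_le (m : ℕ) (x : ℤ) : dp m x ≤ 6 := min_le_left _ _

theorem fsum_mid {m : ℕ} {a c : ℤ} (ha : 6 ≤ a) (hc : c ≤ m - 6) (F : ℤ → ℕ → ℝ) :
    ∑ y ∈ Ico a c, F y (dp m y) = ∑ y ∈ Ico a c, F y 6 :=
  sum_congr rfl fun y hy => by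
    have := mem_Ico.1 hy
    rw [show dp m y = 6 by unfold dp; omega]

theorem fsum_lo {m : ℕ} {c : ℤ} (hm : 12 ≤ m) (hc : 6 ≤ c) (F : ℤ → ℕ → ℝ) :
    ∑ y ∈ Ico 0 c, F y (dp m y) = ∑ d ∈ range 6, F d d + ∑ y ∈ Ico 6 c, F y (dp m y) := by
  rw [← Ico_union_Ico_eq_Ico (show (0 : ℤ) ≤ 6 by norm_num) hc,
    sum_union (Ico_disjoint_Ico_consecutive _ _ _)]
  congr 1
  refine (sum_nbij' (fun d : ℕ => (d : ℤ)) (fun y => y.toNat) ?_ ?_ ?_ ?_ ?_).symm
  · intro d hd; simp only [mem_range, mem_Ico] at hd ⊢; omega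
  · intro d hd; simp only [mem_range, mem_Ico] at hd ⊢; omega
  · intro d _; simp
  · intro d hd; simp only [mem_Ico] at hd; omega
  · intro d hd
    simp only [mem_range] at hd
    rw [show dp m d = d by unfold dp; omega]

theorem fsum_hi {m : ℕ} {a : ℤ} (hm : 12 ≤ m) (ha : a ≤ m - 6) (F : ℤ → ℕ → ℝ) :
    ∑ y ∈ Ico a m, F y (dp m y) =
      ∑ d ∈ range 6, F (m - 1 - d) d + ∑ y ∈ Ico a (m - 6 : ℤ), F y (dp m y) := by
  rw [← Ico_union_Ico_eq_Ico ha (show (m : ℤ) - 6 ≤ m by omega),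
    sum_union (Ico_disjoint_Ico_consecutive _ _ _), add_comm]
  congr 1
  refine (sum_nbij' (fun d : ℕ => (m : ℤ) - 1 - d) (fun y => ((m : ℤ) - 1 - y).toNat)
    ?_ ?_ ?_ ?_ ?_).symm
  · intro d hd; simp only [mem_range, mem_Ico] at hd ⊢; omega
  · intro d hd; simp only [mem_range, mem_Ico] at hd ⊢; omega
  · intro d _; simp
  · intro d hd; simp only [mem_Ico] at hd; omega
  · intro d hd
    simp only [mem_range] at hd
    rw [show dp m (m - 1 - d) = d by unfold dp; omega]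

/-- the two one dimensional sums over an interval of length `N` that touches `k` ends -/
def fsumL (m : ℕ) (J : Finset ℤ) (N k : ℝ) : Prop :=
  (∀ ψ : ℕ → ℝ, ∑ y ∈ J, ψ (dp m y) = N * ψ 6 + k * ∑ d ∈ range 6, (ψ d - ψ 6)) ∧
  ∀ (ψ : ℕ → ℝ) (p : ℝ), (∀ d ≤ 6, |ψ d| ≤ p) → |∑ y ∈ J, ψ (dp m y) * f_sg y| ≤ (6 * k + 1) * p

theorem fsum_six (ψ : ℕ → ℝ) (p : ℝ) (h : ∀ d ≤ 6, |ψ d| ≤ p) (g : ℕ → ℤ) :
    |∑ d ∈ range 6, ψ d * f_sg (g d)| ≤ 6 * p := by
  refine (abs_sum_le_sum_abs _ _).trans ?_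
  have : ∀ d ∈ range 6, |ψ d * f_sg (g d)| ≤ p := fun d hd => by
    rw [abs_mul, f_sg_abs, mul_one]; exact h d (by have := mem_range.1 hd; omega)
  refine (sum_le_card_nsmul _ _ _ this).trans ?_
  simp

theorem fsum_c (u p : ℝ) (h : |u| ≤ p) (a c : ℤ) : |∑ y ∈ Ico a c, u * f_sg y| ≤ p := by
  rw [← mul_sum, abs_mul]
  exact (mul_le_of_le_one_right (abs_nonneg _) (f_sg_Ico _ _)).trans h

theorem fsum_card (u : ℝ) {a c : ℤ} (h : a ≤ c) : ∑ _y ∈ Ico a c, u = ((c : ℝ) - a) * u := by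
  have : (((c - a).toNat : ℤ) : ℝ) = (c : ℝ) - a := by
    rw [Int.toNat_of_nonneg (by omega)]; push_cast; ring
  rw [sum_const, Int.card_Ico, nsmul_eq_mul, ← this, Int.cast_natCast]

theorem fsumL0 {m : ℕ} {a c : ℤ} (ha : 6 ≤ a) (hc : c ≤ m - 6) (h : a ≤ c) :
    fsumL m (Ico a c) ((c : ℝ) - a) 0 := by
  refine ⟨fun ψ => ?_, fun ψ p hp => ?_⟩
  · rw [fsum_mid ha hc fun _ d => ψ d, fsum_card _ h]; ring
  · rw [fsum_mid ha hc fun y d => ψ d * f_sg y]
    simpa using fsum_c _ p (hp 6 le_rfl) a c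

theorem fsumL_lo {m : ℕ} {c : ℤ} {N k : ℝ} (hm : 12 ≤ m) (hc : 6 ≤ c) (H : fsumL m (Ico 6 c) N k) :
    fsumL m (Ico 0 c) (N + 6) (k + 1) := by
  refine ⟨fun ψ => ?_, fun ψ p hp => ?_⟩
  · rw [fsum_lo hm hc fun _ d => ψ d, H.1, sum_sub_distrib]; simp; ring
  · rw [fsum_lo hm hc fun y d => ψ d * f_sg y]
    refine (abs_add_le _ _).trans ?_
    linarith [fsum_six ψ p hp fun d => d, H.2 ψ p hp]

theorem fsumL_hi {m : ℕ} {a : ℤ} {N k : ℝ} (hm : 12 ≤ m) (ha : a ≤ m - 6)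
    (H : fsumL m (Ico a (m - 6)) N k) : fsumL m (Ico a m) (N + 6) (k + 1) := by
  refine ⟨fun ψ => ?_, fun ψ p hp => ?_⟩
  · rw [fsum_hi hm ha fun _ d => ψ d, H.1, sum_sub_distrib]; simp; ring
  · rw [fsum_hi hm ha fun y d => ψ d * f_sg y]
    refine (abs_add_le _ _).trans ?_
    linarith [fsum_six ψ p hp fun d => m - 1 - d, H.2 ψ p hp]

theorem fsumL2 {m : ℕ} (hm : 12 ≤ m) : fsumL m (Ico 0 m) m 2 := by
  have h := fsumL_lo hm (c := m) (by omega) (fsumL_hi hm (a := 6) (by omega)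
    (fsumL0 (m := m) (a := 6) (c := m - 6) le_rfl le_rfl (by omega)))
  convert h using 1
  · push_cast; ring
  · norm_num

theorem fsumL1 {N m' : ℕ} {i : ℤ} (hN : 7 ≤ N) (hm : 3 ≤ m') (h0 : 0 ≤ i) (h1 : i < m') :
    fsumL (N * m') (Ico (i * N) ((i + 1) * N)) N (if 1 ≤ i ∧ i + 1 < m' then 0 else 1) := by
  have hN' : (7 : ℤ) ≤ N := by exact_mod_cast hN
  have hm' : (3 : ℤ) ≤ m' := by exact_mod_cast hm
  have e : ((N * m' : ℕ) : ℤ) = N * m' := by push_cast; ring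
  have h12 : 12 ≤ N * m' := by nlinarith
  split_ifs with h
  · have := fsumL0 (m := N * m') (a := i * N) (c := (i + 1) * N) (by nlinarith [h.1])
      (by rw [e]; nlinarith [h.2]) (by nlinarith)
    convert this using 1
    push_cast; ring
  · by_cases hi : i = 0
    · subst hi
      have := fsumL_lo h12 (c := N) (by omega) (fsumL0 (m := N * m') (a := 6) (c := N) le_rfl
        (by rw [e]; nlinarith) (by omega))
      convert this using 1
      · simp
      · push_cast; ring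
      · norm_num
    · have hi' : i + 1 = m' := by omega
      have := fsumL_hi h12 (a := i * N) (by rw [e]; nlinarith)
        (fsumL0 (m := N * m') (a := i * N) (c := (N * m' : ℕ) - 6) (by nlinarith) le_rfl
          (by rw [e]; nlinarith))
      convert this using 1
      · rw [e, hi', mul_comm (m' : ℤ)]
      · have : (m' : ℝ) = i + 1 := by exact_mod_cast hi'.symm
        push_cast; rw [this]; ring
      · norm_num

/-- half of the difference of the two parities -/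
def fsumH (Φ : Lab → ℕ → ℝ) (s : Lab) (d : ℕ) : ℝ := (Φ s d - Φ (Equiv.swap 1 2 s) d) / 2

theorem fsum_cls (Φ : Lab → ℕ → ℝ) (s : Lab) (B : P) (d : ℕ) :
    Φ (cls s B) d = av Φ s d + fsumH Φ s d * f_sg B.1 * f_sg B.2 := by
  rw [mul_assoc, ← f_sg_add]
  unfold cls f_sg av fsumH
  split_ifs <;> ring

/-- the depth is read in the second coordinate -/
theorem fsum_two {m : ℕ} {J : Finset ℤ} {N k : ℝ} (H : fsumL m J N k) (a c : ℤ) (h : a ≤ c)
    (ψ χ : ℕ → ℝ) (p : ℝ) (hp : ∀ d ≤ 6, |χ d| ≤ p) :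
    |∑ x ∈ Ico a c, ∑ y ∈ J, (ψ (dp m y) + χ (dp m y) * f_sg x * f_sg y) -
      ((c : ℝ) - a) * (N * ψ 6 + k * ∑ d ∈ range 6, (ψ d - ψ 6))| ≤ (6 * k + 1) * p := by
  have e : ∀ x, ∑ y ∈ J, (ψ (dp m y) + χ (dp m y) * f_sg x * f_sg y) =
      (N * ψ 6 + k * ∑ d ∈ range 6, (ψ d - ψ 6)) +
        (∑ y ∈ J, χ (dp m y) * f_sg y) * f_sg x := fun x => by
    rw [sum_add_distrib, H.1, sum_mul]
    congr 1
    exact sum_congr rfl fun y _ => by ring
  simp only [e]
  rw [sum_add_distrib, fsum_card _ h, add_sub_cancel_left]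
  exact fsum_c _ _ (H.2 χ p hp) a c

theorem t_f_sum1 : S_f_sum1 := by
  intro N m' T Φ s p B' hN hB hc hT hp
  obtain ⟨⟨b1, b2⟩, b3, b4⟩ := f_mem_box.1 hB
  have hN' : (7 : ℤ) ≤ N := by exact_mod_cast hN
  have e : ((N * m' : ℕ) : ℤ) = N * m' := by push_cast; ring
  have hH : ∀ d ≤ 6, |fsumH Φ s d| ≤ p := fun d hd => by
    unfold fsumH; rw [abs_div, abs_two]; linarith [hp d hd]
  have p0 : 0 ≤ p := (abs_nonneg _).trans (hH 0 (by norm_num))
  have six : ∀ i x : ℤ, 1 ≤ i → i + 1 < m' → i * N ≤ x → x < (i + 1) * N → dp (N * m') x = 6 := by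
    intro i x h1 h2 h3 h4
    have : 6 ≤ x := by nlinarith
    have : 6 ≤ ((N * m' : ℕ) : ℤ) - 1 - x := by rw [e]; nlinarith
    unfold dp; omega
  have len : ∀ i : ℤ, (((i + 1) * N : ℤ) : ℝ) - ((i * N : ℤ) : ℝ) = N := fun i => by
    push_cast; ring
  have fin : ∀ (S : ℝ) (c : Prop) [Decidable c], (deep 1 m' B' ↔ c) →
      |S - (N : ℝ) * (N * av Φ s 6 + (if c then 0 else 1) * Gs Φ s)| ≤
        (6 * (if c then 0 else 1) + 1) * p →
      |S - ((N : ℝ) ^ 2 * av Φ s 6 + if deep 1 m' B' then 0 else N * Gs Φ s)| ≤ 8 * p := by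
    intro S c _ hc h
    by_cases h1 : c
    · rw [if_pos (hc.2 h1)]
      simp only [if_pos h1] at h
      rw [show (N : ℝ) ^ 2 * av Φ s 6 + 0 = N * (N * av Φ s 6 + 0 * Gs Φ s) by ring]
      linarith
    · rw [if_neg (mt hc.1 h1)]
      simp only [if_neg h1] at h
      rw [show (N : ℝ) ^ 2 * av Φ s 6 + N * Gs Φ s = N * (N * av Φ s 6 + 1 * Gs Φ s) by ring]
      linarith
  have hsub := f_cell_sub (L := N) (by omega) hB
  by_cases hx : 1 ≤ B'.1 ∧ B'.1 + 1 < m'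
  · have h2 := fsum_two (fsumL1 hN (show 3 ≤ m' by omega) b3 b4) (B'.1 * N) ((B'.1 + 1) * N)
      (by nlinarith) (av Φ s) (fsumH Φ s) p hH
    rw [len] at h2
    refine fin _ (1 ≤ B'.2 ∧ B'.2 + 1 < m') (by unfold deep; push_cast; tauto) ?_
    unfold Gs
    convert h2 using 3
    rw [cell, sum_product]
    refine sum_congr rfl fun x hx' => sum_congr rfl fun y hy' => ?_
    have h6 := six _ x hx.1 hx.2 (mem_Ico.1 hx').1 (mem_Ico.1 hx').2
    rw [hT s (x, y) (hsub (mem_product.2 ⟨hx', hy'⟩)) (by unfold cz; simp only; omega), fsum_cls Φ,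
      show dep (N * m') (x, y) = dp (N * m') y by
        unfold dep; simp only; have := fsum_le (N * m') y; omega]
  · have hy : 1 ≤ B'.2 ∧ B'.2 + 1 < m' := by unfold corner at hc; omega
    have h2 := fsum_two (fsumL1 hN (show 3 ≤ m' by omega) b1 b2) (B'.2 * N) ((B'.2 + 1) * N)
      (by nlinarith) (av Φ s) (fsumH Φ s) p hH
    rw [len] at h2
    refine fin _ (1 ≤ B'.1 ∧ B'.1 + 1 < m') (by unfold deep; push_cast; tauto) ?_
    unfold Gs
    convert h2 using 3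
    rw [cell, sum_product_right]
    refine sum_congr rfl fun y hy' => sum_congr rfl fun x hx' => ?_
    have h6 := six _ y hy.1 hy.2 (mem_Ico.1 hy').1 (mem_Ico.1 hy').2
    rw [hT s (x, y) (hsub (mem_product.2 ⟨hx', hy'⟩)) (by unfold cz; simp only; omega), fsum_cls Φ,
      show dep (N * m') (x, y) = dp (N * m') x by
        unfold dep; simp only; have := fsum_le (N * m') x; omega]
    ring

theorem t_f_sum2 : S_f_sum2 := by
  intro m T Φ s M hm hT hΦ hz
  have hH : ∀ d ≤ 6, |fsumH Φ s d| ≤ M := fun d hd => by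
    unfold fsumH; rw [abs_div, abs_two]
    linarith [abs_sub (Φ s d) (Φ (Equiv.swap 1 2 s) d), (hΦ d hd).1, (hΦ d hd).2]
  have M0 : 0 ≤ M := (abs_nonneg _).trans (hH 0 (by norm_num))
  have hcl : ∀ B d, d ≤ 6 → |Φ (cls s B) d| ≤ M := fun B d hd => by
    unfold cls; split_ifs
    · exact (hΦ d hd).1
    · exact (hΦ d hd).2
  have H := fsumL2 (m := m) (by omega)
  let ι : ℕ → ℝ := fun d => if d < 6 then 1 else 0
  have hι : ∑ y ∈ Ico (0 : ℤ) m, ι (dp m y) = 12 := by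
    rw [H.1 ι]; simp only [ι, sum_range_succ, sum_range_zero]; norm_num
  let E : P → ℝ := fun B => Φ (cls s B) (dp m B.1) + Φ (cls s B) (dp m B.2) - Φ (cls s B) 6
  have h1 : |∑ B ∈ box m, (T s B - E B)| ≤ 576 * M := by
    refine (abs_sum_le_sum_abs _ _).trans ?_
    have : ∀ B ∈ box m, |T s B - E B| ≤ 4 * M * (ι (dp m B.1) * ι (dp m B.2)) := fun B hB => by
      by_cases hc : cz m B
      · have a1 := abs_le.1 (hz B hB hc)
        have a2 := abs_le.1 (hcl B _ (fsum_le m B.1))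
        have a3 := abs_le.1 (hcl B _ (fsum_le m B.2))
        have a4 := abs_le.1 (hcl B 6 le_rfl)
        simp only [ι, if_pos hc.1, if_pos hc.2, E]
        rw [abs_le]; constructor <;> linarith
      · have e : T s B - E B = 0 := by
          rw [hT B hB hc]
          have l1 := fsum_le m B.1
          have l2 := fsum_le m B.2
          unfold cz at hc
          simp only [E, dep]
          by_cases h : dp m B.1 = 6
          · rw [h, min_eq_right l2]; ring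
          · rw [show dp m B.2 = 6 by omega, min_eq_left l1]; ring
        rw [e, abs_zero]
        simp only [ι]
        split_ifs <;> simp [M0]
    refine (sum_le_sum this).trans ?_
    rw [← mul_sum, box, sum_product]
    simp only []
    rw [← sum_mul_sum, hι]; linarith
  have h2 := fsum_two H 0 m (by omega) (av Φ s) (fsumH Φ s) M hH
  have h3 := fsum_two H 0 m (by omega) (fun _ => av Φ s 6) (fun _ => fsumH Φ s 6) M
    fun _ _ => hH 6 le_rfl
  have e1 : ∑ B ∈ box m, Φ (cls s B) (dp m B.2) = ∑ x ∈ Ico (0 : ℤ) m, ∑ y ∈ Ico (0 : ℤ) m,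
      (av Φ s (dp m y) + fsumH Φ s (dp m y) * f_sg x * f_sg y) := by
    rw [box, sum_product]; simp only [fsum_cls]
  have e2 : ∑ B ∈ box m, Φ (cls s B) (dp m B.1) = ∑ x ∈ Ico (0 : ℤ) m, ∑ y ∈ Ico (0 : ℤ) m,
      (av Φ s (dp m y) + fsumH Φ s (dp m y) * f_sg x * f_sg y) := by
    rw [box, sum_product_right]; simp only [fsum_cls]
    exact sum_congr rfl fun _ _ => sum_congr rfl fun _ _ => by ring
  have e3 : ∑ B ∈ box m, Φ (cls s B) 6 = ∑ x ∈ Ico (0 : ℤ) m, ∑ y ∈ Ico (0 : ℤ) m,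
      (av Φ s 6 + fsumH Φ s 6 * f_sg x * f_sg y) := by
    rw [box, sum_product]; simp only [fsum_cls]
  rw [← e3] at h3
  have h2' := h2
  rw [← e1] at h2
  rw [← e2] at h2'
  have e4 : ∑ B ∈ box m, (T s B - E B) = ∑ B ∈ box m, T s B - (∑ B ∈ box m, Φ (cls s B) (dp m B.1) +
      ∑ B ∈ box m, Φ (cls s B) (dp m B.2) - ∑ B ∈ box m, Φ (cls s B) 6) := by
    simp only [E, sum_sub_distrib, sum_add_distrib]
  rw [e4] at h1
  simp only [sub_self, sum_const_zero, mul_zero, add_zero, Int.cast_natCast, Int.cast_zero,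
    sub_zero] at h2 h2' h3
  rw [abs_le] at h1 h2 h2' h3 ⊢
  unfold Gs
  constructor <;> nlinarith [h1.1, h1.2, h2.1, h2.2, h2'.1, h2'.2, h3.1, h3.2]

end Pool.Agent.Lib.MP_9cc147_pr.Cx
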