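import Pool.Agent.Lib.MP_9cc147_pr.Cx.F.GauA
import Pool.Agent.Lib.MP_9cc147_pr.Cx.F.GauB
import Pool.Agent.Lib.MP_9cc147_pr.Cx.F.Chain

/-! The Gaussian flows stay small and are exactly solvable. -/

open scoped Classical Topology
open Finset MeasureTheory ProbabilityTheory Filter

namespace Pool.Agent.Lib.MP_9cc147_pr.Cx

theorem fg_pre (h_w12 : S_w12) {q : Par} (hL : 2 ≤ q.L) {b : ℕ × ℕ} (hb : Par.ok b 0) (mu : ℝ)
    (z : ℂ) : q.Wpre PP (q.gPre mu) b z = fun Θ => (3 * Complex.exp ((mu / 2 : ℂ) *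
      (En (bg (q.n b) z) (cell q.L (0, 0)) +
        En (bg (q.n b) z) (cell q.L ((q.m b 0 : ℤ) - 1, (q.m b 0 : ℤ) - 1))))) * VG (q.n b) mu Θ := by
  funext Θ
  obtain ⟨h1, h2⟩ := fg_m hL hb
  have l0 : q.l 0 = q.L := by simp [Par.l]
  have fl : (box (q.m b 0)).filter (ab (q.m b 0)) =
      {(0, 0), ((q.m b 0 : ℤ) - 1, (q.m b 0 : ℤ) - 1)} := by
    ext B
    simp only [mem_filter, mem_insert, mem_singleton, ab, and_iff_right_iff_imp, bp_box]
    rintro (rfl | rfl) <;> simp <;> omega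
  rw [Par.Wpre, VG, ← integral_const_mul]
  refine integral_congr_ae (ae_of_all _ fun ω => ?_)
  beta_reduce
  rw [h_w12 _ _ _ _ (fg_conn (by omega)), fg_W2 _ _ _ (N := (q.gPre mu).N b z Θ ω) fun _ _ => rfl]
  have e : ∀ s, W1 (box (q.m b 0)) ((q.gPre mu).I b z Θ ω s) ((q.gPre mu).K b z Θ ω s) =
      ∏ B ∈ box (q.m b 0), q.Ih b 0 z mu B (Θ + cf (zw (q.n b) ω)) := fun s => fg_W1 _ _
  have e2 : ∑ B ∈ box (q.m b 0), En (Θ + cf (zw (q.n b) ω)) (cell q.L B) =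
      En (Θ + cf (zw (q.n b) ω)) (box (q.n b)) := by
    rw [h2, l0]
    exact fg_cells (by omega) _ _
  simp only [e, sum_const, card_univ, Fintype.card_fin, add_zero, Par.Ih, Par.Qz, l0,
    ← Complex.exp_sum, ← mul_sum, sum_sub_distrib, e2, ← sum_filter, fl]
  rw [sum_pair (by simp; omega), mul_assoc, ← Complex.exp_add, nsmul_eq_mul]
  congr 2
  ring

theorem fg_pin {lam mu β a V0 V1 : ℝ} {k : ℂ} (h0 : 0 < V0) (h1 : V1 ≤ V0)
    (h2 : Real.exp (-(mu / 2) * 1) * V0 ≤ V1) (e0 : ‖k * V0 - 1‖ ≤ a)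
    (e1 : ‖k * V1 - Complex.exp (-(lam / 2 : ℂ) * (1 : ℝ))‖ ≤ a) (hl : |lam| ≤ 1) (hm : mu ≤ β)
    (ha : 4 * a ≤ β) : |lam| ≤ 3 * β := by
  obtain ⟨r, rfl⟩ : ∃ r, V1 = r * V0 := ⟨V1 / V0, by field_simp⟩
  have r1 : r ≤ 1 := le_of_mul_le_mul_right (by linarith) h0
  have r2 := le_of_mul_le_mul_right h2 h0
  have r0 : 0 ≤ r := (Real.exp_pos _).le.trans r2
  have a0 : 0 ≤ a := (norm_nonneg _).trans e0
  have key : |r - Real.exp (-(lam / 2))| ≤ 2 * a := by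
    have e : ((r - Real.exp (-(lam / 2)) : ℝ) : ℂ) =
        (k * (r * V0 : ℝ) - Complex.exp (-(lam / 2 : ℂ) * (1 : ℝ))) - r * (k * V0 - 1) := by
      push_cast
      ring_nf
    rw [← Real.norm_eq_abs, ← Complex.norm_real, e]
    refine (norm_sub_le _ _).trans ?_
    rw [norm_mul, Complex.norm_real, Real.norm_of_nonneg r0]
    nlinarith [norm_nonneg (k * V0 - 1)]
  obtain ⟨k1, k2⟩ := abs_le.1 key
  have x1 := Real.add_one_le_exp (-(lam / 2))
  have x2 := Real.add_one_le_exp (-(mu / 2) * 1)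
  have x3 := Real.add_one_le_exp (lam / 2)
  have x4 : Real.exp (-(lam / 2)) * Real.exp (lam / 2) = 1 := by rw [← Real.exp_add]; simp
  have x5 := Real.exp_pos (-(lam / 2))
  obtain ⟨l1, l2⟩ := abs_le.1 hl
  refine abs_le.2 ⟨by linarith, ?_⟩
  by_contra hc
  have l0 : 0 ≤ lam := by linarith
  have : Real.exp (-(lam / 2)) ≤ 1 - lam / 3 := by
    by_contra h
    nlinarith [mul_le_mul_of_nonneg_left x3 x5.le, mul_nonneg l0 (sub_nonneg.2 l2)]
  linarith

theorem fg_div {a b c v w : ℂ} (h : 3 * Complex.exp a * v = Complex.exp b * Complex.exp c * (3 * w)) :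
    w = Complex.exp a / (Complex.exp b * Complex.exp c) * v := by
  rw [div_mul_eq_mul_div, eq_div_iff (by simp)]
  linear_combination (-1 / 3 : ℂ) * h

theorem t_gau (h_w12 : S_w12) (h_tra : S_tra) (h_zel : S_zel) (h_zgau : S_zgau) (h_gpre : S_gpre)
    (h_init : S_init) (h_ee : S_ee) (h_str : S_str) (h_k0 : S_k0) (h_sid : S_sid)
    (h_fin : S_fin) : S_gau := by
  filter_upwards [h_gpre, h_init, h_ee, h_str, h_k0, h_fin, f_chain h_zel h_sid, fp_L 100,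
    fp_A fun L => 2400 * L ^ 2 + 1, fp_κ (fun _ _ => 1 / 10 ^ 6) (fun _ _ => by norm_num),
    fp_C fun _ _ _ _ => 10, fp_ε (fun _ _ _ _ _ => 1) fun _ _ _ _ _ => one_pos]
    with q hgp hin hee hst hk0 hfi hch hL hA hκ hC hε t0 mu β t1 t2 m0 m1 hβ
  obtain ⟨-, y, hy⟩ := hgp
  have β0 : 0 ≤ β := m0.trans m1
  have A0 : 0 < q.A := lt_of_lt_of_le (by positivity) hA
  have C2 : 100 ≤ q.C ^ 2 := by nlinarith
  have C3 : 10 * q.C ^ 2 * β ≤ q.ε := le_trans (by rw [pow_succ' _ 2]; gcongr) hβ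
  have b1 : 1000 * β ≤ q.ε := by nlinarith
  have b2 : q.C ^ 2 * β ^ 2 ≤ β := by nlinarith
  have δ0 : 0 ≤ q.C ^ 2 * β ^ 2 := by positivity
  have hi := hin t0 (gaussianReal 0 1) (q.gPre mu) β (β ^ 2) 0 3 y t1 t2
    (by simpa using gaussianReal_map_neg (μ := 0) (v := 1)) (hy t0 mu m0).1 ((hy t0 mu m0).2 β m1)
    (by positivity) (by nlinarith) (by linarith) le_rfl (by norm_num) (by simp; positivity)
  rw [← h_zel.1] at hi
  obtain ⟨i1, -, -, i4, i5⟩ := hi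
  have eq := fg_eqp h_tra (q := q) (by omega) hε.1.le mu
  -- states with equal phases are good
  have mk : ∀ j α, q.Str t0 j (q.gau mu j) → |(q.gau mu j).lam 0| ≤ α → β ≤ α → α ≤ q.ε →
      (∀ s b, Par.ok b j → q.Dif t0 j (q.gau mu j) zero s b (box (q.m b j)) (q.C ^ 2 * β ^ 2)) →
      q.Good t0 j (q.gau mu j) α 0 3 := by
    intro j α hs hl a1 a2 hd
    refine ⟨⟨t1, t2⟩, hs, ⟨fun s => (eq j).lam s ▸ hl, fun b z s X hb hz hX => ?_,
      fun b z X σ _ _ _ => ?_, fun b z s B _ _ _ => ?_⟩, ⟨β0.trans a1, a2⟩, le_rfl, by norm_num,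
      by simpa using hε.1.le⟩
    · simpa [zero] using fg_mono A0.le (hd s b hb z X hz hX hX.1) (b2.trans a1)
    · rw [show ((q.gau mu j).a b z).N X σ = fun _ => 0 from funext ((eq j).N b z X σ)]
      exact fg_bd0 q _ _ _ _ A0.le (by simp)
    · rw [(eq j).d]
      split_ifs
      · simp
      · simpa using hε.1.le
  -- the exact identities
  have ch := fun (b : ℕ × ℕ) (z : ℂ) (hb : Par.ok b b.2) (hz : ‖z‖ ≤ t0)
      (hg : ∀ j < b.2, q.Good t0 j (q.gau mu j) (3 * β) 0 3) =>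
    hch t0 (q.init PP (q.gPre mu)) (fun _ => 3 * β) (fun _ => 0) (fun _ => 3) b z _ _ hb hz hg
      (fun j _ s B _ => ((eq (j + 1)).d b z s B).trans
        ((fg_step h_tra (by omega) hε.1.le j (eq j)).2.1 b z s B).symm)
      fun θ hθ => i5 b z θ ⟨hb.1, Nat.zero_le _, hb.2.2⟩ hz hθ fun s B _ =>
        ((eq 0).d b 0 s B).trans ((fg_init h_tra hε.1.le PP mu).2 b s B).symm
  have hn : ∀ {b j}, Par.ok b j → 2 ≤ q.n b ∧ 100 ≤ q.l j := fun {b j} hb => by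
    have h1 : q.L ≤ q.l j := Nat.le_self_pow (by omega) _
    obtain ⟨h2, h3⟩ := fg_m (q := q) (by omega) hb
    exact ⟨h3 ▸ by nlinarith [hL.2], hL.2.trans h1⟩
  have main : ∀ j, q.Good t0 j (q.gau mu j) (3 * β) 0 3 ∧ ∀ s b, Par.ok b j →
      q.Dif t0 j (q.gau mu j) zero s b (box (q.m b j)) (q.C ^ 2 * β ^ 2) := by
    intro j
    induction j using Nat.strong_induction_on with
    | _ j ih =>
    rcases j with _ | j
    · have hd : ∀ s b, Par.ok b 0 →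
          q.Dif t0 0 (q.gau mu 0) zero s b (box (q.m b 0)) (q.C ^ 2 * β ^ 2) :=
        fun s b hb z X hz hX hV => fg_mono A0.le
          (i4 le_rfl (fun _ _ _ _ _ _ => rfl) (fun _ _ _ => rfl) s b hb z X hz hX hV)
          (by nlinarith [sq_nonneg β])
      exact ⟨mk 0 _ i1 ((abs_of_nonneg m0).trans_le (by linarith)) (by linarith) (by linarith) hd,
        hd⟩
    obtain ⟨gx, dx⟩ := ih j (by omega)
    have g0 := fg_zero A0.le t1 t2 gx.a.1 gx.a.2 j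
    have dr := fun s => fg_dif (dx s (1, j + 1) ⟨.inl rfl, by simp, by simp⟩) q.ref
    have hd : ∀ s b, Par.ok b (j + 1) → q.Dif t0 (j + 1) (q.gau mu (j + 1)) zero s b
        (box (q.m b (j + 1))) (q.C ^ 2 * β ^ 2) := by
      intro s b hb z X hz hX _
      have h := hk0 t0 j _ _ _ _ _ _ _ 0 _ b z X gx g0 δ0 hb hz hX (dr 0)
        (fg_dif (dx 0 b ⟨hb.1, by have := hb.2.1; omega, hb.2.2⟩) _)
      have e : (fun Θ => ((q.gau mu (j + 1)).a b z).K s X Θ - (zero.a b z).K s X Θ) =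
          fun Θ => q.K0 j (q.gau mu j) b z 0 X Θ - q.K0 j zero b z 0 X Θ := by
        funext Θ
        rw [fg_K0 _ _ _ _ _ hX.2.1, ← (fg_step h_tra (by omega) hε.1.le j (eq j)).2.2 b z s X Θ]
        rfl
      rw [e]
      refine fg_mono A0.le h ?_
      have h1 := gx.bnd.lam 0
      rw [show zero.lam 0 = 0 from rfl, sub_zero]
      have h2 : q.C * (3 * β) * |(q.gau mu j).lam 0| ≤ q.C * (3 * β) * (3 * β) := by
        gcongr
      nlinarith [mul_le_mul_of_nonneg_right hC (by positivity : 0 ≤ q.C ^ 2 * β ^ 2 / q.C ^ 2),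
        mul_nonneg (sub_nonneg.2 hC) (mul_nonneg (by linarith : 0 ≤ q.C) (sq_nonneg β))]
    have hs := hst t0 j _ _ _ _ gx
    have l6 : |(q.gau mu (j + 1)).lam 0| ≤ 6 * β := by
      have h := (hee t0 j _ _ _ _ _ _ _ 0 _ gx g0 δ0).1 (dr 0)
      rw [fg_dl, sub_zero] at h
      exact (abs_add_le _ _).trans ((add_le_add (gx.bnd.lam 0) h).trans (by linarith))
    have g6 := mk (j + 1) _ hs l6 (by linarith) (by linarith) hd
    refine ⟨mk (j + 1) _ hs ?_ (by linarith) (by linarith) hd, hd⟩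
    have hb : Par.ok (1, j + 1) (j + 1) := ⟨.inl rfl, le_rfl, by simp⟩
    obtain ⟨m1', m2⟩ := fg_m (q := q) (by omega) hb
    obtain ⟨θ, θ1, θ2, θ3⟩ := fg_theta m2 (by have := (hn hb).2; omega) (by omega)
    obtain ⟨V, V0, hV⟩ := (h_zgau q.L (q.n (1, j + 1)) (j + 1) mu (hn hb).1 m0).2
    have c1 := (ch (1, j + 1) 0 hb (by simpa using t1.le) fun i hi => (ih i hi).1).1 (j + 1) le_rfl
    rw [fg_pre h_w12 (by omega) ⟨hb.1, Nat.zero_le _, hb.2.2⟩] at c1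
    have bz : bg (q.n (1, j + 1)) 0 = 0 := by funext p; simp [bg]
    simp only [bz, zero_add, f_Ex_mul] at c1
    obtain ⟨k, hk⟩ : ∃ k : ℂ, ∀ ξ, Dir (q.n (1, j + 1)) ξ → W1 (box (q.m (1, j + 1) (j + 1)))
        (fun B => q.Ih (1, j + 1) (j + 1) 0 ((q.gau mu (j + 1)).lam 0) B (cf ξ))
        (fun X => ((q.gau mu (j + 1)).a (1, j + 1) 0).K 0 X (cf ξ)) = k * V ξ := by
      refine ⟨_, fun ξ hξ => fg_div ((hV ξ hξ).1 ▸ (c1 ξ hξ).trans (congrArg _
        (fg_WW h_w12 (eq (j + 1)) (lt_of_lt_of_le (by omega) m1') 0 _)))⟩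
    have f1 := fun ξ hξ h => (hfi t0 (1, j + 1) _ _ _ _ hb g6).2.2.2.2 0 ξ hξ h
    have f2 := f1 θ θ1 (by nlinarith [hκ.1, hκ.2])
    have f3 := f1 0 (f_dir_zero _) (by simp [f_cf_zero, Nf, n1, n2, dg])
    rw [hk θ θ1, fg_En, θ2] at f2
    rw [hk 0 (f_dir_zero _), f_cf_zero] at f3
    have v := (hV θ θ1).2
    rw [θ2] at v
    refine fg_pin V0 v.1 v.2 (by simpa [En, dg] using f3) f2 (by linarith [hε.2]) m1 ?_
    rw [div_mul_eq_mul_div, ← mul_div_assoc, div_le_iff₀ A0]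
    nlinarith
  refine ⟨fun j => ⟨(main j).1, fun b z s => ⟨(eq j).K b z s, (eq j).lam s⟩, (main j).2⟩,
    fun b z hb hz => ?_⟩
  have c2 := (ch b z hb hz fun i _ => (main i).1).2
  rw [fg_pre h_w12 (by omega) ⟨hb.1, Nat.zero_le _, hb.2.2⟩, f_Tot_mul,
    (h_zgau q.L (q.n b) b.2 mu (hn hb).1 m0).1 z] at c2
  have fw : q.finW (q.gau mu b.2) b z = 3 * q.fin1 (q.gau mu b.2) b z 0 := by
    have : 0 < q.m b b.2 := lt_of_lt_of_le (by omega) (fg_m (q := q) (by omega) hb).1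
    simp only [Par.finW, Par.fin1, fg_WW h_w12 (eq b.2) this, integral_const_mul]
  rw [show q.finW (q.flow _ b.2) b z = _ from fw] at c2
  have al : ∀ a b c d e f w v : ℂ, 3 * Complex.exp a * (Complex.exp b * v) =
      Complex.exp c * Complex.exp d * (3 * w) → e = c + d → f = a + b →
      Complex.exp e * w = Complex.exp f * v := by
    rintro a b c d _ _ w v h rfl rfl
    rw [Complex.exp_add, Complex.exp_add]
    linear_combination (-1 / 3 : ℂ) * h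
  exact al _ _ _ _ _ _ _ _ c2 (sub_eq_add_neg _ _) (by ring)

end Pool.Agent.Lib.MP_9cc147_pr.Cx
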