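import Pool.Agent.Lib.MP_9cc147_pr.Cx.F.S
import Pool.Agent.Lib.MP_9cc147_pr.Cx.F.Kit

/-! The two ties: a zero of the bulk and of the side energy. -/

open scoped Classical Topology
open Finset MeasureTheory Filter

noncomputable section
namespace Pool.Agent.Lib.MP_9cc147_pr.Cx

theorem ftie_av1 (T : Lab → P → ℝ) (d : ℕ) :
    av (Ph T) 1 d = (T 1 (rf d) + T 2 (rf d)) / 2 := by
  unfold av Ph cls
  split_ifs <;> simp [add_comm]

theorem ftie_av0 (T : Lab → P → ℝ) (d : ℕ) : av (Ph T) 0 d = T 0 (rf d) := by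
  have h : Equiv.swap (1 : Lab) 2 0 = 0 := by decide
  unfold av Ph cls
  split_ifs <;> simp [h]

/-- difference of the averaged energies of the two kinds of phases -/
def ftieD (T : Lab → P → ℝ) (d : ℕ) : ℝ := (T 1 (rf d) + T 2 (rf d)) / 2 - T 0 (rf d)

theorem ftie_f (T : Lab → P → ℝ) : av (Ph T) 1 6 - av (Ph T) 0 6 = ftieD T 6 := by
  rw [ftie_av1, ftie_av0, ftieD]

theorem ftie_g (T : Lab → P → ℝ) :
    Gs (Ph T) 1 - Gs (Ph T) 0 = ∑ d ∈ range 6, (ftieD T d - ftieD T 6) := by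
  rw [Gs, Gs, ← sum_sub_distrib]
  refine sum_congr rfl fun d _ => ?_
  simp only [ftie_av1, ftie_av0, ftieD]
  ring

theorem ftie_rf {L d : ℕ} (hL : 100 ≤ L) (hd : d ≤ 6) :
    rf d ∈ box (L ^ 2) ∧ ¬ corner (L ^ 2) (rf d) := by
  have h : 10000 ≤ L ^ 2 := by nlinarith
  rw [f_mem_box]
  unfold corner rf
  simp only
  omega

theorem ftie_term {x K c : ℝ} (hx : |x| ≤ K) (hc : 2 ≤ c) (i : ℕ) :
    ‖x / c ^ i‖ ≤ K * (1 / 2) ^ i := by
  have h1 : (2 : ℝ) ^ i ≤ c ^ i := pow_le_pow_left₀ (by norm_num) hc i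
  have h2 : (0 : ℝ) < 2 ^ i := by positivity
  rw [Real.norm_eq_abs, abs_div, abs_of_pos (h2.trans_le h1), one_div, inv_pow, ← div_eq_mul_inv]
  exact div_le_div₀ ((abs_nonneg x).trans hx) hx h2 h1

/-- a geometric series of continuous functions -/
theorem ftie_ser {T : Type} [TopologicalSpace T] {f : ℕ → T → ℝ} {K c : ℝ} (hc : 2 ≤ c)
    (hf : ∀ i, Continuous (f i)) (hb : ∀ i τ, |f i τ| ≤ K) :
    Continuous (fun τ => ∑' i, f i τ / c ^ i) ∧ ∀ τ, |∑' i, f i τ / c ^ i| ≤ K * 2 :=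
  ⟨continuous_tsum (fun i => (hf i).div_const _) (summable_geometric_two.mul_left K)
      fun i τ => ftie_term (hb i τ) hc i,
    fun τ => tsum_of_norm_bounded (hasSum_geometric_two.mul_left K)
      fun i => ftie_term (hb i τ) hc i⟩

theorem ftie_num {q : Par} (hq : RG q) {η : ℝ} (h : 0 < η ∧ 10 ^ 7 * q.C ^ 5 * η ≤ q.ε) :
    10000 ≤ q.C ∧ η ≤ 1 ∧ q.C * η ≤ q.ε ∧ q.C * η ≤ q.C ^ 3 * η ∧ q.C ^ 3 * η ≤ 1 / 10 ^ 9 := by
  have hL : (100 : ℝ) ≤ q.L := by exact_mod_cast hq.L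
  have hC : 10000 ≤ q.C := by nlinarith [hq.C]
  have h1 : (1 : ℝ) ≤ q.C := by linarith
  have h3 : q.C ≤ q.C ^ 3 := by simpa using pow_le_pow_right₀ h1 (by norm_num : 1 ≤ 3)
  have h5 : q.C ^ 3 ≤ q.C ^ 5 := pow_le_pow_right₀ h1 (by norm_num)
  have a1 := mul_le_mul_of_nonneg_right h3 h.1.le
  have a2 := mul_le_mul_of_nonneg_right h5 h.1.le
  have a3 := mul_le_mul_of_nonneg_right h1 h.1.le
  have := hq.ε
  refine ⟨hC, by linarith [h.2], by linarith [h.2], a1, by linarith [h.2]⟩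

/-- the energies at scale 0 -/
theorem ftie_zero (h_cnt : S_f_cnt) {q : Par} (hq : RG q) {t0 η ν ρ : ℝ} {m : Measure ℝ}
    {p : Par.Pre} {y : ℕ × ℕ → P → Om → ℝ} (hs : q.Sc t0 η ν ρ m p y) {a bb : ℝ}
    (hn : q.Cn p a bb η) {d : ℕ} (hd : d ≤ 6) :
    |ftieD (q.T0 (mu0 m) p (1, 1)) d +
      ((q.L : ℝ) ^ 2 * a + if d = 0 then q.L * (bb - a) else 0) / 2| ≤ q.C ^ 3 * η := by
  haveI := hs.prob
  obtain ⟨hC, -, -, hK, -⟩ := ftie_num hq hs.hη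
  have hm : q.m (1, 1) 0 = q.L ^ 2 := q.m_ref 0
  have hok : Par.ok (1, 1) 0 := (Par.ok_ref 0).pred
  obtain ⟨hb, hc⟩ := ftie_rf hq.L hd
  rw [← hm] at hb hc
  obtain ⟨e1, e2, -⟩ := hq.e0 q m (1, 1) (rf d) hq.L hok hb
  have hT : ∀ s, q.T0 (mu0 m) p (1, 1) s (rf d) =
      p.lam s / 2 * (E0 q (mu0 m) (1, 1) (rf d)).re - Real.log (p.c (1, 1) s (rf d)) := by
    intro s
    have : (p.lam s / 2 : ℂ) = ((p.lam s / 2 : ℝ) : ℂ) := by push_cast; rfl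
    simp only [Par.T0, Par.e0, Complex.sub_re, Complex.ofReal_re, this, Complex.re_ofReal_mul]
    rfl
  have e3 : |(E0 q (mu0 m) (1, 1) (rf d)).re| ≤ q.C :=
    ((Complex.abs_re_le_norm _).trans e2).trans hq.C
  obtain ⟨c1, c2, -⟩ := h_cnt q hq.L hq.odd
  obtain ⟨c3, c4⟩ := c2 d hd
  have n0 := hn (1, 1) hok 0 _ hb hc
  have n1 := hn (1, 1) hok 1 _ hb hc
  have n2 := hn (1, 1) hok 2 _ hb hc
  rw [(c1 _ 0 _ _).2, (c1 _ 0 _ _).2] at n0
  have c5 : (nbe (q.n (1, 1)) q.L 1 (rf d) True : ℝ) + nbe (q.n (1, 1)) q.L 2 (rf d) True =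
      if d = 0 then (q.L : ℝ) else 0 := by exact_mod_cast c3
  have c6 : (nbe (q.n (1, 1)) q.L 1 (rf d) False : ℝ) + nbe (q.n (1, 1)) q.L 2 (rf d) False +
      (if d = 0 then (q.L : ℝ) else 0) = (q.L : ℝ) ^ 2 := by exact_mod_cast c4
  have c7 : (q.L : ℝ) ^ 2 * a + (if d = 0 then q.L * (bb - a) else 0) =
      (nbe (q.n (1, 1)) q.L 1 (rf d) False * a + nbe (q.n (1, 1)) q.L 1 (rf d) True * bb) +
      (nbe (q.n (1, 1)) q.L 2 (rf d) False * a + nbe (q.n (1, 1)) q.L 2 (rf d) True * bb) := by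
    split_ifs at c5 c6 ⊢
    · linear_combination (-a) * c6 - bb * c5
    · linear_combination (-a) * c6 - bb * c5
  have l1 : |(p.lam 1 - p.lam 0) * (E0 q (mu0 m) (1, 1) (rf d)).re| ≤ η * q.C := by
    rw [abs_mul]
    refine mul_le_mul (abs_le.2 ⟨?_, ?_⟩) e3 (abs_nonneg _) hs.hη.1.le <;>
      linarith [hs.lam 0, hs.lam 1]
  have l2 := mul_le_mul_of_nonneg_right hC hs.hη.1.le
  rw [c7, ftieD, hT, hT, hT, ← hs.S.lam12]
  simp only [Nat.cast_zero, zero_mul, add_zero, sub_zero] at n0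
  rw [abs_le] at n0 n1 n2 l1 ⊢
  constructor <;> linarith [n0.1, n0.2, n1.1, n1.2, n2.1, n2.2, l1.1, l1.2, hs.hη.1]

theorem ftie_c0 {q : Par} (hq : RG q) {t0 η ν ρ : ℝ} {m : Measure ℝ} {p : rect → Par.Pre}
    {y : ℕ × ℕ → P → Om → ℝ} (hs : ∀ τ, q.Sc t0 η ν ρ m (p τ) y) (hp : Par.PreC p) {d : ℕ}
    (hd : d ≤ 6) : Continuous fun τ => ftieD (q.T0 (mu0 m) (p τ) (1, 1)) d := by
  have hb := (ftie_rf hq.L hd).1
  rw [← q.m_ref 0] at hb
  have h : ∀ s, Continuous fun τ => q.T0 (mu0 m) (p τ) (1, 1) s (rf d) := fun s => by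
    have h1 := hp.lam s
    have h2 := (hp.c (1, 1) s (rf d)).log fun τ =>
      ((hs τ).B.cpos (1, 1) s _ (Par.ok_ref 0).pred hb).ne'
    unfold Par.T0 Par.e0
    fun_prop
  exact (((h 1).add (h 2)).div_const 2).sub (h 0)

theorem t_f_tie (h_mir : S_f_mir) (h_flow : S_f_flow) (h_est : S_f_est) (h_cnt : S_f_cnt) :
    S_f_tie := by
  intro q t0 η ν ρ m p y bb hq hs hp hn hb1 hb2
  choose mu hmu using fun τ => h_flow q t0 η ν ρ m (p τ) y hq (hs τ)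
  have s0 := hs ⟨(0, 1 / 2), by norm_num [rect]⟩
  haveI := s0.prob
  obtain ⟨hC, hη1, hCe, hK, hK9⟩ := ftie_num hq s0.hη
  have hη := s0.hη.1
  have hL : (100 : ℝ) ≤ q.L := by exact_mod_cast hq.L
  have hcon : ∀ j, q.Cont j fun τ => q.xs m (p τ) j := by
    intro j
    induction j with
    | zero =>
      exact hq.initC rect t0 m p _ _ ν ρ y s0.t.1 s0.t.2 (fun τ => ⟨(hs τ).S, (hs τ).B⟩)
        (by positivity) (mul_le_mul_of_nonneg_left (by nlinarith) (by linarith)) hCe s0.hν.1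
        s0.hν.2.1 s0.hν.2.2 hp
    | succ j ih => exact (hq.con rect t0 j _ _ _ _ (fun τ => (hmu τ).gd j) ih).1
  have hj : ∀ j, ∀ d ≤ 6,
      (Continuous fun τ => ftieD (q.Tj (q.xs m (p τ) j) j (1, j + 1)) d) ∧
      ∀ τ, |ftieD (q.Tj (q.xs m (p τ) j) j (1, j + 1)) d| ≤ 16 * (q.C ^ 3 * η) := by
    intro j d hd
    have hb := (ftie_rf hq.L hd).1
    rw [← q.m_ref j] at hb
    have h1 : ∀ s, Continuous fun τ => q.Tj (q.xs m (p τ) j) j (1, j + 1) s (rf d) := fun s =>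
      Complex.continuous_re.comp ((hq.con rect t0 j _ _ _ _ (fun τ => (hmu τ).gd j)
        (hcon j)).2 (1, j + 1) s _ hb (Par.ok_ref j))
    refine ⟨(((h1 1).add (h1 2)).div_const 2).sub (h1 0), fun τ => ?_⟩
    have h2 : ∀ s, |q.Tj (q.xs m (p τ) j) j (1, j + 1) s (rf d)| ≤ 8 * q.C ^ 3 * η := fun s =>
      (Complex.abs_re_le_norm _).trans (h_est q t0 η ν ρ m (p τ) y _ (hmu τ) j (1, j + 1) 0 s _ hb
        (Par.ok_ref j) (by simpa using s0.t.1.le)).1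
    have a0 := abs_le.1 (h2 0)
    have a1 := abs_le.1 (h2 1)
    have a2 := abs_le.1 (h2 2)
    rw [ftieD, abs_le]
    constructor <;> linarith [a0.1, a0.2, a1.1, a1.2, a2.1, a2.2]
  have hF := ftie_ser (c := (q.L : ℝ) ^ 2) (by nlinarith) (fun j => (hj j 6 le_rfl).1)
    fun j => (hj j 6 le_rfl).2
  have hG := ftie_ser (c := (q.L : ℝ)) (K := 192 * (q.C ^ 3 * η))
    (f := fun j τ => ∑ d ∈ range 6, (ftieD (q.Tj (q.xs m (p τ) j) j (1, j + 1)) d -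
      ftieD (q.Tj (q.xs m (p τ) j) j (1, j + 1)) 6)) (by linarith)
    (fun j => continuous_finsetSum _ fun d hd =>
      (hj j d (mem_range.1 hd).le).1.sub (hj j 6 le_rfl).1) fun j τ => by
      refine (abs_sum_le_sum_abs _ _).trans ((sum_le_card_nsmul _ _ (32 * (q.C ^ 3 * η))
        fun d hd => ?_).trans (by simp; linarith))
      refine (abs_sub _ _).trans ?_
      linarith [(hj j d (mem_range.1 hd).le).2 τ, (hj j 6 le_rfl).2 τ]
  have ef : ∀ τ, q.ff m (p τ) = ftieD (q.T0 (mu0 m) (p τ) (1, 1)) 6 +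
      ∑' i, ftieD (q.Tj (q.xs m (p τ) i) i (1, i + 1)) 6 / ((q.L : ℝ) ^ 2) ^ i := fun τ => by
    simp only [Par.ff, Par.P0, Par.Pj, ftie_f, pow_mul]
  have eg : ∀ τ, q.gg m (p τ) = ∑ d ∈ range 6, (ftieD (q.T0 (mu0 m) (p τ) (1, 1)) d -
      ftieD (q.T0 (mu0 m) (p τ) (1, 1)) 6) + ∑' j, (∑ d ∈ range 6,
        (ftieD (q.Tj (q.xs m (p τ) j) j (1, j + 1)) d -
          ftieD (q.Tj (q.xs m (p τ) j) j (1, j + 1)) 6)) / (q.L : ℝ) ^ j := fun τ => by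
    simp only [Par.gg, Par.P0, Par.Pj, ftie_g]
  have z0 := fun τ d (hd : d ≤ 6) => abs_le.1 (ftie_zero h_cnt hq (hs τ) (hn τ) hd)
  have bf : ∀ τ, |q.ff m (p τ) + (q.L : ℝ) ^ 2 * τ.1.1 / 2| ≤ 33 * (q.C ^ 3 * η) := fun τ => by
    have h1 := z0 τ 6 le_rfl
    have h2 := abs_le.1 (hF.2 τ)
    simp only [OfNat.ofNat_ne_zero, if_false, add_zero] at h1
    rw [ef, abs_le]
    constructor <;> linarith [h1.1, h1.2, h2.1, h2.2]
  have bg : ∀ τ, |q.gg m (p τ) + q.L * (bb τ - τ.1.1) / 2| ≤ 400 * (q.C ^ 3 * η) := fun τ => by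
    have h0 := z0 τ 0 (by norm_num)
    have h1 := z0 τ 1 (by norm_num)
    have h2 := z0 τ 2 (by norm_num)
    have h3 := z0 τ 3 (by norm_num)
    have h4 := z0 τ 4 (by norm_num)
    have h5 := z0 τ 5 (by norm_num)
    have h6 := z0 τ 6 (by norm_num)
    have h7 := abs_le.1 (hG.2 τ)
    simp only [OfNat.ofNat_ne_zero, one_ne_zero, if_false, if_true, add_zero]
      at h0 h1 h2 h3 h4 h5 h6
    have hp : 0 < q.C ^ 3 * η := by positivity
    rw [eg, sum_range_succ, sum_range_succ, sum_range_succ, sum_range_succ, sum_range_succ,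
      sum_range_one, abs_le]
    constructor <;> linarith [h0.1, h0.2, h1.1, h1.2, h2.1, h2.2, h3.1, h3.2, h4.1, h4.2, h5.1,
      h5.2, h6.1, h6.2, h7.1, h7.2]
  have hL2 : (10000 : ℝ) ≤ (q.L : ℝ) ^ 2 := by nlinarith
  obtain ⟨τ, h1, h2⟩ := h_mir (fun τ => q.ff m (p τ)) (fun τ => q.gg m (p τ))
    (by simp only [ef]; exact (ftie_c0 hq hs hp le_rfl).add hF.1)
    (by
      simp only [eg]
      exact (continuous_finsetSum _ fun d hd => (ftie_c0 hq hs hp (mem_range.1 hd).le).sub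
        (ftie_c0 hq hs hp le_rfl)).add hG.1)
    (fun τ h => by have := abs_le.1 (bf τ); rw [h] at this; linarith [this.1])
    (fun τ h => by have := abs_le.1 (bf τ); rw [h] at this; linarith [this.2])
    (fun τ h => by
      have := mul_le_mul_of_nonneg_left (hb1 τ h) (by linarith : (0 : ℝ) ≤ q.L)
      linarith [(abs_le.1 (bg τ)).1])
    (fun τ h => by
      have := mul_le_mul_of_nonneg_left (hb2 τ h) (by linarith : (0 : ℝ) ≤ q.L)
      linarith [(abs_le.1 (bg τ)).2])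
  refine ⟨τ, ⟨h1, h2⟩, fun b hb s T hT hc => ?_⟩
  have k1 := bf τ
  have k2 := bg τ
  rw [h1, zero_add, abs_div, abs_mul, abs_of_nonneg (by positivity : (0 : ℝ) ≤ (q.L : ℝ) ^ 2),
    abs_two] at k1
  rw [h2, zero_add, abs_div, abs_mul, abs_of_nonneg (by positivity : (0 : ℝ) ≤ (q.L : ℝ)),
    abs_two] at k2
  have k3 : |bb τ - τ.1.1| ≤ 8 * (q.C ^ 3 * η) := by
    nlinarith [abs_nonneg (bb τ - τ.1.1)]
  have k4 : |bb τ| ≤ |τ.1.1| + 8 * (q.C ^ 3 * η) := by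
    linarith [abs_sub_abs_le_abs_sub (bb τ) τ.1.1]
  have c1 := (h_cnt q hq.L hq.odd).1
  have n1 : (nbe (q.n b) q.L s T False : ℝ) ≤ (q.L : ℝ) ^ 2 := by exact_mod_cast (c1 _ s T _).1
  have n2 : (nbe (q.n b) q.L s T True : ℝ) ≤ (q.L : ℝ) ^ 2 := by exact_mod_cast (c1 _ s T _).1
  have k5 : |(nbe (q.n b) q.L s T False : ℝ) * τ.1.1| ≤ (q.L : ℝ) ^ 2 * |τ.1.1| := by
    rw [abs_mul, Nat.abs_cast]
    exact mul_le_mul_of_nonneg_right n1 (abs_nonneg _)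
  have k6 : |(nbe (q.n b) q.L s T True : ℝ) * bb τ| ≤
      (q.L : ℝ) ^ 2 * (|τ.1.1| + 8 * (q.C ^ 3 * η)) := by
    rw [abs_mul, Nat.abs_cast]
    exact mul_le_mul n2 k4 (abs_nonneg _) (by positivity)
  have hp : 0 < q.C ^ 3 * η := by positivity
  have k7 := mul_le_mul_of_nonneg_right hq.C hp.le
  have k8 := mul_le_mul_of_nonneg_right hC hp.le
  have k9 := mul_le_mul_of_nonneg_right hC hη.le
  have k10 := abs_le.1 (hn τ b hb s T hT hc)
  have k11 : q.C * (q.C ^ 3 * η) = q.C ^ 4 * η := by ring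
  rw [abs_le] at k5 k6 ⊢
  constructor <;> linarith [k5.1, k5.2, k6.1, k6.2, k10.1, k10.2]

end Pool.Agent.Lib.MP_9cc147_pr.Cx
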