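import Pool.Agent.Lib.MP_9cc147_pr.Cx.F.S
import Pool.Agent.Lib.MP_9cc147_pr.Cx.F.Kit
import Pool.Agent.Lib.MP_9cc147_pr.Cx.J.Tgpre

/-! Dependence of the partition function on the boundary parameter. -/

open scoped Classical Topology ComplexConjugate
open Finset MeasureTheory ProbabilityTheory Filter

noncomputable section
namespace Pool.Agent.Lib.MP_9cc147_pr.Cx

theorem fzd_close {w a c : ℂ} (hw : ‖w‖ ≤ 1 / 100) (ha : ‖a - 1‖ ≤ 1 / 100)
    (hc : ‖c - 1‖ ≤ 1 / 100) : c ≠ 0 ∧ ‖Complex.exp w * a / c - 1‖ ≤ 1 / 10 := by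
  have h1 : 99 / 100 ≤ ‖c‖ := by
    have := norm_sub_norm_le (1 : ℂ) c
    rw [norm_one, norm_sub_rev] at this
    linarith
  have hc0 : c ≠ 0 := norm_pos_iff.1 (by linarith)
  have he : ‖Complex.exp w - 1‖ ≤ 1 / 50 :=
    (Complex.norm_exp_sub_one_le (by linarith)).trans (by linarith)
  refine ⟨hc0, ?_⟩
  have e : Complex.exp w * a / c - 1 =
      ((Complex.exp w - 1) * (a - 1) + (Complex.exp w - 1) + (a - 1) - (c - 1)) / c := by
    field_simp; ring
  rw [e, norm_div, div_le_iff₀ (by linarith)]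
  have h2 : ‖(Complex.exp w - 1) * (a - 1)‖ ≤ 1 / 50 * (1 / 100) := by
    rw [norm_mul]; gcongr
  have h3 := norm_sub_le ((Complex.exp w - 1) * (a - 1) + (Complex.exp w - 1) + (a - 1)) (c - 1)
  have h4 := norm_add₃_le (a := (Complex.exp w - 1) * (a - 1)) (b := Complex.exp w - 1) (c := a - 1)
  linarith

theorem fzd_En {n : ℕ} (hu : ∀ p, 0 ≤ uu n p ∧ uu n p ≤ 1) {z : ℂ} (hz : ‖z‖ ≤ 1) (L : ℕ) (B : P) :
    ‖En (bg n z) (cell L B)‖ ≤ 2 * (L : ℝ) ^ 2 := by
  have h1 : ∀ x d, ‖dg (bg n z) x d ^ 2‖ ≤ 1 := fun x d => by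
    rw [norm_pow]
    refine pow_le_one₀ (norm_nonneg _) ?_
    simp only [dg, bg]
    rw [← mul_sub, norm_mul, ← Complex.ofReal_sub, Complex.norm_real, Real.norm_eq_abs]
    refine mul_le_one₀ hz (abs_nonneg _) (abs_le.2 ⟨?_, ?_⟩) <;>
      linarith [hu (x + crn (d + 1)), hu (x + crn d)]
  refine (norm_sum_le _ _).trans ((sum_le_card_nsmul _ _ 2 fun x _ => ?_).trans ?_)
  · rw [norm_mul]
    have h2 := (norm_sum_le univ fun d => dg (bg n z) x d ^ 2).trans
      (sum_le_card_nsmul _ _ 1 fun d _ => h1 x d)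
    simp only [card_univ, Fintype.card_fin, nsmul_eq_mul, mul_one] at h2
    have h3 : ‖(1 / 2 : ℂ)‖ = 1 / 2 := by simp
    rw [h3]; push_cast at h2; linarith
  · rw [f_card_cell]; simp [mul_comm]

theorem fzd_ab {L m : ℕ} (hL : 1 ≤ L) (S : Finset P) (f : P → ℂ) {M : ℝ} (hM : 0 ≤ M)
    (h0 : ∀ B ∈ S, ¬ ab m (par L B) → f B = 0) (h1 : ∀ B ∈ S, ‖f B‖ ≤ M) :
    ‖∑ B ∈ S, f B‖ ≤ 2 * (L : ℝ) ^ 2 * M := by
  rw [← sum_filter_of_ne (p := fun B => ab m (par L B)) fun B hB h => by_contra fun h' =>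
    h (h0 B hB h')]
  refine (norm_sum_le _ _).trans ((sum_le_card_nsmul _ _ M fun B hB =>
    h1 B (mem_filter.1 hB).1).trans ?_)
  have hs : S.filter (fun B => ab m (par L B)) ⊆
      cell L (0, 0) ∪ cell L ((m : ℤ) - 1, (m : ℤ) - 1) := fun B hB => by
    rw [mem_union, f_mem_cell hL, f_mem_cell hL]; exact (mem_filter.1 hB).2
  have hc := (card_le_card hs).trans (card_union_le _ _)
  rw [f_card_cell, f_card_cell] at hc
  rw [nsmul_eq_mul]
  refine mul_le_mul_of_nonneg_right ?_ hM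
  have : ((S.filter fun B => ab m (par L B)).card : ℝ) ≤ (L ^ 2 + L ^ 2 : ℕ) := by exact_mod_cast hc
  push_cast at this; linarith

theorem fzd_geo (c : ℝ) (hc : 0 ≤ c) (J : ℕ) : ∑ j ∈ range J, c / 4 ^ j ≤ 2 * c := by
  have h : ∑ j ∈ range J, c / 4 ^ j = 4 / 3 * c - 4 / 3 * (c / 4 ^ J) := by
    induction J with
    | zero => simp
    | succ J ih => rw [sum_range_succ, ih, pow_succ]; field_simp; ring
  have : 0 ≤ c / 4 ^ J := by positivity
  linarith

theorem fzd_hz {t0 : ℝ} {f : ℂ → ℂ} (h : Hz t0 f) : DifferentiableOn ℂ f (Metric.ball 0 t0) :=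
  h _ id Metric.isOpen_ball differentiableOn_id fun _ hs => (mem_ball_zero_iff.1 hs).le

variable (q : Par)

theorem fzd_et0 (j : ℕ) (x : State) (b : ℕ × ℕ) (s : Lab) (B : P) :
    q.et j x b 0 s B = q.e j x b 0 s B := by
  simp [Par.et, Par.xt, jg_bg_zero, jg_En_zero]

/-- the energy extracted along a flow -/
def fzd_E (μ : Measure Om) (p : Par.Pre) (x : ℕ → State) (b : ℕ × ℕ) (s : Lab) (z : ℂ) : ℂ :=
  ∑ B ∈ box (q.m b 0), q.e0 μ p b s B +
    ∑ j ∈ range b.2, ∑ B ∈ box (q.m b j), q.et j (x j) b z s B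

theorem fzd_flow (hq : RG q) {t0 : ℝ} (m : Measure ℝ) [IsProbabilityMeasure m] (p : Par.Pre)
    {x : ℕ → State} {b : ℕ × ℕ} (hb : Par.ok b b.2) (s : Lab)
    (hx : ∀ j, ∃ α ν ρ, q.Good t0 j (x j) α ν ρ) :
    DifferentiableOn ℂ (fzd_E q (mu0 m) p x b s) (Metric.ball 0 t0) ∧
    (∀ z, fzd_E q (mu0 m) p x b s (-z) = fzd_E q (mu0 m) p x b s z) ∧
    (fzd_E q (mu0 m) p x b s 0 = (∑ B ∈ box (q.m b 0), q.T0 (mu0 m) p b s B +
      ∑ j ∈ range b.2, ∑ B ∈ box (q.m b j), q.Tj (x j) j b s B : ℝ)) ∧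
    ∀ j ∈ range b.2, ∀ B ∈ box (q.m b j), ∀ z, ¬ ab (q.m b (j + 1)) (par q.L B) →
      q.et j (x j) b z s B = q.et j (x j) b 0 s B := by
  have H := fun j (hj : j ∈ range b.2) B hB => (hq.esy t0 j (x j) _ _ _
    (hx j).choose_spec.choose_spec.choose_spec).1 b s B hB (hb.le (mem_range.1 hj))
  refine ⟨(differentiableOn_const _).add (DifferentiableOn.fun_sum fun j hj =>
    DifferentiableOn.fun_sum fun B hB => fzd_hz (H j hj B hB).2.1), fun z => ?_, ?_,
    fun j hj B hB z h => ?_⟩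
  · unfold fzd_E
    rw [sum_congr rfl fun j hj => sum_congr rfl fun B hB => (H j hj B hB).2.2.1 z]
  · unfold fzd_E
    push_cast
    congr 1
    · refine sum_congr rfl fun B hB => Complex.ext rfl ?_
      have := (hq.e0 q m b B hq.L (hb.le (Nat.zero_le _)) hB).1
      unfold E0 at this
      simp [Par.e0, this]
    · refine sum_congr rfl fun j hj => sum_congr rfl fun B hB => ?_
      rw [fzd_et0]
      exact Complex.ext rfl (by rw [(H j hj B hB).1, Complex.ofReal_im])
  · rw [(H j hj B hB).2.2.2 z h, fzd_et0]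

theorem t_f_zdep (h_est : S_f_est) (h_chain : S_f_chain) : S_f_zdep := by
  intro q t0 η ν ρ m p y mu F hI b hb
  have hq := F.rg
  have := F.sc.prob
  obtain ⟨ht0, ht1⟩ := F.sc.t
  obtain ⟨hη, hε⟩ := F.sc.hη
  obtain ⟨hν, hρ, hνρ⟩ := F.sc.hν
  have hL1 : 1 ≤ q.L := le_trans (by norm_num) hq.L
  have hLC := hq.C
  have hC : 1 ≤ q.C := le_trans (by exact_mod_cast Nat.one_le_pow _ _ hL1) hLC
  have hp : ∀ k ≤ 5, q.C ^ k * η ≤ 1 / 10 ^ 9 := fun k hk => by
    have : q.C ^ k * η ≤ q.C ^ 5 * η := by gcongr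
    linarith [hq.ε.2]
  have hmu := fun s => (F.sh.2 s)
  have hG := fun s => hq.gau t0 (mu s) (3 * η) ht0 ht1 (hmu s).1 (hmu s).2.1 (by
    have : q.C ^ 3 * η ≤ q.C ^ 5 * η := by gcongr; norm_num
    have : 0 ≤ q.C ^ 5 * η := by positivity
    linarith)
  have hX := fun s => fzd_flow q hq m p hb s fun j => ⟨_, _, _, F.gd j⟩
  have hY := fun s => fzd_flow q hq (gaussianReal 0 1) (q.gPre (mu s)) hb 0
    fun j => ⟨_, _, _, ((hG s).1 j).1⟩
  rw [← hq.zel.1] at hY
  have hf := hq.fin t0 b _ _ _ _ hb (F.gd b.2)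
  have hg := fun s => (hq.fin t0 b _ _ _ _ hb ((hG s).1 b.2).1).1 0
  have hn : 2 ≤ q.n b := by
    have h1 := q.L_le_m hL1 hb
    have h2 : 1 ≤ q.l b.2 := Nat.one_le_pow _ _ hL1
    have h3 := hq.L
    rw [q.n_eq (j := b.2) (Nat.le_succ _)]
    exact le_trans (by omega) (Nat.le_mul_of_pos_left _ h2)
  have hu := (hq.u.choose_spec _ hn).2.1
  set E := fun s => fzd_E q (mu0 m) p (q.xs m p) b s with hE
  set G := fun s => fzd_E q PP (q.gPre (mu s)) (q.gau (mu s)) b 0 with hGd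
  set A := fun z => En (bg (q.n b) z) (cell q.L (0, 0)) +
    En (bg (q.n b) z) (cell q.L ((q.m b 0 : ℤ) - 1, (q.m b 0 : ℤ) - 1)) with hA
  set w := fun s z => -(E s z - G s z - (E s 0 - G s 0)) + (mu s / 2 : ℂ) * A z with hw
  set a := fun (s : Lab) z => q.fin1 (q.xs m p b.2) b z s +
    if s = 0 then q.fin2 (q.xs m p b.2) b z else 0 with ha
  set c := fun s z => q.fin1 (q.gau (mu s) b.2) b z 0 with hc
  have hcl : ∀ s z, ‖z‖ ≤ t0 → c s z ≠ 0 ∧ ‖Complex.exp (w s z) * a s z / c s z - 1‖ ≤ 1 / 10 := by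
    intro s z hz
    refine fzd_close ?_ ?_ ?_
    · have e : E s z - G s z - (E s 0 - G s 0) = ∑ j ∈ range b.2, ∑ B ∈ box (q.m b j),
          (q.et j (q.xs m p j) b z s B - q.et j (q.gau (mu s) j) b z 0 B -
            (q.et j (q.xs m p j) b 0 s B - q.et j (q.gau (mu s) j) b 0 0 B)) := by
        simp only [hE, hGd, fzd_E, sum_sub_distrib]; ring
      have h1 : ‖E s z - G s z - (E s 0 - G s 0)‖ ≤ 2 * (16 * q.C ^ 4 * η) := by
        rw [e]
        refine (norm_sum_le _ _).trans ((sum_le_sum fun j hj => ?_).trans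
          (fzd_geo _ (by positivity) _))
        have hj' : Par.ok b (j + 1) := hb.le (mem_range.1 hj)
        refine (fzd_ab (m := q.m b (j + 1)) hL1 _ _ (M := 8 * q.C ^ 3 * η / 4 ^ j) (by positivity)
          (fun B hB h => ?_) fun B hB => ?_).trans ?_
        · rw [(hX s).2.2.2 j hj B hB z h, (hY s).2.2.2 j hj B hB z h, sub_self]
        · refine (norm_sub_le _ _).trans ((add_le_add
            (h_est q t0 η ν ρ m p y mu F j b z s B hB hj' hz).2.2
            (h_est q t0 η ν ρ m p y mu F j b 0 s B hB hj' (by simpa using ht0.le)).2.2).trans_eq ?_)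
          ring
        · calc _ ≤ 2 * q.C * (8 * q.C ^ 3 * η / 4 ^ j) := by gcongr
            _ = _ := by ring
      have h2 : ‖(mu s / 2 : ℂ) * A z‖ ≤ 3 * η / 2 * (4 * q.C) := by
        rw [norm_mul]
        refine mul_le_mul ?_ ((norm_add_le _ _).trans ?_) (norm_nonneg _) (by positivity)
        · rw [norm_div, Complex.norm_real, Real.norm_of_nonneg (hmu s).1, Complex.norm_two]
          linarith [(hmu s).2.1]
        · linarith [fzd_En hu (hz.trans ht1) q.L (0, 0),
            fzd_En hu (hz.trans ht1) q.L ((q.m b 0 : ℤ) - 1, (q.m b 0 : ℤ) - 1)]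
      refine (norm_add_le _ _).trans ?_
      rw [norm_neg]
      have := hp 4 (by norm_num)
      have := hp 1 (by norm_num)
      nlinarith
    · have h1 := (hf.1 s).2.2 z hz
      have h2 := (hf.2.2.2.1 z hz).1
      have h3 : ν / 16 ^ b.2 * (ρ * (21 / 20) ^ b.2) ^ 4 ≤ q.C * η ^ 2 := by
        have e : ν / 16 ^ b.2 * (ρ * (21 / 20) ^ b.2) ^ 4 =
            ν * ρ ^ 4 * ((21 / 20) ^ 4 / 16) ^ b.2 := by
          rw [mul_pow, ← pow_mul, mul_comm b.2 4, pow_mul, div_pow _ 16]; ring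
        rw [e]
        calc _ ≤ ν * ρ ^ 8 * 1 := by
              gcongr
              · norm_num
              · exact pow_le_one₀ (by norm_num) (by norm_num)
          _ ≤ _ := by linarith
      have h4 : ‖if s = 0 then q.fin2 (q.xs m p b.2) b z else 0‖ ≤ q.C * (q.C * η ^ 2) := by
        split_ifs
        · refine h2.trans ?_
          rw [mul_assoc]; gcongr
        · rw [norm_zero]; positivity
      have e : a s z - 1 = q.fin1 (q.xs m p b.2) b z s - 1 +
        if s = 0 then q.fin2 (q.xs m p b.2) b z else 0 := by simp only [ha]; ring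
      rw [e]
      refine (norm_add_le _ _).trans ?_
      have := hp 3 (by norm_num)
      have h5 := hp 1 (by norm_num)
      have h6 : 0 ≤ q.C ^ 1 * η := by positivity
      nlinarith
    · have := (hg s).2.2 z hz
      have := hp 1 (by norm_num)
      simp only [hc]
      nlinarith
  refine ⟨fun s z => Complex.exp (w s z) * a s z / c s z, fun s => ⟨?_, ?_, fun z hz =>
    (hcl s z hz.le).2⟩, fun z hz => ⟨?_, ?_⟩⟩
  · have hA' : ∀ S, DifferentiableOn ℂ (fun z => En (bg (q.n b) z) S) (Metric.ball 0 t0) :=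
      gp_En_diff (F := fun z => bg (q.n b) z) fun p => differentiableOn_id.mul_const _
    refine (DifferentiableOn.cexp ((((hX s).1.sub (hY s).1).sub_const _).neg.add
      (((hA' _).add (hA' _)).const_mul _))).mul ((fzd_hz (hf.1 s).1).add ?_) |>.div
      (fzd_hz (hg s).1) fun z hz => (hcl s z (mem_ball_zero_iff.1 hz).le).1
    split_ifs
    · exact fzd_hz hf.2.1
    · exact differentiableOn_const _
  · have e1 : w s 0 = 0 := by simp [hw, hA, jg_bg_zero, jg_En_zero]
    have e2 : (a s 0).im = 0 := by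
      simp only [ha, Complex.add_im, (hf.1 s).2.1]
      split_ifs
      · rw [hf.2.2.1, add_zero]
      · simp
    have e3 : (c s 0).im = 0 := (hg s).2.1
    simp only [e1, Complex.exp_zero, one_mul, Complex.div_im, e2, e3]
    simp
  · have e : ∀ z, q.ZZ m p b z = Complex.exp (-E 0 z) * q.finW (q.xs m p b.2) b z := fun z => by
      simp only [Par.ZZ, hE, fzd_E, neg_add, sub_eq_add_neg]
    rw [e, e, (hf.2.2.2.1 z hz.le).2]
    simp only [hE, (hX 0).2.1]
  · have e : q.ZZ m p b z = ∑ s, Complex.exp (-E s z) * a s z := by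
      have hd := (h_chain q t0 η ν ρ m p y mu F hI b z hb hz.le).2
      have e1 : ∀ s, Complex.exp (-E s z) = Complex.exp (-E 0 z) *
          Complex.exp (-∑ B ∈ box (q.m b b.2), ((q.xs m p b.2).a b z).d s B) := fun s => by
        rw [hd, ← Complex.exp_add]
        simp only [hE, fzd_E, sum_sub_distrib]; congr 1; ring
      have e2 : q.ZZ m p b z = Complex.exp (-E 0 z) * q.finW (q.xs m p b.2) b z := by
        simp only [Par.ZZ, hE, fzd_E, neg_add, sub_eq_add_neg]
      simp only [ha, mul_add, sum_add_distrib, mul_ite, mul_zero, sum_ite_eq', mem_univ, if_true]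
      rw [e2, Par.fin2, sum_congr rfl fun s _ => by rw [e1 s, mul_assoc], ← mul_sum]
      ring
    rw [e]
    refine sum_congr rfl fun s _ => ?_
    have h1 := (hG s).2 b z hb hz.le
    have h0 := (hcl s z hz.le).1
    have e1 : Real.exp (q.lp m p mu b s) = Complex.exp (-(E s 0 - G s 0)) *
        ((1 + mu s) ^ (-((q.n b : ℝ) - 1) ^ 2 / 2) : ℝ) := by
      simp only [hE, hGd]
      rw [(hX s).2.2.1, (hY s).2.2.1, Real.rpow_def_of_pos (by linarith [(hmu s).1]),
        ← Complex.ofReal_sub, ← Complex.ofReal_neg, ← Complex.ofReal_exp, ← Complex.ofReal_mul,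
        ← Real.exp_add]
      congr 2
      simp only [Par.lp, sum_sub_distrib]; ring
    have e2 : Complex.exp (-G s z) * c s z = Complex.exp (-(mu s / 2 : ℂ) * z ^ 2 * Rt (q.n b)) *
        Complex.exp ((mu s / 2 : ℂ) * A z) *
        ((1 + mu s) ^ (-((q.n b : ℝ) - 1) ^ 2 / 2) : ℝ) := by
      rw [← Complex.exp_add]
      convert h1 using 3
      · simp only [hGd, fzd_E]; ring
      · simp only [hA]; ring
    have e3 : Complex.exp (-E s z) * Complex.exp ((mu s / 2 : ℂ) * A z) =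
        Complex.exp (-(E s 0 - G s 0)) * Complex.exp (w s z) * Complex.exp (-G s z) := by
      simp only [← Complex.exp_add, hw]; congr 1; ring
    have h2 := Complex.exp_ne_zero ((mu s / 2 : ℂ) * A z)
    rw [e1]
    have e4 : Complex.exp (-E s z) = Complex.exp (-(E s 0 - G s 0)) * Complex.exp (w s z) *
        (Complex.exp (-G s z) * c s z) / (c s z * Complex.exp ((mu s / 2 : ℂ) * A z)) := by
      rw [eq_div_iff (mul_ne_zero h0 h2)]
      linear_combination c s z * e3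
    rw [e4, e2]
    field_simp

end Pool.Agent.Lib.MP_9cc147_pr.Cx
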