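import Pool.Agent.Lib.MP_9cc147_pr.Cx.F.Out
import Pool.Agent.Lib.MP_9cc147_pr.Cx.F.Abs
import Pool.Agent.Lib.MP_9cc147_pr.Cx.F.Ana
import Pool.Agent.Lib.MP_9cc147_pr.Cx.F.Canon
import Pool.Agent.Lib.MP_9cc147_pr.Cx.F.Chn
import Pool.Agent.Lib.MP_9cc147_pr.Cx.F.Est
import Pool.Agent.Lib.MP_9cc147_pr.Cx.F.Even
import Pool.Agent.Lib.MP_9cc147_pr.Cx.F.Flow
import Pool.Agent.Lib.MP_9cc147_pr.Cx.F.Idle
import Pool.Agent.Lib.MP_9cc147_pr.Cx.F.Pa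
import Pool.Agent.Lib.MP_9cc147_pr.Cx.F.Pb
import Pool.Agent.Lib.MP_9cc147_pr.Cx.F.Slave
import Pool.Agent.Lib.MP_9cc147_pr.Cx.F.Sum
import Pool.Agent.Lib.MP_9cc147_pr.Cx.F.Tie
import Pool.Agent.Lib.MP_9cc147_pr.Cx.F.Zdep

/-! The result of the renormalisation group for one model. -/

namespace Pool.Agent.Lib.MP_9cc147_pr.Cx

theorem t_out (h_u : S_u) (h_zel : S_zel) (h_e0 : S_e0) (h_t0 : S_t0) (h_preC : S_preC)
    (h_preS : S_preS) (h_cp : S_cp) (h_preB : S_preB) (h_pid : S_pid) (h_gpre : S_gpre)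
    (h_init : S_init) (h_initC : S_initC) (h_ee : S_ee) (h_esy : S_esy) (h_str : S_str)
    (h_con : S_con) (h_k1 : S_k1) (h_k0 : S_k0) (h_sid : S_sid) (h_fin : S_fin)
    (h_gau : S_gau) : S_out :=
  have est := t_f_est t_f_slave
  have can := t_f_can t_f_canon
  have flow := t_f_flow t_f_abs t_f_slave
  fo_out (t_f_pa est can t_f_sum2) (t_f_pb t_f_chain) t_f_poly t_f_cnt (t_f_zdep est t_f_chain)
    t_f_even t_f_vee t_f_num flow (t_f_tie t_f_mir flow est t_f_cnt) (t_f_idle est can t_f_sum1)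
    t_f_chain
    (f_rg h_gpre h_init h_initC h_ee h_esy h_str h_con h_k0 h_k1 h_sid h_fin h_gau h_e0 h_zel h_u)
    h_t0 h_preC h_preS h_cp h_preB h_pid

end Pool.Agent.Lib.MP_9cc147_pr.Cx
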