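import Pool.Agent.Lib.MP_9cc147_pr.Cx.S2

/-! The data at `z = 0` do not depend on `t`. -/

open scoped Classical Topology
open Finset MeasureTheory

noncomputable section
namespace Pool.Agent.Lib.MP_9cc147_pr.Cx

theorem f_Et0 (t J : ℝ) : Et 0 t J = 1 := by simp [Et]

theorem f_wt0 (o : Mod) (n L m : ℕ) (t t' : ℝ) : o.wt n L m t 0 = o.wt n L m t' 0 := by
  funext Θ ω X σ δ
  simp only [Mod.wt, f_Et0]

theorem f_step0 (q : Par) (j : ℕ) (x y : State) (hl : x.lam = y.lam)
    (ha : ∀ b, x.a b 0 = y.a b 0) :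
    (q.step j x).lam = (q.step j y).lam ∧ ∀ b, (q.step j x).a b 0 = (q.step j y).a b 0 := by
  have h1 : q.lam' j x = q.lam' j y := by
    funext s; simp only [Par.lam', hl, ha]
  have h2 : ∀ b, q.e j x b 0 = q.e j y b 0 := fun b => by
    funext s B; simp only [Par.e, hl, ha]
  have h3 : ∀ b, q.et j x b 0 = q.et j y b 0 := fun b => by
    funext s B; simp only [Par.et, h1, h2]
  have h4 : ∀ b, q.It j x b 0 = q.It j y b 0 := fun b => by
    funext Θ s B; simp only [Par.It, h1, h2]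
  have h5 : ∀ b, q.D' j x b 0 = q.D' j y b 0 := fun b => by
    funext s B; simp only [Par.D', h3, ha]
  have h6 : ∀ b, q.d' j x b 0 = q.d' j y b 0 := fun b => by
    funext s B; simp only [Par.d', h5]
  have h7 : ∀ b, q.inp j x b 0 = q.inp j y b 0 := fun b => by
    funext Θ; simp only [Par.inp, h3, h4, h6, ha, hl]
  refine ⟨h1, fun b => ?_⟩
  simp only [Par.step, h6, h7]

theorem f_init0 (q : Par) (μ : Measure Om) (p p' : Par.Pre) (hl : p.lam = p'.lam)
    (hc : p.c = p'.c) (b : ℕ × ℕ) (hI : p.I b 0 = p'.I b 0) (hK : p.K b 0 = p'.K b 0)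
    (hN : p.N b 0 = p'.N b 0) : (q.init μ p).a b 0 = (q.init μ p').a b 0 := by
  have h2 : q.e0 μ p b = q.e0 μ p' b := by
    funext s B; simp only [Par.e0, hl, hc]
  have h3 : q.D0 μ p b = q.D0 μ p' b := by
    funext s B; simp only [Par.D0, h2]
  have h4 : q.d0 μ p b = q.d0 μ p' b := by
    funext s B; simp only [Par.d0, h3]
  have h5 : q.It0 μ p b 0 = q.It0 μ p' b 0 := by
    funext Θ s B; simp only [Par.It0, h2, hl]
  have h7 : q.inp0 μ p b 0 = q.inp0 μ p' b 0 := by
    funext Θ; simp only [Par.inp0, h2, h3, h4, h5, hI, hK, hN]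
  simp only [Par.init, h4, h7]

theorem t_t0 : S_t0 := by
  intro q o t t' j
  induction j with
  | zero =>
    have hk : ∀ n L m, o.kp n L m t 0 = o.kp n L m t' 0 := fun n L m => by
      funext Θ ω X σ; simp only [Mod.kp, f_wt0 o n L m t t']
    have hi : ∀ n L m, o.ip n L m t 0 = o.ip n L m t' 0 := fun n L m => by
      funext Θ ω s T; simp only [Mod.ip, f_wt0 o n L m t t']
    have hl : (o.pre q t).lam = (o.pre q t').lam := by simp only [Mod.pre]
    refine ⟨hl, fun b => f_init0 q _ _ _ hl ?_ b ?_ ?_ ?_⟩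
    · simp only [Mod.pre]
    · simp only [Mod.pre, hi]
    · simp only [Mod.pre, hk]
    · simp only [Mod.pre, hk]
  | succ j ih => exact f_step0 q j _ _ ih.1 ih.2

end Pool.Agent.Lib.MP_9cc147_pr.Cx
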